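import Mathlib
import Pool.Agent.Lib.Pf72953y.Ring
import Pool.Agent.Lib.Pf72953y.Pur

/-!
Uniqueness of the place over the Gauss valuation: definitions.
-/

set_option autoImplicit false
set_option linter.style.haveILetI false

open scoped WithZero Polynomial
open Pf72953

namespace Pf72953.Ug

/-- the evaluation at `y` of the polynomials over the valuation ring of `v` -/
noncomputable def ev {P L : Type*} [Field P] [Field L] [Algebra P L] (v : Valuation P ℤᵐ⁰) (y : L) :
    (v.valuationSubring)[X] →+* L :=
  (Polynomial.aeval (R := P) y).toRingHom.comp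
    (Polynomial.mapRingHom (algebraMap v.valuationSubring P))

/-- `b` is integral over `O_v[y]` -/
def IntX {P L : Type*} [Field P] [Field L] [Algebra P L] (v : Valuation P ℤᵐ⁰) (y b : L) : Prop :=
  (ev v y).IsIntegralElem b

/-- the inertia group of `w` over `K` is trivial -/
def NoInert (K : Type*) {L : Type*} [Field K] [Field L] [Algebra K L] (w : Valuation L ℤᵐ⁰) : Prop :=
  ∀ g : L ≃ₐ[K] L, (∀ z, w z ≤ 1 → w (g z - z) < 1) → g = 1

/-- `h(y) z` is congruent to an element integral over `O_v[y]`, at all the places over that of `w` -/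
def Good {P L : Type*} [Field P] [Field L] [Algebra P L] (v : Valuation P ℤᵐ⁰) (K : Type*) [Field K]
    [Algebra K L] (w : Valuation L ℤᵐ⁰) (y z : L) (h : (v.valuationSubring)[X]) : Prop :=
  ∃ b : L, IntX v y b ∧ ∀ σ : L ≃ₐ[K] L, w (σ (b - ev v y h * z)) < 1

end Pf72953.Ug
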