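import Mathlib
import Pool.Agent.Lib.Pf72953x.Defs

/-!
The field `L(y)`, `y ^ r = c`, is Galois over `K`.
-/

set_option autoImplicit false
set_option linter.style.haveILetI false

open scoped WithZero Polynomial
open Pf72953

namespace Pf72953.Ug

/-- (B0) the field `L' = L(y)`, `y ^ r = x - e`, is Galois over `K` -/
theorem exists_field (k : Type*) {P K : Type*} {L : Type*} [Field k] [CharZero k] [IsAlgClosed k]
    [Field P] [Field K] [Field L] [Algebra k P] [Algebra P K] [Algebra K L] [Algebra P L]
    [IsScalarTower P K L] [FiniteDimensional K L] [IsGalois K L] {r : ℕ} (hr : 0 < r) (c : K)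
    (hc : c ≠ 0) :
    ∃ L' : IntermediateField L (AlgebraicClosure L), ∃ y : L', IsGalois K L' ∧ FiniteDimensional K L' ∧
      y ^ r = algebraMap K L' c ∧ ∀ z : L', z ∈ IntermediateField.adjoin L {y} := by
  classical
  -- characteristic zero
  haveI : CharZero P := charZero_of_injective_algebraMap (algebraMap k P).injective
  haveI : CharZero K := charZero_of_injective_algebraMap (algebraMap P K).injective
  haveI : CharZero L := charZero_of_injective_algebraMap (algebraMap K L).injective
  haveI : NeZero r := ⟨hr.ne'⟩
  let A := AlgebraicClosure L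
  -- the root of unity in `K`
  haveI : NeZero (r : k) := ⟨Nat.cast_ne_zero.2 hr.ne'⟩
  obtain ⟨ζ₀, hζ₀⟩ : ∃ ζ : k, IsPrimitiveRoot ζ r := by
    exact HasEnoughRootsOfUnity.exists_primitiveRoot k r
  have hζ : IsPrimitiveRoot (algebraMap L A (algebraMap K L (algebraMap P K (algebraMap k P ζ₀)))) r :=
    (((hζ₀.map_of_injective (algebraMap k P).injective).map_of_injective
      (algebraMap P K).injective).map_of_injective (algebraMap K L).injective).map_of_injective
      (algebraMap L A).injective
  -- the root
  obtain ⟨y₀, hy₀⟩ : ∃ y : A, y ^ r = algebraMap L A (algebraMap K L c) :=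
    IsAlgClosed.exists_pow_nat_eq _ hr
  have hy00 : y₀ ≠ 0 := by
    rintro rfl
    rw [zero_pow hr.ne'] at hy₀
    have h1 : algebraMap K L c = 0 := (algebraMap L A).injective (by rw [← hy₀, map_zero])
    exact hc ((algebraMap K L).injective (by rw [h1, map_zero]))
  have hKA : ∀ z : K, algebraMap K A z = algebraMap L A (algebraMap K L z) := fun z =>
    IsScalarTower.algebraMap_apply K L A z
  let L' : IntermediateField L A := IntermediateField.adjoin L {y₀}
  have hyL : y₀ ∈ L' := IntermediateField.mem_adjoin_simple_self L y₀
  haveI hLL : FiniteDimensional L L' :=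
    IntermediateField.adjoin.finiteDimensional (Algebra.IsIntegral.isIntegral y₀)
  haveI hKL : FiniteDimensional K L' := FiniteDimensional.trans K L L'
  -- `A` is normal over `K`
  haveI : Algebra.IsAlgebraic K A := Algebra.IsAlgebraic.trans K L A
  haveI : IsAlgClosure K A := ⟨inferInstance, inferInstance⟩
  haveI : Normal K A := IsAlgClosure.normal K A
  -- the normality
  let F : IntermediateField K A := L'.restrictScalars K
  have hF : Normal K F := by
    rw [IntermediateField.normal_iff_forall_map_le]
    intro σ
    rintro _ ⟨z, hz, rfl⟩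
    have hz' : z ∈ L' := hz
    change σ z ∈ L'
    have hσL : ∀ a : L, σ (algebraMap L A a) ∈ L' := by
      intro a
      rw [← AlgHom.restrictNormal_commutes σ L a]
      exact L'.algebraMap_mem _
    have hσy : σ y₀ ∈ L' := by
      have h1 : (σ y₀ / y₀) ^ r = 1 := by
        rw [div_pow, ← map_pow, hy₀, ← hKA, AlgHom.commutes, div_self]
        rw [hKA]
        intro h
        have h1 : algebraMap K L c = 0 := (algebraMap L A).injective (by rw [h, map_zero])
        exact hc ((algebraMap K L).injective (by rw [h1, map_zero]))
      obtain ⟨i, -, hi⟩ := hζ.eq_pow_of_pow_eq_one h1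
      have h2 : σ y₀ = (algebraMap L A (algebraMap K L (algebraMap P K (algebraMap k P ζ₀)))) ^ i * y₀ := by
        rw [hi, div_mul_cancel₀ _ hy00]
      rw [h2]
      exact L'.mul_mem (pow_mem (L'.algebraMap_mem _) i) hyL
    -- the induction
    induction hz' using IntermediateField.adjoin_induction with
    | mem x hx => rw [Set.mem_singleton_iff.1 hx]; exact hσy
    | algebraMap a => exact hσL a
    | add a b ha hb h1 h2 => rw [map_add]; exact L'.add_mem (h1 ha) (h2 hb)
    | inv a ha h1 => rw [map_inv₀]; exact L'.inv_mem (h1 ha)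
    | mul a b ha hb h1 h2 => rw [map_mul]; exact L'.mul_mem (h1 ha) (h2 hb)
  haveI hn : Normal K L' := hF
  haveI hg : IsGalois K L' := { }
  refine ⟨L', ⟨y₀, hyL⟩, hg, hKL, ?_, ?_⟩
  · apply Subtype.ext
    change y₀ ^ r = algebraMap K A c
    rw [hy₀, hKA]
  · rintro ⟨z, hz⟩
    have h : ∀ z (hz : z ∈ L'), (⟨z, hz⟩ : L') ∈ IntermediateField.adjoin L {(⟨y₀, hyL⟩ : L')} := by
      intro z hz
      induction hz using IntermediateField.adjoin_induction with
      | mem x hx =>
        have : x = y₀ := Set.mem_singleton_iff.1 hx
        subst this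
        exact IntermediateField.mem_adjoin_simple_self L _
      | algebraMap a =>
        exact (IntermediateField.adjoin L {(⟨y₀, hyL⟩ : L')}).algebraMap_mem a
      | add a b ha hb h1 h2 => exact IntermediateField.add_mem _ h1 h2
      | inv a ha h1 => exact IntermediateField.inv_mem _ h1
      | mul a b ha hb h1 h2 => exact IntermediateField.mul_mem _ h1 h2
    exact h z hz

end Pf72953.Ug
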