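import Mathlib
import Pool.Agent.Lib.Pf72953x.Defs
import Pool.Agent.Lib.Pf72953.Extend
import Pool.Agent.Lib.Pf72953b.GalConj

/-!
The extension of the Gauss valuation to `L(y)`, `y ^ r = x - e`.
-/

set_option autoImplicit false
set_option linter.style.haveILetI false
set_option linter.unusedSectionVars false

open scoped WithZero Polynomial
open Pf72953

namespace Pf72953.Ug

namespace B1Aux

section gauss

variable {P L' : Type*} [Field P] [Field L'] [Algebra P L']

/-- the residue of a Gauss element is transcendental, so that of a root of it is -/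
theorem gauss_pow {w : Valuation L' ℤᵐ⁰} {x y : L'}
    (hG : ∀ p : P[X], (∀ n, w (algebraMap P L' (p.coeff n)) ≤ 1) →
      (∃ n, w (algebraMap P L' (p.coeff n)) = 1) → w (Polynomial.aeval x p) = 1)
    {e : P} (he : w (algebraMap P L' e) ≤ 1) {r : ℕ} (hr : 0 < r)
    (hy : y ^ r = x - algebraMap P L' e) (p : P[X])
    (hp : ∀ n, w (algebraMap P L' (p.coeff n)) ≤ 1)
    (hp1 : ∃ n, w (algebraMap P L' (p.coeff n)) = 1) : w (Polynomial.aeval y p) = 1 := by
  classical
  -- the values of `x` and `y`
  have hx1 : w x = 1 := by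
    have h1 := hG Polynomial.X (fun n => by
      rw [Polynomial.coeff_X]
      split_ifs
      · rw [map_one, map_one]
      · rw [map_zero, map_zero]
        exact zero_le_one) ⟨1, by rw [Polynomial.coeff_X_one, map_one, map_one]⟩
    rwa [Polynomial.aeval_X] at h1
  have hy1 : w y ≤ 1 := by
    have h1 : w y ^ r ≤ 1 := by
      rw [← map_pow, hy]
      exact (Valuation.map_sub _ _ _).trans (max_le hx1.le he)
    by_contra h2
    rw [not_le] at h2
    exact absurd h1 (not_le.2 (one_lt_pow₀ h2 hr.ne'))
  -- residue fields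
  let v : Valuation P ℤᵐ⁰ := w.comap (algebraMap P L')
  let O := v.valuationSubring
  let W := w.valuationSubring
  let κ := IsLocalRing.ResidueField W
  let i : O →+* W := ((algebraMap P L').comp O.subtype).codRestrict W.toSubring (fun a => a.2)
  have hi : ∀ a : O, ((i a : W) : L') = algebraMap P L' (a : P) := fun _ => rfl
  let f : O →+* κ := (IsLocalRing.residue W).comp i
  have hf : ∀ a : O, f a = 0 ↔ w (algebraMap P L' (a : P)) < 1 := by
    intro a
    change IsLocalRing.residue W (i a) = 0 ↔ _
    rw [IsLocalRing.residue_eq_zero_iff, Valuation.mem_maximalIdeal_iff, hi]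
  haveI : IsLocalHom f := by
    refine ⟨fun a ha => ?_⟩
    have h1 : w (algebraMap P L' (a : P)) = 1 := by
      refine le_antisymm a.2 (not_lt.1 fun h => ?_)
      rw [(hf a).2 h] at ha
      exact not_isUnit_zero ha
    have h0 : (a : P) ≠ 0 := by
      intro h0
      rw [h0, map_zero, map_zero] at h1
      exact zero_ne_one h1
    refine ⟨⟨a, ⟨(a : P)⁻¹, ?_⟩, Subtype.ext (mul_inv_cancel₀ h0),
      Subtype.ext (inv_mul_cancel₀ h0)⟩, rfl⟩
    show w (algebraMap P L' (a : P)⁻¹) ≤ 1
    rw [map_inv₀, map_inv₀, h1, inv_one]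
  let F := IsLocalRing.ResidueField O
  let φ : F →+* κ := IsLocalRing.ResidueField.lift f
  have hφ : ∀ a : O, φ (IsLocalRing.residue O a) = f a := fun a =>
    IsLocalRing.ResidueField.lift_residue_apply f a
  letI : Algebra F κ := φ.toAlgebra
  have hev : ∀ (z : W) (q : O[X]), Polynomial.aeval (IsLocalRing.residue W z)
      (q.map (IsLocalRing.residue O)) = IsLocalRing.residue W (Polynomial.eval₂ i z q) := by
    intro z q
    rw [Polynomial.hom_eval₂, Polynomial.aeval_def, Polynomial.eval₂_map]
    congr 1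
  have hevL : ∀ (z : W) (q : O[X]), ((Polynomial.eval₂ i z q : W) : L') =
      Polynomial.aeval (z : L') (q.map (algebraMap O P)) := by
    intro z q
    have h1 := Polynomial.hom_eval₂ q i W.subtype z
    have h2 : Polynomial.aeval (z : L') (q.map (algebraMap O P)) =
        Polynomial.eval₂ ((algebraMap P L').comp (algebraMap O P)) (z : L') q := by
      rw [Polynomial.aeval_def, Polynomial.eval₂_map]
    rw [h2]
    exact h1
  set xW : W := ⟨x, hx1.le⟩ with hxW
  set yW : W := ⟨y, hy1⟩ with hyW
  set eO : O := ⟨e, he⟩ with heO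
  have htx : Transcendental F (IsLocalRing.residue W xW) := by
    rw [transcendental_iff]
    intro q hq
    by_contra hq0
    obtain ⟨q₀, rfl⟩ := Polynomial.map_surjective _ IsLocalRing.residue_surjective q
    rw [hev, IsLocalRing.residue_eq_zero_iff, Valuation.mem_maximalIdeal_iff, hevL] at hq
    obtain ⟨n, hn⟩ : ∃ n, (q₀.map (IsLocalRing.residue O)).coeff n ≠ 0 := by
      by_contra hcon
      push Not at hcon
      exact hq0 (Polynomial.ext fun n => by rw [hcon n, Polynomial.coeff_zero])
    refine absurd hq (not_lt.2 (hG _ (fun n => ?_) ⟨n, ?_⟩).ge)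
    · rw [Polynomial.coeff_map]
      exact (q₀.coeff n).2
    · rw [Polynomial.coeff_map]
      rw [Polynomial.coeff_map] at hn
      refine le_antisymm (q₀.coeff n).2 (not_lt.1 fun h => hn ?_)
      rw [IsLocalRing.residue_eq_zero_iff, Valuation.mem_maximalIdeal_iff]
      exact h
  have hty : Transcendental F (IsLocalRing.residue W yW) := by
    intro halg
    apply htx
    have h1 : IsLocalRing.residue W xW = (IsLocalRing.residue W yW) ^ r +
        algebraMap F κ (IsLocalRing.residue O eO) := by
      have h2 : xW = yW ^ r + i eO := by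
        apply Subtype.ext
        change x = y ^ r + algebraMap P L' e
        rw [hy, sub_add_cancel]
      rw [h2, map_add, map_pow]
      congr 1
    rw [h1]
    exact (halg.pow r).add (isAlgebraic_algebraMap _)
  -- lift `p`
  have hlift : ∃ q : O[X], q.map (algebraMap O P) = p := by
    have h1 : p ∈ Polynomial.lifts (algebraMap O P) := by
      rw [Polynomial.lifts_iff_coeff_lifts]
      intro n
      exact ⟨⟨p.coeff n, hp n⟩, rfl⟩
    exact (Polynomial.mem_lifts p).1 h1
  obtain ⟨q, rfl⟩ := hlift
  have h1 : w (Polynomial.aeval y (q.map (algebraMap O P))) ≤ 1 := by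
    have h2 := hevL yW q
    change _ = Polynomial.aeval y (q.map (algebraMap O P)) at h2
    rw [← h2]
    exact (Polynomial.eval₂ i yW q).2
  refine le_antisymm h1 (not_lt.1 fun h => ?_)
  have h2 := hevL yW q
  change _ = Polynomial.aeval y (q.map (algebraMap O P)) at h2
  rw [← h2] at h
  have h3 : IsLocalRing.residue W (Polynomial.eval₂ i yW q) = 0 := by
    rw [IsLocalRing.residue_eq_zero_iff, Valuation.mem_maximalIdeal_iff]
    exact h
  rw [← hev] at h3
  have h4 := (transcendental_iff.1 hty) _ h3
  obtain ⟨n, hn⟩ := hp1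
  have h5 := congrArg (fun p => Polynomial.coeff p n) h4
  simp only [Polynomial.coeff_map, Polynomial.coeff_zero] at h5
  rw [IsLocalRing.residue_eq_zero_iff, Valuation.mem_maximalIdeal_iff] at h5
  rw [Polynomial.coeff_map] at hn
  exact h5.ne hn

/-- the Gauss norm does not change under `y ↦ ζ y` -/
theorem val_scale {w : Valuation L' ℤᵐ⁰} {y : L'}
    (hG : ∀ p : P[X], (∀ n, w (algebraMap P L' (p.coeff n)) ≤ 1) →
      (∃ n, w (algebraMap P L' (p.coeff n)) = 1) → w (Polynomial.aeval y p) = 1)
    {ζ : P} (hζ : w (algebraMap P L' ζ) = 1) (p : P[X]) :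
    w (Polynomial.aeval (algebraMap P L' ζ * y) p) = w (Polynomial.aeval y p) := by
  classical
  rcases eq_or_ne p 0 with rfl | hp0
  · simp
  obtain ⟨n₀, hn₀, hmax⟩ := Finset.exists_max_image p.support
    (fun n => w (algebraMap P L' (p.coeff n))) (Polynomial.support_nonempty.2 hp0)
  set c := p.coeff n₀ with hc
  have hc0 : c ≠ 0 := Polynomial.mem_support_iff.1 hn₀
  have hcL : algebraMap P L' c ≠ 0 := by simpa using hc0
  have hwc : w (algebraMap P L' c) ≠ 0 := (Valuation.ne_zero_iff w).2 hcL
  have hle : ∀ n, w (algebraMap P L' (p.coeff n)) ≤ w (algebraMap P L' c) := by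
    intro n
    by_cases hn : n ∈ p.support
    · exact hmax n hn
    · rw [Polynomial.notMem_support_iff.1 hn, map_zero, map_zero]
      exact zero_le
  set p₁ : P[X] := Polynomial.C c⁻¹ * p with hp₁
  have hp₁c : ∀ n, w (algebraMap P L' (p₁.coeff n)) =
      (w (algebraMap P L' c))⁻¹ * w (algebraMap P L' (p.coeff n)) := by
    intro n
    rw [hp₁, Polynomial.coeff_C_mul, map_mul, map_mul, map_inv₀, map_inv₀]
  have hp₁le : ∀ n, w (algebraMap P L' (p₁.coeff n)) ≤ 1 := by
    intro n
    rw [hp₁c, mul_comm, ← div_eq_mul_inv]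
    exact div_le_one_of_le₀ (hle n) zero_le
  have hp₁1 : w (algebraMap P L' (p₁.coeff n₀)) = 1 := by
    rw [hp₁c]
    exact inv_mul_cancel₀ hwc
  have e1 : p = Polynomial.C c * p₁ := by
    rw [hp₁, ← mul_assoc, ← Polynomial.C_mul, mul_inv_cancel₀ hc0, Polynomial.C_1, one_mul]
  have h1 := hG p₁ hp₁le ⟨n₀, hp₁1⟩
  have h2 : w (Polynomial.aeval (algebraMap P L' ζ * y) p₁) = 1 := by
    have h3 : Polynomial.aeval (algebraMap P L' ζ * y) p₁ =
        Polynomial.aeval y (p₁.comp (Polynomial.C ζ * Polynomial.X)) := by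
      have h30 : Polynomial.aeval y (Polynomial.C ζ * Polynomial.X : P[X]) =
          algebraMap P L' ζ * y := by
        rw [map_mul, Polynomial.aeval_C, Polynomial.aeval_X]
      rw [Polynomial.aeval_comp, h30]
    have h4 : ∀ n, w (algebraMap P L' ((p₁.comp (Polynomial.C ζ * Polynomial.X)).coeff n)) =
        w (algebraMap P L' (p₁.coeff n)) := by
      intro n
      rw [Polynomial.comp_C_mul_X_coeff, map_mul, map_mul, map_pow, map_pow, hζ, one_pow, mul_one]
    rw [h3]
    exact hG _ (fun n => by rw [h4]; exact hp₁le n) ⟨n₀, by rw [h4]; exact hp₁1⟩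
  have h5 : ∀ z : L', w (Polynomial.aeval z p) =
      w (algebraMap P L' c) * w (Polynomial.aeval z p₁) := by
    intro z
    rw [← map_mul, ← Polynomial.aeval_C (A := L') z c, ← map_mul (Polynomial.aeval z), ← e1]
  rw [h5, h5, h1, h2]

end gauss

end B1Aux

open B1Aux

section B

variable {k P K L L' : Type*} [Field k] [CharZero k] [IsAlgClosed k] [Field P] [Field K] [Field L]
  [Field L'] [Algebra k P] [Algebra P K] [Algebra K L] [Algebra P L] [IsScalarTower P K L]
  [Algebra L L'] [Algebra K L'] [Algebra P L'] [IsScalarTower K L L'] [IsScalarTower P K L']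
  [IsScalarTower P L L']

/-- (B1) the extension of the Gauss valuation -/
theorem exists_ext [FiniteDimensional K L] [IsGalois K L] [FiniteDimensional K L'] [IsGalois K L']
    {x : K} (hx : Transcendental P x) (hK : ∀ z : K, z ∈ IntermediateField.adjoin P {x})
    {w₀ : Valuation L ℤᵐ⁰} (hn : ∀ n : ℕ, n ≠ 0 → w₀ (n : L) = 1)
    (hnt : ∃ a : P, a ≠ 0 ∧ w₀ (algebraMap P L a) ≠ 1)
    (hG : ∀ p : P[X], (∀ n, w₀ (algebraMap P L (p.coeff n)) ≤ 1) →
      (∃ n, w₀ (algebraMap P L (p.coeff n)) = 1) → w₀ (algebraMap K L (Polynomial.aeval x p)) = 1)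
    (hI : NoInert K w₀)
    {e : P} (he : w₀ (algebraMap P L e) ≤ 1) {r : ℕ} (hr : 0 < r)
    (hζ : ∀ ζ : L', ζ ^ r = 1 → ∃ c : P, algebraMap P L' c = ζ) {y : L'}
    (hy : y ^ r = algebraMap K L' (x - algebraMap P K e))
    (hL' : ∀ z : L', z ∈ IntermediateField.adjoin L {y}) :
    ∃ w : Valuation L' ℤᵐ⁰, (∀ z : L, w (algebraMap L L' z) ≤ 1 ↔ w₀ z ≤ 1) ∧
      (∀ p : P[X], (∀ n, w (algebraMap P L' (p.coeff n)) ≤ 1) →
        (∃ n, w (algebraMap P L' (p.coeff n)) = 1) → w (Polynomial.aeval y p) = 1) ∧
      NoInert (IntermediateField.adjoin K {y}) w ∧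
      ∀ c : L', (∀ ρ : L' ≃ₐ[IntermediateField.adjoin K {y}] L', w (ρ c) < 1) →
        ∀ δ : L' ≃ₐ[K] L', w (δ c) < 1 := by
  classical
  haveI : FiniteDimensional L L' := Module.Finite.of_restrictScalars_finite K L L'
  haveI : Algebra.IsSeparable L L' := Algebra.isSeparable_tower_top_of_isSeparable K L L'
  obtain ⟨w, hw⟩ := exists_extension (L := L') w₀ (by
    obtain ⟨a, ha0, ha⟩ := hnt
    exact ⟨algebraMap P L a, by simpa using ha0, ha⟩)
  have heqv : (w.comap (algebraMap L L')).IsEquiv w₀ :=
    Valuation.isEquiv_iff_val_le_one.2 (fun {z} => hw z)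
  have hlt : ∀ z : L, w (algebraMap L L' z) < 1 ↔ w₀ z < 1 := fun z =>
    heqv.lt_one_iff_lt_one
  have heq1 : ∀ z : L, w (algebraMap L L' z) = 1 ↔ w₀ z = 1 := fun z =>
    Valuation.isEquiv_iff_val_eq_one.1 heqv
  have hPL : ∀ a : P, algebraMap P L' a = algebraMap L L' (algebraMap P L a) := fun a =>
    IsScalarTower.algebraMap_apply P L L' a
  have hKL : ∀ a : K, algebraMap K L' a = algebraMap L L' (algebraMap K L a) := fun a =>
    IsScalarTower.algebraMap_apply K L L' a
  -- the Gauss property
  have hGx : ∀ p : P[X], (∀ n, w (algebraMap P L' (p.coeff n)) ≤ 1) →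
      (∃ n, w (algebraMap P L' (p.coeff n)) = 1) →
      w (Polynomial.aeval (algebraMap K L' x) p) = 1 := by
    intro p h1 h2
    have h3 : Polynomial.aeval (algebraMap K L' x) p =
        algebraMap L L' (algebraMap K L (Polynomial.aeval x p)) := by
      rw [← hKL, Polynomial.aeval_algebraMap_apply]
    rw [h3, heq1]
    refine hG p (fun n => ?_) ?_
    · rw [← hw, ← hPL]
      exact h1 n
    · obtain ⟨n, hn⟩ := h2
      refine ⟨n, ?_⟩
      rw [← heq1, ← hPL]
      exact hn
  have hGy : ∀ p : P[X], (∀ n, w (algebraMap P L' (p.coeff n)) ≤ 1) →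
      (∃ n, w (algebraMap P L' (p.coeff n)) = 1) → w (Polynomial.aeval y p) = 1 := by
    intro p h1 h2
    refine gauss_pow hGx (e := e) ?_ hr ?_ p h1 h2
    · rw [hPL, hw]
      exact he
    · rw [hy, map_sub, ← IsScalarTower.algebraMap_apply P K L']
  refine ⟨w, hw, hGy, ?_, ?_⟩
  · -- inertia
    intro g hg
    let g' : L' ≃ₐ[K] L' := g.restrictScalars K
    have hg' : ∀ z, g' z = g z := fun _ => rfl
    have h1 : g'.restrictNormal L = 1 := by
      refine hI _ fun z hz => ?_
      rw [← hlt, map_sub, AlgEquiv.restrictNormal_commutes, hg']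
      exact hg _ ((hw z).2 hz)
    have hgL : ∀ z : L, g (algebraMap L L' z) = algebraMap L L' z := by
      intro z
      have h2 := AlgEquiv.restrictNormal_commutes g' L z
      rw [h1] at h2
      exact h2.symm
    have hgy : g y = y := by
      have h2 := g.commutes ⟨y, IntermediateField.mem_adjoin_simple_self K y⟩
      exact h2
    ext z
    rw [AlgEquiv.one_apply]
    let gL : L' →ₐ[L] L' := { (g : L' →+* L') with commutes' := hgL }
    have h3 : IntermediateField.adjoin L {y} ≤ AlgHom.fieldRange gL ⊓ ⊤ ∨ True := Or.inr trivial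
    have h4 : ∀ z ∈ IntermediateField.adjoin L {y}, g z = z := by
      intro z hz
      induction hz using IntermediateField.adjoin_induction with
      | mem z hz =>
        rw [Set.mem_singleton_iff] at hz
        rw [hz]
        exact hgy
      | algebraMap z => exact hgL z
      | add a b _ _ ha hb => rw [map_add, ha, hb]
      | inv a _ ha => rw [map_inv₀, ha]
      | mul a b _ _ ha hb => rw [map_mul, ha, hb]
    exact h4 z (hL' z)
  · -- conjugates
    intro c hc δ
    -- `K(y) = P(y)`
    have hy0 : y ≠ 0 := by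
      rintro rfl
      rw [zero_pow hr.ne'] at hy
      have h1 := (map_eq_zero (algebraMap K L')).1 hy.symm
      rw [sub_eq_zero] at h1
      rw [h1] at hx
      exact hx (isAlgebraic_algebraMap e)
    obtain ⟨ζ, hζ1, hζe⟩ : ∃ ζ : P, w (algebraMap P L' ζ) = 1 ∧ δ y = algebraMap P L' ζ * y := by
      have h1 : (δ y / y) ^ r = 1 := by
        rw [div_pow, ← map_pow, hy, AlgEquiv.commutes, div_self]
        rw [← hy]
        exact pow_ne_zero r hy0
      obtain ⟨ζ, hζ'⟩ := hζ _ h1
      refine ⟨ζ, ?_, ?_⟩
      · have h2 : w (algebraMap P L' ζ) ^ r = 1 := by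
          rw [hζ', ← map_pow, h1, map_one]
        exact (pow_eq_one_iff_of_nonneg zero_le hr.ne').1 h2
      · rw [hζ', div_mul_cancel₀ _ hy0]
    have hKy : ∀ z : L', z ∈ IntermediateField.adjoin K {y} →
        z ∈ IntermediateField.adjoin P {y} := by
      intro z hz
      have hx' : algebraMap K L' x ∈ IntermediateField.adjoin P {y} := by
        have h1 : algebraMap K L' x = y ^ r + algebraMap P L' e := by
          rw [hy, map_sub, ← IsScalarTower.algebraMap_apply P K L', sub_add_cancel]
        rw [h1]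
        exact add_mem (pow_mem (IntermediateField.mem_adjoin_simple_self P y) r)
          (IntermediateField.algebraMap_mem _ e)
      have hK' : ∀ a : K, algebraMap K L' a ∈ IntermediateField.adjoin P {y} := by
        intro a
        have h1 : IntermediateField.adjoin P {x} ≤
            (IntermediateField.adjoin P {y}).comap (IsScalarTower.toAlgHom P K L') := by
          rw [IntermediateField.adjoin_le_iff, Set.singleton_subset_iff]
          exact hx'
        exact h1 (hK a)
      induction hz using IntermediateField.adjoin_induction with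
      | mem z hz =>
        rw [Set.mem_singleton_iff] at hz
        rw [hz]
        exact IntermediateField.mem_adjoin_simple_self P y
      | algebraMap z => exact hK' z
      | add a b _ _ ha hb => exact add_mem ha hb
      | inv a _ ha => exact inv_mem ha
      | mul a b _ _ ha hb => exact mul_mem ha hb
    have hval : ∀ z ∈ IntermediateField.adjoin K {y}, w (δ z) = w z := by
      intro z hz
      have h1 := hKy z hz
      rw [IntermediateField.mem_adjoin_simple_iff] at h1
      obtain ⟨p, q, rfl⟩ := h1
      have h2 : ∀ p : P[X], δ (Polynomial.aeval y p) =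
          Polynomial.aeval (algebraMap P L' ζ * y) p := by
        intro p
        rw [← hζe]
        exact (Polynomial.aeval_algHom_apply ((δ : L' →ₐ[K] L').restrictScalars P) y p).symm
      rw [map_div₀, map_div₀, map_div₀, h2, h2, val_scale hGy hζ1, val_scale hGy hζ1]
    obtain ⟨σ, hσ⟩ := Br.exists_conj (Z := IntermediateField.adjoin K {y}) (P := L') (w := w)
      (w' := w.comap (δ : L' →+* L')) (fun z => by
        rw [Valuation.comap_apply]
        change w (z : L') ≤ 1 ↔ w (δ (z : L')) ≤ 1
        rw [hval z z.2])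
    have h5 : (w.comap (σ : L' →+* L')).IsEquiv (w.comap (δ : L' →+* L')) :=
      Valuation.isEquiv_iff_val_le_one.2 (fun {z} => hσ z)
    exact (Valuation.isEquiv_iff_val_lt_one.1 h5).1 (hc σ)

end B

end Pf72953.Ug
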