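import Mathlib
import Pool.Agent.Lib.Pf72953x.Defs

/-!
Uniqueness of the place over the Gauss valuation: the numerator of the idempotent.
-/

set_option autoImplicit false
set_option linter.style.haveILetI false

open scoped WithZero Polynomial
open Pf72953

namespace Pf72953.Ug

theorem eval₂_div {A B : Type*} [CommRing A] [Field B] (φ : A →+* B) (F : A[X]) (f g : A)
    (hg : φ g ≠ 0) : φ g ^ F.natDegree * F.eval₂ φ (φ f / φ g) =
      φ (∑ i ∈ Finset.range (F.natDegree + 1), F.coeff i * f ^ i * g ^ (F.natDegree - i)) := by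
  rw [Polynomial.eval₂_eq_sum_range, Finset.mul_sum, map_sum]
  refine Finset.sum_congr rfl fun i hi => ?_
  have hi' : i ≤ F.natDegree := Nat.lt_succ_iff.1 (Finset.mem_range.1 hi)
  have h1 : φ g ^ F.natDegree = φ g ^ (F.natDegree - i) * φ g ^ i := by
    rw [← pow_add, Nat.sub_add_cancel hi']
  rw [h1, map_mul, map_mul, map_pow, map_pow, div_pow]
  field_simp

/-- polynomials over a ring on which `w ≤ 1` are continuous -/
theorem eval₂_sub_le {A L : Type*} [CommRing A] [Field L] [Algebra A L] {w : Valuation L ℤᵐ⁰}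
    (hw : ∀ f : A, w (algebraMap A L f) ≤ 1) (F : A[X]) {a b : L} (ha : w a ≤ 1) (hb : w b ≤ 1) :
    w (F.eval₂ (algebraMap A L) a - F.eval₂ (algebraMap A L) b) ≤ w (a - b) := by
  let R := w.valuationSubring
  let φ : A →+* R :=
    { toFun := fun f => ⟨algebraMap A L f, hw f⟩
      map_one' := Subtype.ext (map_one _)
      map_mul' := fun a b => Subtype.ext (map_mul _ _ _)
      map_zero' := Subtype.ext (map_zero _)
      map_add' := fun a b => Subtype.ext (map_add _ _ _) }
  have hφ : R.subtype.comp φ = algebraMap A L := rfl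
  obtain ⟨q, hq⟩ := Polynomial.sub_dvd_eval_sub (⟨a, ha⟩ : R) ⟨b, hb⟩ (F.map φ)
  have h1 : ∀ c : R, R.subtype ((F.map φ).eval c) = F.eval₂ (algebraMap A L) (c : L) := by
    intro c
    rw [Polynomial.eval_map, ← hφ]
    exact Polynomial.hom_eval₂ F φ R.subtype c
  have h2 := congrArg R.subtype hq
  rw [map_sub, map_mul, h1, h1] at h2
  have h3 : R.subtype ((⟨a, ha⟩ : R) - ⟨b, hb⟩) = a - b := rfl
  rw [h3] at h2
  rw [h2, map_mul]
  exact mul_le_of_le_one_right' q.2

section num

variable {A K L : Type*} [CommRing A] [IsDomain A] [UniqueFactorizationMonoid A]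
  [Field K] [Algebra A K] [IsFractionRing A K]
  [Field L] [Algebra K L] [Algebra A L] [IsScalarTower A K L]

/-- an element of `K` congruent to an integral element is congruent to an element of `A` -/
theorem exists_approx {p : A} [IsPrincipalIdealRing (A ⧸ Ideal.span {p})] (hp : Prime p)
    {w : Valuation L ℤᵐ⁰} (hw : Pur.OverPrime w p) {t : K} {N : L} (hN : IsIntegral A N)
    (h : w (algebraMap K L t - N) < 1) : ∃ c : A, w (algebraMap K L t - algebraMap A L c) < 1 := by
  classical
  have hinj := Pur.algebraMap_inj A K L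
  have hp0 : 0 < w (algebraMap A L p) := zero_lt_iff.2 (Pur.val_q_ne_zero hinj hp w)
  have hwN : w N ≤ 1 := Pur.le_one_of_isIntegral hw.le_one hN
  have hwt : w (algebraMap K L t) ≤ 1 := by
    have h1 : algebraMap K L t = (algebraMap K L t - N) + N := by ring
    rw [h1]
    exact (w.map_add _ _).trans (max_le h.le hwN)
  -- write `t = f / g`, `p` does not divide `g`
  obtain ⟨f, g, hg, htfg⟩ : ∃ f g : A, ¬ p ∣ g ∧ algebraMap K L t * algebraMap A L g = algebraMap A L f := by
    obtain ⟨f, g, hg, rfl⟩ := IsFractionRing.div_surjective (A := A) t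
    have hg0 : g ≠ 0 := nonZeroDivisors.ne_zero hg
    obtain ⟨n, g', hg', hgg, hwg⟩ := Pur.exists_val hp hw hg0
    have hgL : algebraMap A L g ≠ 0 := fun h => hg0 (hinj (by rw [h, map_zero]))
    have h1 : algebraMap K L (algebraMap A K f / algebraMap A K g) =
        algebraMap A L f / algebraMap A L g := by
      rw [map_div₀, ← IsScalarTower.algebraMap_apply, ← IsScalarTower.algebraMap_apply]
    rw [h1] at hwt ⊢
    have h2 : w (algebraMap A L f) ≤ w (algebraMap A L p) ^ n := by
      rw [map_div₀, div_le_one₀ (zero_lt_iff.2 ((Valuation.ne_zero_iff w).2 hgL)), hwg] at hwt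
      exact hwt
    obtain ⟨f', rfl⟩ := (Pur.pow_dvd_iff hinj hp hw).2 h2
    refine ⟨f', g', hg', ?_⟩
    rw [hgg, map_mul, map_mul, map_pow]
    have h3 : algebraMap A L p ≠ 0 := fun h => hp.ne_zero (hinj (by rw [h, map_zero]))
    have h4 : algebraMap A L g' ≠ 0 := fun h => hgL (by rw [hgg, map_mul, h, mul_zero])
    field_simp
  have hwg : w (algebraMap A L g) = 1 :=
    le_antisymm (hw.le_one g) (not_lt.1 fun h => hg ((hw.lt_one g).1 h))
  have hgL : algebraMap A L g ≠ 0 := (Valuation.ne_zero_iff w).1 (by rw [hwg]; exact one_ne_zero)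
  have htd : algebraMap K L t = algebraMap A L f / algebraMap A L g := by
    rw [eq_div_iff hgL, htfg]
  -- the equation
  obtain ⟨F, hF, hFN⟩ := hN
  have hFt : w (F.eval₂ (algebraMap A L) (algebraMap K L t)) < 1 := by
    have h1 := (eval₂_sub_le hw.le_one F hwt hwN).trans_lt h
    rwa [hFN, sub_zero] at h1
  set G : A := ∑ i ∈ Finset.range (F.natDegree + 1), F.coeff i * f ^ i * g ^ (F.natDegree - i) with hGdef
  have hG : p ∣ G := by
    rw [← hw.lt_one, ← eval₂_div (algebraMap A L) F f g hgL, map_mul, map_pow, hwg, one_pow,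
      one_mul, ← htd]
    exact hFt
  -- modulo `p`
  set I : Ideal A := Ideal.span {p} with hI
  haveI : I.IsPrime := (Ideal.span_singleton_prime hp.ne_zero).2 hp
  have hmk : ∀ a : A, Ideal.Quotient.mk I a = 0 ↔ p ∣ a := fun a => by
    rw [Ideal.Quotient.eq_zero_iff_mem, hI, Ideal.mem_span_singleton]
  let Q := FractionRing (A ⧸ I)
  let φ : A →+* Q := (algebraMap (A ⧸ I) Q).comp (Ideal.Quotient.mk I)
  have hφ : ∀ a : A, φ a = 0 ↔ p ∣ a := by
    intro a
    rw [← hmk]
    exact map_eq_zero_iff (algebraMap (A ⧸ I) Q) (IsFractionRing.injective (A ⧸ I) Q)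
  have hφg : φ g ≠ 0 := fun h => hg ((hφ g).1 h)
  have hroot : F.eval₂ φ (φ f / φ g) = 0 := by
    have h1 := eval₂_div φ F f g hφg
    rw [← hGdef, (hφ G).2 hG] at h1
    exact (mul_eq_zero.1 h1).resolve_left (pow_ne_zero _ hφg)
  have hint : IsIntegral (A ⧸ I) (φ f / φ g) := by
    refine ⟨F.map (Ideal.Quotient.mk I), hF.map _, ?_⟩
    rw [Polynomial.eval₂_map]
    exact hroot
  haveI : IsDomain (A ⧸ I) := Ideal.Quotient.isDomain I
  obtain ⟨c, hc⟩ := IsIntegrallyClosed.algebraMap_eq_of_integral hint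
  obtain ⟨c, rfl⟩ := Ideal.Quotient.mk_surjective c
  have hdvd : p ∣ f - c * g := by
    rw [← hφ, map_sub, map_mul, sub_eq_zero]
    have h1 : φ c = φ f / φ g := hc
    rw [h1, div_mul_cancel₀ _ hφg]
  refine ⟨c, ?_⟩
  have h1 : algebraMap K L t - algebraMap A L c =
      algebraMap A L (f - c * g) / algebraMap A L g := by
    rw [htd, map_sub, map_mul]
    field_simp
  rw [h1, map_div₀, hwg, div_one]
  exact (hw.lt_one _).2 hdvd

end num

/-- the numerator: `d` is the discriminant of a frame of the integral closure -/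
theorem exists_num {A K L : Type*} [CommRing A] [IsDomain A] [UniqueFactorizationMonoid A]
    [IsNoetherianRing A] [Field K] [Algebra A K] [IsFractionRing A K] [Field L] [Algebra K L]
    [Algebra A L] [IsScalarTower A K L] [FiniteDimensional K L] [IsGalois K L] {p : A}
    [IsPrincipalIdealRing (A ⧸ Ideal.span {p})] (hp : Prime p) {w : Valuation L ℤᵐ⁰}
    (hw : Pur.OverPrime w p) (hI : NoInert K w) {z : L}
    (hz : ∀ σ : L ≃ₐ[K] L, w (σ z) < 1 ∨ w (σ z - 1) < 1) :
    ∃ (d a₀ : A) (b : L), IsIntegral A b ∧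
      (∀ σ : L ≃ₐ[K] L, w (σ (b - algebraMap A L d * z)) < 1) ∧ ¬ p ∣ d ∧ p ∣ a₀ - 1 ∧
      ∀ q : A, Prime q → q ∣ d → ¬ q ∣ a₀ → ∀ w' : Valuation L ℤᵐ⁰, Pur.OverPrime w' q →
        ¬ NoInert K w' := by
  classical
  have hinj := Pur.algebraMap_inj A K L
  have hp0 : w (algebraMap A L p) ≠ 0 := Pur.val_q_ne_zero hinj hp w
  have hp1 : w (algebraMap A L p) < 1 := (hw.lt_one p).2 dvd_rfl
  obtain ⟨s, α, a₀, hs, ha₀, hgen, -⟩ :=
    Pur.exists_frame (A := A) (K := K) (L := L) (ρ := w (algebraMap A L p)) (r := 1) hp hw hp1 hp0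
      one_pos (pow_one _)
  have hsi : ∀ j, IsIntegral A (s j) := fun j => (hs j).1
  set M : Matrix (L ≃ₐ[K] L) (L ≃ₐ[K] L) L := Matrix.of fun (σ j : L ≃ₐ[K] L) => σ (s j) with hM
  obtain ⟨d, hd⟩ := Pur.det_sq_mem (A := A) (K := K) (s := s) hsi
  rw [← hM] at hd
  have ha₀0 : a₀ ≠ 0 := by
    rintro rfl
    rw [zero_sub, dvd_neg] at ha₀
    exact hp.not_isUnit (isUnit_of_dvd_one ha₀)
  -- the coordinates
  obtain ⟨c, hc⟩ : ∃ c : (L ≃ₐ[K] L) → K, z = ∑ j, algebraMap K L (c j) * s j := by
    obtain ⟨e, he0, he⟩ := (show IsAlgebraic A z from (IsFractionRing.isAlgebraic_iff A K L).2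
        (Algebra.IsAlgebraic.isAlgebraic z)).exists_integral_multiple
    obtain ⟨f, hf⟩ := hgen _ he
    have h1 : algebraMap A L (a₀ * e) ≠ 0 := fun h => mul_ne_zero ha₀0 he0
      (hinj (by rw [h, map_zero]))
    refine ⟨fun j => algebraMap A K (f j) / algebraMap A K (a₀ * e), ?_⟩
    have h2 : ∀ j, algebraMap K L (algebraMap A K (f j) / algebraMap A K (a₀ * e)) * s j =
        (algebraMap A L (a₀ * e))⁻¹ * (f j • s j) := by
      intro j
      rw [map_div₀, ← IsScalarTower.algebraMap_apply, ← IsScalarTower.algebraMap_apply,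
        Algebra.smul_def]
      ring
    rw [Finset.sum_congr rfl fun j _ => h2 j, ← Finset.mul_sum, ← hf, Algebra.smul_def,
      Algebra.smul_def, ← mul_assoc (algebraMap A L a₀), ← map_mul, inv_mul_cancel_left₀ h1]
  have hMc : M.mulVec (fun j => algebraMap K L (c j)) = fun σ => σ z := by
    funext σ
    rw [hc, map_sum]
    refine Finset.sum_congr rfl fun j _ => ?_
    rw [map_mul, AlgEquiv.commutes, mul_comm]
    rfl
  have hadj : ∀ j, M.det * algebraMap K L (c j) = ∑ σ, M.adjugate j σ * σ z := by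
    intro j
    have h1 : M.adjugate.mulVec (fun σ : L ≃ₐ[K] L => σ z) =
        M.det • fun j => algebraMap K L (c j) := by
      rw [← hMc, Matrix.mulVec_mulVec, Matrix.adjugate_mul, Matrix.smul_mulVec, Matrix.one_mulVec]
    have h2 := congrFun h1 j
    rw [Pi.smul_apply, smul_eq_mul] at h2
    rw [← h2]
    rfl
  have ht : ∀ j, algebraMap K L (algebraMap A K d * c j) =
      ∑ σ, (M.det * M.adjugate j σ) * σ z := by
    intro j
    rw [map_mul, ← IsScalarTower.algebraMap_apply, hd, pow_two, mul_assoc, hadj, Finset.mul_sum]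
    exact Finset.sum_congr rfl fun σ _ => by ring
  -- integrality
  have hσs : ∀ σ j : L ≃ₐ[K] L, IsIntegral A (M σ j) := fun σ j =>
    (hsi j).map (σ.restrictScalars A)
  have hdet : ∀ N : Matrix (L ≃ₐ[K] L) (L ≃ₐ[K] L) L, (∀ i j, IsIntegral A (N i j)) →
      IsIntegral A N.det := by
    intro N hN
    rw [Matrix.det_apply]
    refine IsIntegral.sum _ fun σ _ => ?_
    rw [Units.smul_def, zsmul_eq_mul]
    refine IsIntegral.mul ?_ (IsIntegral.prod _ fun i _ => hN _ _)
    rw [← map_intCast (algebraMap A L)]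
    exact isIntegral_algebraMap
  have hadji : ∀ j σ, IsIntegral A (M.adjugate j σ) := by
    intro j σ
    rw [Matrix.adjugate_apply]
    refine hdet _ fun i l => ?_
    by_cases hi : i = σ
    · subst hi
      rw [Matrix.updateRow_self, Pi.single_apply]
      split_ifs
      · exact isIntegral_one
      · exact isIntegral_zero
    · rw [Matrix.updateRow_ne hi]
      exact hσs i l
  have hle : ∀ {b : L}, IsIntegral A b → w b ≤ 1 := fun hb =>
    Pur.le_one_of_isIntegral hw.le_one hb
  -- approximation of the coordinates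
  have hcc : ∀ j, ∃ c' : A, w (algebraMap K L (algebraMap A K d * c j) - algebraMap A L c') < 1 := by
    intro j
    refine exists_approx hp hw (N := ∑ σ ∈ Finset.univ.filter (fun σ : L ≃ₐ[K] L => ¬ w (σ z) < 1),
      M.det * M.adjugate j σ) (IsIntegral.sum _ fun σ _ => (hdet M hσs).mul (hadji j σ)) ?_
    rw [ht, ← Finset.sum_filter_add_sum_filter_not Finset.univ
      (fun σ : L ≃ₐ[K] L => ¬ w (σ z) < 1), add_sub_right_comm, ← Finset.sum_sub_distrib]
    refine Valuation.map_add_lt w ?_ ?_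
    · refine Valuation.map_sum_lt w one_ne_zero fun σ hσ => ?_
      rw [Finset.mem_filter] at hσ
      have h1 : M.det * M.adjugate j σ * σ z - M.det * M.adjugate j σ =
          M.det * M.adjugate j σ * (σ z - 1) := by ring
      rw [h1, map_mul]
      exact (mul_le_of_le_one_left' (hle ((hdet M hσs).mul (hadji j σ)))).trans_lt
        ((hz σ).resolve_left hσ.2)
    · refine Valuation.map_sum_lt w one_ne_zero fun σ hσ => ?_
      rw [Finset.mem_filter, not_not] at hσ
      rw [map_mul]
      exact (mul_le_of_le_one_left' (hle ((hdet M hσs).mul (hadji j σ)))).trans_lt hσ.2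
  choose c' hc' using hcc
  have hpa₀ : ¬ p ∣ a₀ := fun h => hp.not_isUnit (isUnit_of_dvd_one
    ((dvd_sub_right h).1 ha₀))
  refine ⟨d, a₀, ∑ j, algebraMap A L (c' j) * s j, IsIntegral.sum _ fun j _ =>
    isIntegral_algebraMap.mul (hsi j), fun σ => ?_, fun h => ?_, ha₀, fun q hq hqd hqa w' hw' hI' => ?_⟩
  · have h1 : ∑ j, algebraMap A L (c' j) * s j - algebraMap A L d * z =
        ∑ j, -(algebraMap K L (algebraMap A K d * c j) - algebraMap A L (c' j)) * s j := by
      rw [hc, Finset.mul_sum, ← Finset.sum_sub_distrib]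
      refine Finset.sum_congr rfl fun j _ => ?_
      rw [map_mul, ← IsScalarTower.algebraMap_apply]
      ring
    rw [h1, map_sum]
    refine Valuation.map_sum_lt w one_ne_zero fun j _ => ?_
    have h2 : σ (-(algebraMap K L (algebraMap A K d * c j) - algebraMap A L (c' j)) * s j) =
        -(algebraMap K L (algebraMap A K d * c j) - algebraMap A L (c' j)) * M σ j := by
      rw [map_mul, map_neg, map_sub, AlgEquiv.commutes, Pur.sigma_A]
      rfl
    rw [h2, map_mul, Valuation.map_neg]
    exact (mul_le_of_le_one_right' (hle (hσs σ j))).trans_lt (hc' j)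
  · refine Pur.det_unit hp hw hI hsi hpa₀ hgen ?_
    have h1 := (hw.lt_one d).2 h
    rw [hd, map_pow] at h1
    by_contra h2
    rw [not_lt] at h2
    exact absurd h1 (not_lt.2 (one_le_pow₀ h2))
  · refine Pur.det_unit hq hw' hI' hsi hqa hgen ?_
    have h1 := (hw'.lt_one d).2 hqd
    rw [hd, map_pow] at h1
    by_contra h2
    rw [not_lt] at h2
    exact absurd h1 (not_lt.2 (one_le_pow₀ h2))

end Pf72953.Ug
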