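import Mathlib
import Pool.Agent.Lib.Pf72953x.Num

/-!
Uniqueness of the place over the Gauss valuation: the numerator over `O_v[y]`.
-/

set_option autoImplicit false
set_option linter.style.haveILetI false

open scoped WithZero Polynomial
open Pf72953

namespace Pf72953.Ug

section basic

variable {P L : Type*} [Field P] [Field L] [Algebra P L] {v : Valuation P ℤᵐ⁰} {w : Valuation L ℤᵐ⁰}

theorem ev_apply (y : L) (f : (v.valuationSubring)[X]) :
    ev v y f = Polynomial.aeval y (f.map (algebraMap v.valuationSubring P)) := rfl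

theorem ev_C (y : L) (a : v.valuationSubring) : ev v y (Polynomial.C a) = algebraMap P L a := by
  rw [ev_apply, Polynomial.map_C, Polynomial.aeval_C]
  rfl

theorem ev_X (y : L) : ev v y Polynomial.X = y := by
  rw [ev_apply, Polynomial.map_X, Polynomial.aeval_X]

theorem ev_le_one (hvw : ∀ a : P, v a ≤ 1 ↔ w (algebraMap P L a) ≤ 1) {y : L} (hy : w y ≤ 1)
    (f : (v.valuationSubring)[X]) : w (ev v y f) ≤ 1 := by
  rw [ev_apply, Polynomial.aeval_eq_sum_range]
  refine Valuation.map_sum_le w fun i _ => ?_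
  rw [Algebra.smul_def, map_mul, map_pow, Polynomial.coeff_map]
  exact mul_le_one' ((hvw _).1 (f.coeff i).2) (pow_le_one' hy i)

theorem lt_iff (hvw : ∀ a : P, v a ≤ 1 ↔ w (algebraMap P L a) ≤ 1) (a : P) :
    v a < 1 ↔ w (algebraMap P L a) < 1 := by
  rcases eq_or_ne a 0 with rfl | ha
  · simp
  have h1 := hvw a⁻¹
  have h2 : 0 < v a := zero_lt_iff.2 ((Valuation.ne_zero_iff v).2 ha)
  have h3 : 0 < w (algebraMap P L a) :=
    zero_lt_iff.2 ((Valuation.ne_zero_iff w).2 ((map_ne_zero (algebraMap P L)).2 ha))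
  rw [map_inv₀, map_inv₀, map_inv₀, inv_le_one₀ h2, inv_le_one₀ h3] at h1
  rw [← not_le, ← not_le, h1]

theorem unit_iff (a : v.valuationSubring) : IsUnit a ↔ v (a : P) = 1 := by
  constructor
  · rintro ⟨b, rfl⟩
    refine le_antisymm (b : v.valuationSubring).2 ?_
    have h1 : v ((b : v.valuationSubring) : P) * v ((((b⁻¹ : (v.valuationSubring)ˣ) :
        v.valuationSubring)) : P) = 1 := by
      rw [← map_mul]
      have h2 : ((b : v.valuationSubring) : P) * (((b⁻¹ : (v.valuationSubring)ˣ) :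
          v.valuationSubring) : P) = ((1 : v.valuationSubring) : P) := by
        rw [← Units.mul_inv b]; rfl
      rw [h2]
      exact map_one v
    rw [← h1]
    exact mul_le_of_le_one_right' ((b⁻¹ : (v.valuationSubring)ˣ) : v.valuationSubring).2
  · intro h
    have h0 : (a : P) ≠ 0 := by
      intro h0
      rw [h0, map_zero] at h
      exact zero_ne_one h
    refine ⟨⟨a, ⟨(a : P)⁻¹, ?_⟩, Subtype.ext (mul_inv_cancel₀ h0),
      Subtype.ext (inv_mul_cancel₀ h0)⟩, rfl⟩
    show v (a : P)⁻¹ ≤ 1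
    rw [map_inv₀, h, inv_one]

theorem dvd_iff {π : v.valuationSubring} [IsDiscreteValuationRing v.valuationSubring]
    (hπ : Irreducible π) (a : v.valuationSubring) : π ∣ a ↔ v (a : P) < 1 := by
  rw [← Ideal.mem_span_singleton, ← hπ.maximalIdeal_eq, IsLocalRing.mem_maximalIdeal, mem_nonunits_iff,
    unit_iff]
  exact ⟨fun h => lt_of_le_of_ne a.2 h, fun h => h.ne⟩

theorem C_dvd_iff {π : v.valuationSubring} [IsDiscreteValuationRing v.valuationSubring]
    (hπ : Irreducible π) (f : (v.valuationSubring)[X]) :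
    Polynomial.C π ∣ f ↔ ∀ n, v (f.coeff n : P) < 1 := by
  rw [Polynomial.C_dvd_iff_dvd_coeff]
  exact forall_congr' fun n => dvd_iff hπ _

/-- a unit coefficient -/
theorem not_C_dvd_iff {π : v.valuationSubring} [IsDiscreteValuationRing v.valuationSubring]
    (hπ : Irreducible π) (f : (v.valuationSubring)[X]) :
    ¬ Polynomial.C π ∣ f ↔ ∃ n, v (f.coeff n : P) = 1 := by
  rw [C_dvd_iff hπ]
  push Not
  exact exists_congr fun n => ⟨fun h => le_antisymm (f.coeff n).2 h, fun h => h.ge⟩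

/-- `w` lies over the prime `π` of `O_v[y]` if it is the Gauss valuation -/
theorem lt_one_iff (hvw : ∀ a : P, v a ≤ 1 ↔ w (algebraMap P L a) ≤ 1) {y : L}
    (hG : ∀ p : P[X], (∀ n, w (algebraMap P L (p.coeff n)) ≤ 1) →
      (∃ n, w (algebraMap P L (p.coeff n)) = 1) → w (Polynomial.aeval y p) = 1)
    {π : v.valuationSubring} [IsDiscreteValuationRing v.valuationSubring]
    (hπ : Irreducible π) (f : (v.valuationSubring)[X]) :
    w (ev v y f) < 1 ↔ Polynomial.C π ∣ f := by
  have hy : w y ≤ 1 := by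
    have h1 := hG Polynomial.X (fun n => by
      rw [Polynomial.coeff_X]
      split_ifs <;> simp) ⟨1, by rw [Polynomial.coeff_X_one, map_one, map_one]⟩
    rw [Polynomial.aeval_X] at h1
    exact h1.le
  constructor
  · intro h
    by_contra hnd
    obtain ⟨n, hn⟩ := (not_C_dvd_iff hπ f).1 hnd
    rw [ev_apply] at h
    refine h.ne (hG _ (fun n => ?_) ⟨n, ?_⟩)
    · rw [Polynomial.coeff_map]
      exact (hvw _).1 (f.coeff n).2
    · rw [Polynomial.coeff_map]
      refine le_antisymm ((hvw _).1 (f.coeff n).2) (not_lt.1 fun h1 => ?_)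
      exact ((lt_iff hvw _).2 h1).ne hn
  · rintro ⟨g, rfl⟩
    rw [map_mul, map_mul, ev_C]
    exact (mul_le_of_le_one_right' (ev_le_one hvw hy g)).trans_lt
      ((lt_iff hvw _).1 ((dvd_iff hπ π).1 dvd_rfl))

end basic

/-- the numerator over `O_v[y]` -/
theorem exists_numX {P K L : Type*} [Field P] [Field K] [Field L] [Algebra P K] [Algebra K L]
    [Algebra P L] [IsScalarTower P K L] [FiniteDimensional K L] [IsGalois K L] {v : Valuation P ℤᵐ⁰}
    (hnt : ∃ a : P, a ≠ 0 ∧ v a ≠ 1) {y : L} (hy : Transcendental P y)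
    (hK : ∀ z : K, algebraMap K L z ∈ IntermediateField.adjoin P {y})
    (hyK : ∃ y' : K, algebraMap K L y' = y)
    {w : Valuation L ℤᵐ⁰} (hvw : ∀ a : P, v a ≤ 1 ↔ w (algebraMap P L a) ≤ 1)
    (hG : ∀ p : P[X], (∀ n, w (algebraMap P L (p.coeff n)) ≤ 1) →
      (∃ n, w (algebraMap P L (p.coeff n)) = 1) → w (Polynomial.aeval y p) = 1)
    (hI : NoInert K w) {z : L} (hz : ∀ σ : L ≃ₐ[K] L, w (σ z) < 1 ∨ w (σ z - 1) < 1) :
    ∃ d a₀ : (v.valuationSubring)[X], Good v K w y z d ∧ (∀ n, v ((a₀ - 1).coeff n : P) < 1) ∧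
      (∃ n, v (d.coeff n : P) = 1) ∧
      ∀ q : (v.valuationSubring)[X], Prime q → q ∣ d → ¬ q ∣ a₀ →
        (∃ n, v (q.coeff n : P) = 1) ∧
        ∃ w' : Valuation L ℤᵐ⁰, (∀ a : P, a ≠ 0 → w' (algebraMap P L a) = 1) ∧
          (∀ f : (v.valuationSubring)[X], w' (ev v y f) ≤ 1 ∧ (w' (ev v y f) < 1 ↔ q ∣ f)) ∧
          ¬ NoInert K w' := by
  classical
  obtain ⟨x, rfl⟩ := hyK
  have hx : Transcendental P x := fun h => hy (h.algebraMap)
  have hae : ∀ p : P[X], algebraMap K L (Polynomial.aeval x p) =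
      Polynomial.aeval (algebraMap K L x) p := fun p =>
    (Polynomial.aeval_algebraMap_apply L x p).symm
  have hK' : ∀ z : K, z ∈ IntermediateField.adjoin P {x} := by
    intro z
    obtain ⟨r, s, hrs⟩ := (IntermediateField.mem_adjoin_simple_iff P _).1 (hK z)
    refine (IntermediateField.mem_adjoin_simple_iff P z).2 ⟨r, s, ?_⟩
    apply (algebraMap K L).injective
    rw [map_div₀, hae, hae]
    exact hrs
  let O := v.valuationSubring
  haveI hdvr : IsDiscreteValuationRing O := Pur.dvr_of_nontrivial hnt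
  obtain ⟨π, hπ⟩ := IsDiscreteValuationRing.exists_irreducible O
  haveI : IsPrincipalIdealRing (O[X] ⧸ Ideal.span {(Polynomial.C π : O[X])}) := Pur.pid_quot hπ
  letI : Algebra O[X] K := Pur.algX v x
  letI : Algebra O[X] L := ((algebraMap K L).comp (algebraMap O[X] K)).toAlgebra
  haveI : IsScalarTower O[X] K L := IsScalarTower.of_algebraMap_eq' rfl
  haveI : IsFractionRing O[X] K := Pur.isFractionRing_algX v hx hK'
  have hAL : algebraMap O[X] L = ev v (algebraMap K L x) := by
    refine RingHom.ext fun f => ?_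
    show algebraMap K L (Polynomial.aeval x (f.map (algebraMap O P))) = _
    rw [hae]
    rfl
  have hAL' : ∀ f : O[X], algebraMap O[X] L f = ev v (algebraMap K L x) f := fun f => by rw [hAL]
  have hyle : w (algebraMap K L x) ≤ 1 := by
    have h1 := hG Polynomial.X (fun n => by
      rw [Polynomial.coeff_X]
      split_ifs <;> simp) ⟨1, by rw [Polynomial.coeff_X_one, map_one, map_one]⟩
    rw [Polynomial.aeval_X] at h1
    exact h1.le
  have hw : Pur.OverPrime w (Polynomial.C π : O[X]) :=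
    ⟨fun f => by rw [hAL']; exact ev_le_one hvw hyle f,
      fun f => by rw [hAL']; exact lt_one_iff hvw hG hπ f⟩
  have hCπ : Prime (Polynomial.C π : O[X]) := Polynomial.prime_C_iff.2 hπ.prime
  obtain ⟨d, a₀, b, hb, hbd, hpd, hpa, hq⟩ := exists_num (A := O[X]) hCπ hw hI hz
  refine ⟨d, a₀, ⟨b, ?_, fun σ => ?_⟩, (C_dvd_iff hπ _).1 hpa, (not_C_dvd_iff hπ d).1 hpd,
    fun q hqp hqd hqa => ?_⟩
  · have h1 : (algebraMap O[X] L).IsIntegralElem b := hb
    rwa [hAL] at h1
  · rw [← hAL']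
    exact hbd σ
  · have hqπ : ¬ q ∣ Polynomial.C π := by
      intro h
      exact hpd (((hqp.dvd_prime_iff_associated hCπ).1 h).symm.dvd.trans hqd)
    refine ⟨(not_C_dvd_iff hπ q).1 fun h => ?_, ?_⟩
    · exact hpd (h.trans hqd)
    obtain ⟨w', h1, h2, h3⟩ := Pur.exists_over_prime (L := L) v hx hK' hπ hqp hqπ
    refine ⟨w', h1, fun f => ⟨?_, ?_⟩, ?_⟩
    · rw [← hAL']; exact h2 f
    · rw [← hAL']; exact h3 f
    · exact hq q hqp hqd hqa w' ⟨h2, h3⟩

end Pf72953.Ug
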