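import Mathlib
import Pool.Agent.Lib.Pf72953y.Det
import Pool.Agent.Lib.Pf72953x.NumX

/-!
No inertia at the horizontal primes of `O[y]` through the point `π = y = 0` (Abhyankar's lemma).
-/

set_option autoImplicit false
set_option linter.style.haveILetI false
set_option linter.unusedSectionVars false

open scoped WithZero Polynomial
open Pf72953

namespace Pf72953.Ug

/-- some positive power of the value of an algebraic element is the value of an element of `K` -/
theorem exists_pow_val {K L : Type*} [Field K] [Field L] [Algebra K L] [FiniteDimensional K L]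
    (w : Valuation L ℤᵐ⁰) {z : L} (hz : z ≠ 0) :
    ∃ m : ℕ, 0 < m ∧ m ≤ Module.finrank K L ∧ ∃ a : K, a ≠ 0 ∧ w z ^ m = w (algebraMap K L a) := by
  classical
  have hint : IsIntegral K z := Algebra.IsIntegral.isIntegral z
  set p := minpoly K z with hp
  have hp0 : p ≠ 0 := minpoly.ne_zero hint
  have hdeg : p.natDegree ≤ Module.finrank K L := minpoly.natDegree_le z
  have hsum : ∑ i ∈ p.support, algebraMap K L (p.coeff i) * z ^ i = 0 := by
    have h1 := minpoly.aeval K z
    rw [Polynomial.aeval_def, Polynomial.eval₂_eq_sum, Polynomial.sum_def] at h1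
    exact h1
  obtain ⟨i, hi, hmax⟩ := p.support.exists_max_image
    (fun i => w (algebraMap K L (p.coeff i) * z ^ i)) (Polynomial.support_nonempty.2 hp0)
  have hne : ∀ j ∈ p.support, w (algebraMap K L (p.coeff j) * z ^ j) ≠ 0 := by
    intro j hj
    rw [Valuation.ne_zero_iff]
    exact mul_ne_zero ((map_ne_zero (algebraMap K L)).2 (Polynomial.mem_support_iff.1 hj))
      (pow_ne_zero _ hz)
  -- another index with the same value
  obtain ⟨j, hj, hji, hje⟩ : ∃ j ∈ p.support, j ≠ i ∧
      w (algebraMap K L (p.coeff j) * z ^ j) = w (algebraMap K L (p.coeff i) * z ^ i) := by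
    by_contra hcon
    push Not at hcon
    have h1 := Valuation.map_sum_eq_of_lt w (s := p.support)
      (f := fun i => algebraMap K L (p.coeff i) * z ^ i) hi
      (fun j hj => by
        rw [Finset.mem_sdiff, Finset.mem_singleton] at hj
        exact lt_of_le_of_ne (hmax j hj.1) (hcon j hj.1 hj.2))
    rw [hsum, map_zero] at h1
    exact hne i hi h1.symm
  have hle : ∀ j ∈ p.support, j ≤ Module.finrank K L := fun j hj =>
    (Polynomial.le_natDegree_of_mem_supp j hj).trans hdeg
  -- the ordered version
  have key : ∀ i ∈ p.support, ∀ j ∈ p.support, i < j →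
      w (algebraMap K L (p.coeff j) * z ^ j) = w (algebraMap K L (p.coeff i) * z ^ i) →
      ∃ m : ℕ, 0 < m ∧ m ≤ Module.finrank K L ∧ ∃ a : K, a ≠ 0 ∧ w z ^ m = w (algebraMap K L a) := by
    intro i hi j hj hij he
    have hai : p.coeff i ≠ 0 := Polynomial.mem_support_iff.1 hi
    have haj : p.coeff j ≠ 0 := Polynomial.mem_support_iff.1 hj
    refine ⟨j - i, Nat.sub_pos_of_lt hij, (Nat.sub_le _ _).trans (hle j hj),
      p.coeff i / p.coeff j, div_ne_zero hai haj, ?_⟩
    have h0 : w z ≠ 0 := (Valuation.ne_zero_iff w).2 hz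
    have h1 : w (algebraMap K L (p.coeff j)) ≠ 0 :=
      (Valuation.ne_zero_iff w).2 ((map_ne_zero (algebraMap K L)).2 haj)
    rw [map_mul, map_mul, map_pow, map_pow] at he
    have h2 : w z ^ j = w z ^ (j - i) * w z ^ i := by
      rw [← pow_add, Nat.sub_add_cancel hij.le]
    rw [h2, ← mul_assoc] at he
    have h3 := mul_right_cancel₀ (pow_ne_zero i h0) he
    rw [map_div₀, map_div₀, eq_div_iff h1, ← h3, mul_comm]
  rcases lt_or_gt_of_ne hji with h | h
  · exact key j hj i hi h hje.symm
  · exact key i hi j hj h hje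

/-- the value group of `P(x)` for a valuation trivial on `P`, positive at `x - e` -/
theorem val_zpow {P K F : Type*} [Field P] [Field K] [Field F] [Algebra P K] [Algebra K F]
    [Algebra P F] [IsScalarTower P K F] {x : K} (hK : ∀ z : K, z ∈ IntermediateField.adjoin P {x})
    {w : Valuation F ℤᵐ⁰} (hw : ∀ a : P, a ≠ 0 → w (algebraMap P F a) = 1) {e : P}
    (hxe0 : x - algebraMap P K e ≠ 0)
    (hxe : w (algebraMap K F (x - algebraMap P K e)) < 1) {z : K} (hz : z ≠ 0) :
    ∃ m : ℤ, w (algebraMap K F z) = w (algebraMap K F (x - algebraMap P K e)) ^ m := by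
  classical
  have hle : ∀ a : P, w (algebraMap P F a) ≤ 1 := by
    intro a
    rcases eq_or_ne a 0 with rfl | ha
    · rw [map_zero, map_zero]; exact zero_le_one
    · exact (hw a ha).le
  have hx1 : w (algebraMap K F x) ≤ 1 := by
    have h1 : algebraMap K F x = algebraMap K F (x - algebraMap P K e) + algebraMap P F e := by
      rw [map_sub, ← IsScalarTower.algebraMap_apply P K F]; ring
    rw [h1]
    exact w.map_add_le hxe.le (hle e)
  have hpol : ∀ p : P[X], w (algebraMap K F (Polynomial.aeval x p)) ≤ 1 := by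
    intro p
    rw [Polynomial.aeval_eq_sum_range, map_sum]
    refine Valuation.map_sum_le w fun i _ => ?_
    rw [Algebra.smul_def, map_mul, map_pow, map_mul, map_pow,
      ← IsScalarTower.algebraMap_apply P K F]
    exact mul_le_one' (hle _) (pow_le_one' hx1 i)
  have hval : ∀ p : P[X], p ≠ 0 → ∃ m : ℕ,
      w (algebraMap K F (Polynomial.aeval x p)) = w (algebraMap K F (x - algebraMap P K e)) ^ m := by
    intro p hp
    obtain ⟨q, hq, hq1⟩ := Polynomial.exists_eq_pow_rootMultiplicity_mul_and_not_dvd p hp e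
    refine ⟨p.rootMultiplicity e, ?_⟩
    have h1 : w (algebraMap K F (Polynomial.aeval x q)) = 1 := by
      have hqe : q.eval e ≠ 0 := fun h => hq1 (Polynomial.dvd_iff_isRoot.2 h)
      obtain ⟨s, hs⟩ := Polynomial.X_sub_C_dvd_sub_C_eval (a := e) (p := q)
      have h2 : q = Polynomial.C (q.eval e) + (Polynomial.X - Polynomial.C e) * s := by
        rw [← hs]; ring
      have h3 : algebraMap K F (Polynomial.aeval x q) = algebraMap P F (q.eval e) +
          algebraMap K F (x - algebraMap P K e) * algebraMap K F (Polynomial.aeval x s) := by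
        conv_lhs => rw [h2]
        rw [map_add, map_mul, map_sub, Polynomial.aeval_X, Polynomial.aeval_C, Polynomial.aeval_C,
          map_add, map_mul, ← IsScalarTower.algebraMap_apply P K F]
      have h4 : w (algebraMap K F (x - algebraMap P K e) *
          algebraMap K F (Polynomial.aeval x s)) < 1 := by
        rw [map_mul]
        exact (mul_le_of_le_one_right' (hpol s)).trans_lt hxe
      rw [h3, w.map_add_eq_of_lt_left (by rw [hw _ hqe]; exact h4), hw _ hqe]
    conv_lhs => rw [hq]
    rw [map_mul, map_pow, map_sub, Polynomial.aeval_X, Polynomial.aeval_C, map_mul, map_mul, h1,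
      mul_one, map_pow, map_pow]
  obtain ⟨f, g, hfg⟩ := IntermediateField.mem_adjoin_simple_iff P z |>.1 (hK z)
  have hf0 : f ≠ 0 := by
    rintro rfl
    rw [map_zero, zero_div] at hfg
    exact hz hfg
  have hg0 : g ≠ 0 := by
    rintro rfl
    rw [map_zero, div_zero] at hfg
    exact hz hfg
  obtain ⟨a, ha⟩ := hval f hf0
  obtain ⟨b, hb⟩ := hval g hg0
  have hx0 : w (algebraMap K F (x - algebraMap P K e)) ≠ 0 :=
    (Valuation.ne_zero_iff w).2 ((map_ne_zero (algebraMap K F)).2 hxe0)
  refine ⟨(a : ℤ) - b, ?_⟩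
  rw [hfg, map_div₀, map_div₀, ha, hb, zpow_sub₀ hx0, zpow_natCast, zpow_natCast]

section B

variable {k P K L L' : Type*} [Field k] [CharZero k] [IsAlgClosed k] [Field P] [Field K] [Field L]
  [Field L'] [Algebra k P] [Algebra P K] [Algebra K L] [Algebra P L] [IsScalarTower P K L]
  [Algebra L L'] [Algebra K L'] [Algebra P L'] [IsScalarTower K L L'] [IsScalarTower P K L']
  [IsScalarTower P L L']

/-- (B2) no inertia at the horizontal primes `q` of `O[y]` through the point `π = y = 0` -/
theorem noInert_of_point [FiniteDimensional K L] [IsGalois K L] [FiniteDimensional K L']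
    [IsGalois K L'] {x : K} (hx : Transcendental P x)
    (hK : ∀ z : K, z ∈ IntermediateField.adjoin P {x}) {v : Valuation P ℤᵐ⁰}
    (hv : ∀ n : ℕ, n ≠ 0 → v (n : P) = 1) (S : Finset P)
    (hS1 : ∀ e ∈ S, v e ≤ 1) (hS2 : ∀ e ∈ S, ∀ e' ∈ S, e ≠ e' → v (e - e') = 1)
    (hU : ∀ u : Valuation L ℤᵐ⁰, (∀ a : P, a ≠ 0 → u (algebraMap P L a) = 1) →
      (∀ e ∈ S, ¬ u (algebraMap K L (x - algebraMap P K e)) < 1) → NoInert K u)
    {e : P} (he : e ∈ S) {r : ℕ} (hr : ∀ m : ℕ, 0 < m → m ≤ Module.finrank K L → m ∣ r)
    (hr0 : 0 < r) {y : L'} (hy : y ^ r = algebraMap K L' (x - algebraMap P K e))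
    (hL' : ∀ z : L', z ∈ IntermediateField.adjoin L {y})
    {w : Valuation L' ℤᵐ⁰} (hw : ∀ a : P, a ≠ 0 → w (algebraMap P L' a) = 1)
    {q : (v.valuationSubring)[X]} (hq : Prime q) (hq0 : v (q.coeff 0 : P) < 1)
    (hwq : ∀ f : (v.valuationSubring)[X], w (ev v y f) ≤ 1 ∧ (w (ev v y f) < 1 ↔ q ∣ f)) :
    NoInert (IntermediateField.adjoin K {y}) w := by
  classical
  intro g hg
  -- `g` fixes `y`
  have hgy : g y = y :=
    g.commutes ⟨y, IntermediateField.mem_adjoin_simple_self K y⟩
  -- the restriction to `L`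
  set gL : L ≃ₐ[K] L := (g.restrictScalars K).restrictNormal L with hgL
  have hgL1 : ∀ z : L, algebraMap L L' (gL z) = g (algebraMap L L' z) := fun z =>
    AlgEquiv.restrictNormal_commutes (g.restrictScalars K) L z
  set u : Valuation L ℤᵐ⁰ := w.comap (algebraMap L L') with hu
  have huw : ∀ z : L, u z = w (algebraMap L L' z) := fun z => rfl
  have huP : ∀ a : P, a ≠ 0 → u (algebraMap P L a) = 1 := by
    intro a ha
    rw [huw, ← IsScalarTower.algebraMap_apply P L L', hw a ha]
  have hun : ∀ n : ℕ, n ≠ 0 → u (n : L) = 1 := by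
    intro n hn
    have h0 : (n : P) ≠ 0 := by
      intro h
      have h1 := hv n hn
      rw [h, map_zero] at h1
      exact zero_ne_one h1
    rw [← map_natCast (algebraMap P L) n, huP _ h0]
  have hy1 : w y ≤ 1 := by
    have h1 := (hwq Polynomial.X).1
    rwa [ev_X] at h1
  have hy0 : y ≠ 0 := by
    rintro rfl
    rw [zero_pow hr0.ne'] at hy
    have h1 : x - algebraMap P K e = 0 := (map_eq_zero (algebraMap K L')).1 hy.symm
    exact hx (by
      rw [sub_eq_zero.1 h1]
      exact isAlgebraic_algebraMap e)
  -- it is enough to show that `g` is trivial on `L`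
  suffices h : gL = 1 by
    have hfix : ∀ z : L', z ∈ IntermediateField.adjoin L {y} → g z = z := by
      intro z hz
      induction hz using IntermediateField.adjoin_induction with
      | mem x hx => rw [Set.mem_singleton_iff.1 hx, hgy]
      | algebraMap a => rw [← hgL1, h, AlgEquiv.one_apply]
      | add a b ha hb h1 h2 => rw [map_add, h1, h2]
      | inv a ha h1 => rw [map_inv₀, h1]
      | mul a b ha hb h1 h2 => rw [map_mul, h1, h2]
    ext z
    rw [hfix z (hL' z), AlgEquiv.one_apply]
  rcases lt_or_eq_of_le hy1 with hyw | hyw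
  · -- the case of the point on the branch divisor
    have hxe0 : x - algebraMap P K e ≠ 0 := by
      intro h
      rw [h, map_zero] at hy
      exact hy0 (pow_eq_zero_iff hr0.ne' |>.1 hy)
    have hxe : w (algebraMap K L' (x - algebraMap P K e)) < 1 := by
      rw [← hy, map_pow]
      exact pow_lt_one₀ zero_le hyw hr0.ne'
    have hwy0 : w y ≠ 0 := (Valuation.ne_zero_iff w).2 hy0
    refine Pur.eq_one_of_graded (w := u) hun fun z hz => ?_
    obtain ⟨m, hm0, hm1, a, ha, hma⟩ := exists_pow_val (K := K) u hz
    obtain ⟨s, hs⟩ := val_zpow (F := L') hK hw hxe0 hxe ha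
    obtain ⟨t, ht⟩ := hr m hm0 hm1
    -- the value of `z` is a power of that of `y`
    have hval : w (algebraMap L L' z) = w y ^ ((t : ℤ) * s) := by
      have h1 : w (algebraMap L L' z) ^ m = (w y ^ ((t : ℤ) * s)) ^ m := by
        rw [huw, huw, ← IsScalarTower.algebraMap_apply K L L', hs, ← hy, map_pow] at hma
        rw [hma, ← zpow_natCast, ← zpow_mul, ← zpow_natCast, ← zpow_mul, ht]
        congr 1
        push_cast
        ring
      exact (pow_left_inj₀ zero_le zero_le hm0.ne').1 h1
    set c : L' := y ^ ((t : ℤ) * s) with hc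
    have hcw : w c = w y ^ ((t : ℤ) * s) := map_zpow₀ w y _
    have hc0 : c ≠ 0 := zpow_ne_zero _ hy0
    have hcw0 : w c ≠ 0 := (Valuation.ne_zero_iff w).2 hc0
    have hgc : g c = c := by rw [hc, map_zpow₀, hgy]
    have h2 : w (algebraMap L L' z / c) ≤ 1 := by
      rw [map_div₀, hval, hcw, div_self (by rw [← hcw]; exact hcw0)]
    have h3 := hg _ h2
    rw [map_div₀, hgc, ← hgL1, ← sub_div, ← map_sub, map_div₀, div_lt_one₀ (zero_lt_iff.2 hcw0),
      hcw, ← hval] at h3
    exact h3
  · -- the case outside the branch divisor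
    refine hU u huP ?_ gL ?_
    · intro e' he' hlt
      have hee : v (e - e') ≤ 1 := by
        rcases eq_or_ne e e' with h | h
        · rw [h, sub_self, map_zero]; exact zero_le_one
        · exact (hS2 e he e' he' h).le
      set f : (v.valuationSubring)[X] := Polynomial.X ^ r + Polynomial.C ⟨e - e', hee⟩ with hf
      have h1 : ev v y f = algebraMap K L' (x - algebraMap P K e') := by
        rw [hf, map_add, map_pow, ev_X, ev_C, hy]
        change algebraMap K L' (x - algebraMap P K e) + algebraMap P L' (e - e') = _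
        rw [map_sub, map_sub, map_sub, ← IsScalarTower.algebraMap_apply P K L',
          ← IsScalarTower.algebraMap_apply P K L']
        ring
      rw [huw, ← IsScalarTower.algebraMap_apply K L L', ← h1] at hlt
      have h2 : q ∣ f := (hwq f).2.1 hlt
      rcases eq_or_ne e e' with h | h
      · subst h
        have h3 : f = Polynomial.X ^ r := by
          rw [hf]
          have h4 : (⟨e - e, hee⟩ : v.valuationSubring) = 0 := Subtype.ext (sub_self e)
          rw [h4, map_zero, add_zero]
        rw [h3] at h2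
        have h5 := (hwq Polynomial.X).2.2 (hq.dvd_of_dvd_pow h2)
        rw [ev_X, hyw] at h5
        exact lt_irrefl _ h5
      · obtain ⟨s, hs⟩ := h2
        have h3 : f.coeff 0 = q.coeff 0 * s.coeff 0 := by
          rw [hs, Polynomial.mul_coeff_zero]
        have h4 : f.coeff 0 = ⟨e - e', hee⟩ := by
          rw [hf, Polynomial.coeff_add, Polynomial.coeff_X_pow, if_neg hr0.ne, zero_add,
            Polynomial.coeff_C_zero]
        have h5 : v (e - e') = v (q.coeff 0 : P) * v (s.coeff 0 : P) := by
          rw [← map_mul]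
          congr 1
          have h6 : ((f.coeff 0 : v.valuationSubring) : P) = e - e' := by rw [h4]
          rw [← h6, h3]
          rfl
        rw [hS2 e he e' he' h] at h5
        have h6 : v (q.coeff 0 : P) * v (s.coeff 0 : P) < 1 :=
          (mul_le_of_le_one_right' (s.coeff 0).2).trans_lt hq0
        rw [← h5] at h6
        exact lt_irrefl _ h6
    · intro z hz
      rw [huw, map_sub, hgL1]
      exact hg _ hz

end B

end Pf72953.Ug
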