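import Mathlib
import Pool.Agent.Lib.Pf72953x.Defs

/-!
The descent at a branch point: polynomials and integrality.
-/

set_option autoImplicit false
set_option linter.style.haveILetI false

open scoped WithZero Polynomial
open Pf72953

namespace Pf72953.Ug

open Polynomial in
/-- the norm of a polynomial along `Y ↦ Y ^ r` -/
theorem exists_norm_poly {O : Type*} [CommRing O] [IsDomain O] {r : ℕ} (hr : 0 < r) {ζ : O}
    (hζ : IsPrimitiveRoot ζ r) (d : O[X]) :
    ∃ h₀ g : O[X], expand O r h₀ = g * d ∧ h₀.coeff 0 = d.coeff 0 ^ r := by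
  classical
  set F : ℕ → O[X] := fun i => d.comp (C (ζ ^ i) * X) with hF
  set N : O[X] := ∏ i ∈ Finset.range r, F i with hN
  have hF0 : F 0 = d := by simp [hF]
  have hFr : F r = d := by
    show d.comp (C (ζ ^ r) * X) = d
    rw [hζ.pow_eq_one, C_1, one_mul, comp_X]
  have hFs : ∀ i, (F i).comp (C ζ * X) = F (i + 1) := by
    intro i
    simp only [hF, comp_assoc, mul_comp, C_comp, X_comp, pow_succ, C_mul, mul_assoc]
  have hNs : N.comp (C ζ * X) = N := by
    rw [hN, Polynomial.prod_comp]
    simp only [hFs]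
    obtain ⟨m, rfl⟩ : ∃ m, r = m + 1 := ⟨r - 1, by omega⟩
    rw [Finset.prod_range_succ, hFr, Finset.prod_range_succ', hF0]
  have hNc : ∀ n, N.coeff n ≠ 0 → r ∣ n := by
    intro n hn
    have h1 := congrArg (fun p => coeff p n) hNs
    simp only [comp_C_mul_X_coeff] at h1
    refine (hζ.pow_eq_one_iff_dvd n).mp ?_
    exact mul_left_cancel₀ hn (h1.trans (mul_one _).symm)
  have hcon : expand O r (contract r N) = N := by
    ext n
    rw [coeff_expand hr]
    split_ifs with h
    · rw [coeff_contract hr.ne', Nat.div_mul_cancel h]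
    · by_contra h2
      exact h (hNc n (Ne.symm h2))
  obtain ⟨m, hm⟩ : ∃ m, r = m + 1 := ⟨r - 1, by omega⟩
  refine ⟨contract r N, ∏ i ∈ Finset.range m, F (i + 1), ?_, ?_⟩
  · rw [hcon, hN, hm, Finset.prod_range_succ', hF0]
  · rw [coeff_contract hr.ne', zero_mul, hN, coeff_zero_eq_eval_zero, eval_prod]
    simp only [hF, eval_comp, eval_mul, eval_C, eval_X, mul_zero, Finset.prod_const,
      Finset.card_range, ← coeff_zero_eq_eval_zero]

section int

variable {P L : Type*} [Field P] [Field L] [Algebra P L] {v : Valuation P ℤᵐ⁰}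

theorem evC (y : L) (a : v.valuationSubring) : ev v y (Polynomial.C a) = algebraMap P L (a : P) := by
  simp [ev]

theorem evX (y : L) : ev v y Polynomial.X = y := by
  simp [ev]

theorem ev_comp (y : L) (p q : (v.valuationSubring)[X]) :
    ev v y (p.comp q) = ev v (ev v y q) p := by
  simp only [ev, RingHom.comp_apply, Polynomial.coe_mapRingHom, AlgHom.toRingHom_eq_coe,
    RingHom.coe_coe, Polynomial.map_comp, Polynomial.aeval_comp]

theorem ev_expand (y : L) (r : ℕ) (p : (v.valuationSubring)[X]) :
    ev v y (Polynomial.expand _ r p) = ev v (y ^ r) p := by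
  rw [Polynomial.expand_eq_comp_X_pow, ev_comp, map_pow, evX]

theorem ev_zero (p : (v.valuationSubring)[X]) : ev v (0 : P) p = (p.coeff 0 : P) := by
  induction p using Polynomial.induction_on' with
  | add p q hp hq => rw [map_add, hp, hq, Polynomial.coeff_add]; rfl
  | monomial n a =>
    rw [← Polynomial.C_mul_X_pow_eq_monomial, map_mul, map_pow, evX, evC]
    rcases Nat.eq_zero_or_pos n with rfl | hn
    · simp
    · rw [zero_pow hn.ne', mul_zero, Polynomial.coeff_C_mul_X_pow, if_neg hn.ne]; rfl

/-- maps and the evaluation -/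
theorem map_ev {L' : Type*} [Field L'] [Algebra P L'] (φ : L →ₐ[P] L') (y : L)
    (p : (v.valuationSubring)[X]) : φ (ev v y p) = ev v (φ y) p := by
  simp only [ev, RingHom.comp_apply, Polynomial.coe_mapRingHom, AlgHom.toRingHom_eq_coe,
    RingHom.coe_coe, Polynomial.aeval_algHom_apply]

theorem IntX.map {L' : Type*} [Field L'] [Algebra P L'] (φ : L →ₐ[P] L') {y b : L}
    (hb : IntX v y b) : IntX v (φ y) (φ b) := by
  obtain ⟨p, hp, hp0⟩ := hb
  refine ⟨p, hp, ?_⟩
  have h1 : ev v (φ y) = (φ : L →+* L').comp (ev v y) := by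
    ext a
    · simp [evC]
    · simp [evX]
  have h2 : Polynomial.eval₂ ((φ : L →+* L').comp (ev v y)) ((φ : L →+* L') b) p = 0 := by
    rw [← Polynomial.hom_eval₂, hp0, map_zero]
  rw [h1]
  exact h2

theorem IntX.of_map {L' : Type*} [Field L'] [Algebra P L'] (φ : L →ₐ[P] L') {y b : L}
    (hb : IntX v (φ y) (φ b)) : IntX v y b := by
  obtain ⟨p, hp, hp0⟩ := hb
  refine ⟨p, hp, ?_⟩
  have h1 : ev v (φ y) = (φ : L →+* L').comp (ev v y) := by
    ext a
    · simp [evC]
    · simp [evX]
  rw [h1] at hp0
  have h2 : (φ : L →+* L') (Polynomial.eval₂ (ev v y) b p) = 0 := by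
    rw [Polynomial.hom_eval₂]
    exact hp0
  exact (map_eq_zero_iff _ (φ : L →+* L').injective).mp h2

theorem intX_const (y : L) {a : P} (ha : v a ≤ 1) : IntX v y (algebraMap P L a) := by
  have h := RingHom.isIntegralElem_map (ev v y) (x := Polynomial.C ⟨a, ha⟩)
  rw [evC] at h
  exact h

theorem intX_self (y : L) : IntX v y y := by
  have h := RingHom.isIntegralElem_map (ev v y) (x := Polynomial.X)
  rw [evX] at h
  exact h

theorem intX_ev {x y : L} (hy : IntX v x y) (p : (v.valuationSubring)[X]) :
    IntX v x (ev v y p) := by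
  letI := (ev v x).toAlgebra
  have hy' : IsIntegral (v.valuationSubring)[X] y := hy
  show IsIntegral (v.valuationSubring)[X] (ev v y p)
  induction p using Polynomial.induction_on' with
  | add p q hp hq => rw [map_add]; exact hp.add hq
  | monomial n a =>
    rw [← Polynomial.C_mul_X_pow_eq_monomial, map_mul, map_pow, evX, evC]
    exact IsIntegral.mul (intX_const x a.2 : IsIntegral (v.valuationSubring)[X] _) (hy'.pow n)

/-- integrality over `O[y]` is integrality over `O[x]` if `y` is integral over `O[x]` -/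
theorem IntX.trans {x y b : L} (hy : IntX v x y) (hb : IntX v y b) : IntX v x b := by
  letI := (ev v x).toAlgebra
  have hb' : IsIntegral (integralClosure (v.valuationSubring)[X] L) b := by
    obtain ⟨p, hp, hp0⟩ := hb
    let f : (v.valuationSubring)[X] →+* integralClosure (v.valuationSubring)[X] L :=
      (ev v y).codRestrict (integralClosure (v.valuationSubring)[X] L).toSubring
        (fun q => (intX_ev hy q : IsIntegral (v.valuationSubring)[X] _))
    refine ⟨p.map f, hp.map f, ?_⟩
    rw [Polynomial.eval₂_map]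
    exact hp0
  have h2 : IsIntegral (v.valuationSubring)[X] b := isIntegral_trans (R := (v.valuationSubring)[X]) b hb'
  exact h2

end int

end Pf72953.Ug
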