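import Mathlib
import Pool.Agent.Lib.Pf72953x.Defs
import Pool.Agent.Lib.Pf72953x.B3a

/-!
The descent at a branch point: the average.
-/

set_option autoImplicit false
set_option linter.style.haveILetI false

open scoped WithZero Polynomial
open Pf72953

namespace Pf72953.Ug

section B

variable {P K L L' : Type*} [Field P] [Field K] [Field L]
  [Field L'] [Algebra P K] [Algebra K L] [Algebra P L] [IsScalarTower P K L]
  [Algebra L L'] [Algebra K L'] [Algebra P L'] [IsScalarTower K L L'] [IsScalarTower P K L']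
  [IsScalarTower P L L']

omit [IsScalarTower P K L] in
/-- the descent from `L'` to `L` -/
theorem good_of_average [FiniteDimensional K L] [IsGalois K L] [FiniteDimensional K L']
    [IsGalois K L'] {v : Valuation P ℤᵐ⁰} {w₀ : Valuation L ℤᵐ⁰} {w : Valuation L' ℤᵐ⁰}
    (hvn : ∀ n : ℕ, n ≠ 0 → v (n : P) = 1) (hwn : ∀ n : ℕ, n ≠ 0 → w (n : L') = 1)
    (hlt : ∀ z : L, w (algebraMap L L' z) < 1 → w₀ z < 1)
    {x : K} {z : L} {h : (v.valuationSubring)[X]} {b' : L'}
    (hb' : IntX v (algebraMap K L' x) b')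
    (hc : ∀ δ : L' ≃ₐ[K] L',
      w (δ (b' - ev v (algebraMap K L' x) h * algebraMap L L' z)) < 1) :
    Good v K w₀ (algebraMap K L x) z h := by
  classical
  haveI : FiniteDimensional L L' := FiniteDimensional.right K L L'
  haveI : IsGalois L L' := IsGalois.tower_top_of_isGalois K L L'
  set m : ℕ := Fintype.card (L' ≃ₐ[L] L') with hm
  have hm0 : m ≠ 0 := Fintype.card_ne_zero
  have hmP : (m : P) ≠ 0 := fun h0 => by
    have := hvn m hm0
    rw [h0, map_zero] at this
    exact zero_ne_one this
  have hmL : (m : L') ≠ 0 := fun h0 => by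
    have := hwn m hm0
    rw [h0, map_zero] at this
    exact zero_ne_one this
  have hvm : v ((m : P)⁻¹) ≤ 1 := by rw [map_inv₀, hvn m hm0, inv_one]
  -- the average
  set B : L' := algebraMap P L' ((m : P)⁻¹) * ∑ τ : L' ≃ₐ[L] L', τ b' with hB
  have hBmem : ∀ g : L' ≃ₐ[L] L', g B = B := by
    intro g
    rw [hB, map_mul, map_sum, IsScalarTower.algebraMap_apply P L L', AlgEquiv.commutes]
    congr 1
    exact Fintype.sum_equiv (Equiv.mulLeft g) _ _ (fun τ => rfl)
  obtain ⟨b, hb⟩ : ∃ b : L, algebraMap L L' b = B := by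
    have := (IsGalois.mem_bot_iff_fixed (F := L) (E := L') B).mpr hBmem
    exact IntermediateField.mem_bot.mp this
  have hxx : algebraMap K L' x = algebraMap L L' (algebraMap K L x) :=
    IsScalarTower.algebraMap_apply K L L' x
  refine ⟨b, ?_, fun σ => ?_⟩
  · refine IntX.of_map (IsScalarTower.toAlgHom P L L') ?_
    show IntX v (algebraMap L L' (algebraMap K L x)) (algebraMap L L' b)
    rw [hb, hB, ← hxx]
    refine RingHom.IsIntegralElem.mul _ (intX_const _ hvm) ?_
    refine Finset.sum_induction _ (fun c => (ev v (algebraMap K L' x)).IsIntegralElem c)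
      (fun _ _ => RingHom.IsIntegralElem.add _) (RingHom.isIntegralElem_zero _) fun τ _ => ?_
    have h1 := IntX.map (τ.restrictScalars P : L' ≃ₐ[P] L').toAlgHom hb'
    have h2 : (τ.restrictScalars P : L' ≃ₐ[P] L').toAlgHom (algebraMap K L' x) = algebraMap K L' x := by
      show τ (algebraMap K L' x) = _
      rw [hxx, AlgEquiv.commutes]
    rw [h2] at h1
    exact h1
  · obtain ⟨δ, hδ⟩ := AlgEquiv.restrictNormalHom_surjective (F := K) (K₁ := L) L' σ
    have hδz : ∀ t : L, algebraMap L L' (σ t) = δ (algebraMap L L' t) := by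
      intro t
      rw [← hδ]
      exact AlgEquiv.restrictNormal_commutes δ L t
    refine hlt _ ?_
    have hevx : algebraMap L L' (ev v (algebraMap K L x) h) = ev v (algebraMap K L' x) h := by
      rw [hxx]
      exact map_ev (IsScalarTower.toAlgHom P L L') _ _
    have h1 : algebraMap L L' (b - ev v (algebraMap K L x) h * z) =
        algebraMap P L' ((m : P)⁻¹) *
          ∑ τ : L' ≃ₐ[L] L', τ (b' - ev v (algebraMap K L' x) h * algebraMap L L' z) := by
      have h2 : ∀ τ : L' ≃ₐ[L] L', τ (b' - ev v (algebraMap K L' x) h * algebraMap L L' z) =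
          τ b' - ev v (algebraMap K L' x) h * algebraMap L L' z := by
        intro τ
        rw [map_sub, ← hevx, ← map_mul, AlgEquiv.commutes]
      simp only [h2, Finset.sum_sub_distrib, Finset.sum_const, Finset.card_univ, ← hm, nsmul_eq_mul,
        map_sub, hb, hB, mul_sub, map_mul, hevx]
      congr 1
      rw [map_inv₀, map_natCast, inv_mul_cancel_left₀ hmL]
    rw [hδz, h1, map_mul, map_sum, map_mul]
    have h3 : w (δ (algebraMap P L' ((m : P)⁻¹))) = 1 := by
      rw [IsScalarTower.algebraMap_apply P K L', AlgEquiv.commutes, ← IsScalarTower.algebraMap_apply,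
        map_inv₀, map_natCast, map_inv₀, hwn m hm0, inv_one]
    rw [h3, one_mul]
    refine Valuation.map_sum_lt _ one_ne_zero fun τ _ => ?_
    have := hc (δ * τ.restrictScalars K)
    exact this

omit [IsScalarTower P K L] in
/-- the numerator at the branch point -/
theorem good_at_aux [FiniteDimensional K L] [IsGalois K L] [FiniteDimensional K L']
    [IsGalois K L'] {v : Valuation P ℤᵐ⁰} {w₀ : Valuation L ℤᵐ⁰} {w : Valuation L' ℤᵐ⁰}
    (hvn : ∀ n : ℕ, n ≠ 0 → v (n : P) = 1) (hwn : ∀ n : ℕ, n ≠ 0 → w (n : L') = 1)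
    (hlt : ∀ z : L, w (algebraMap L L' z) < 1 → w₀ z < 1)
    {x : K} {z : L} {e : P} (he : v e ≤ 1) {y : L'} {r : ℕ} (hr : 0 < r)
    {ζ : v.valuationSubring} (hζ : IsPrimitiveRoot ζ r)
    (hy : y ^ r = algebraMap K L' (x - algebraMap P K e))
    (hwy : ∀ f : (v.valuationSubring)[X], w (ev v y f) ≤ 1)
    (h4 : ∀ c : L', (∀ ρ : L' ≃ₐ[IntermediateField.adjoin K {y}] L', w (ρ c) < 1) →
        ∀ δ : L' ≃ₐ[K] L', w (δ c) < 1)
    {d : (v.valuationSubring)[X]}
    (hd : Good v (IntermediateField.adjoin K {y}) w y (algebraMap L L' z) d)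
    (hd0 : v (d.coeff 0 : P) = 1) :
    ∃ h : (v.valuationSubring)[X], Good v K w₀ (algebraMap K L x) z h ∧ v (ev v e h) = 1 := by
  obtain ⟨h₀, g, hg, hg0⟩ := exists_norm_poly hr hζ d
  obtain ⟨b', hb', hc⟩ := hd
  set X1 : L' := algebraMap K L' x with hX1
  set eO : v.valuationSubring := ⟨e, he⟩ with heO
  set h : (v.valuationSubring)[X] := h₀.comp (Polynomial.X - Polynomial.C eO) with hh
  have hX1' : X1 - algebraMap P L' e = y ^ r := by
    rw [hy, map_sub, ← IsScalarTower.algebraMap_apply P K L']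
  have hevh : ev v X1 h = ev v y g * ev v y d := by
    rw [hh, ev_comp, map_sub, evX, evC, hX1', ← ev_expand, hg, map_mul]
  -- `y` is integral over `O[x]`
  have hyx : IntX v X1 y := by
    have h5 := intX_ev (intX_self (v := v) X1) (Polynomial.X - Polynomial.C eO)
    rw [map_sub, evX, evC, hX1'] at h5
    letI := (ev v X1).toAlgebra
    exact IsIntegral.of_pow (R := (v.valuationSubring)[X]) hr h5
  refine ⟨h, good_of_average (w := w) (b' := ev v y g * b') hvn hwn hlt ?_ ?_, ?_⟩
  · exact RingHom.IsIntegralElem.mul _ (intX_ev hyx g) (IntX.trans hyx hb')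
  · refine h4 _ fun ρ => ?_
    have h1 : ev v y g * b' - ev v X1 h * algebraMap L L' z =
        ev v y g * (b' - ev v y d * algebraMap L L' z) := by
      rw [hevh]; ring
    have hρg : ρ (ev v y g) = ev v y g := by
      have h2 := map_ev (v := v) (((ρ.restrictScalars K).restrictScalars P : L' ≃ₐ[P] L').toAlgHom) y g
      have h3 : ((ρ.restrictScalars K).restrictScalars P : L' ≃ₐ[P] L').toAlgHom y = y := by
        show ρ y = y
        exact ρ.commutes ⟨y, IntermediateField.mem_adjoin_simple_self K y⟩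
      rw [h3] at h2
      exact h2
    show w (ρ (ev v y g * b' - ev v X1 h * algebraMap L L' z)) < 1
    rw [h1, map_mul, hρg, map_mul]
    exact (mul_le_of_le_one_left' (hwy g)).trans_lt (hc ρ)
  · rw [hh, ev_comp, map_sub, evX, evC]
    show v (ev v (e - algebraMap P P e) h₀) = 1
    rw [Algebra.algebraMap_self, RingHom.id_apply, sub_self, ev_zero, hg0]
    simp [hd0]

end B

end Pf72953.Ug
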