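import Mathlib
import Pool.Agent.Lib.Pf72953x.B0
import Pool.Agent.Lib.Pf72953x.B1
import Pool.Agent.Lib.Pf72953x.B2
import Pool.Agent.Lib.Pf72953x.B3b
import Pool.Agent.Lib.Pf72953x.NumX

/-!
The numerator at a branch point.
-/

set_option autoImplicit false
set_option linter.style.haveILetI false

open scoped WithZero Polynomial
open Pf72953

namespace Pf72953.Ug

section B3

/-- the constant coefficient of the numerator is a unit -/
theorem coeff_zero_unit {P : Type*} [Field P] {v : Valuation P ℤᵐ⁰} (hnt : ∃ a : P, a ≠ 0 ∧ v a ≠ 1)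
    {d a₀ : (v.valuationSubring)[X]} (ha₀ : ∀ n, v ((a₀ - 1).coeff n : P) < 1)
    (hd : d ≠ 0)
    (hq : ∀ q : (v.valuationSubring)[X], Prime q → q ∣ d → ¬ q ∣ a₀ → v (q.coeff 0 : P) = 1) :
    v (d.coeff 0 : P) = 1 := by
  haveI := Pur.dvr_of_nontrivial hnt
  have hone : ∀ a b : v.valuationSubring, v ((a * b : v.valuationSubring) : P) = 1 → v (a : P) = 1 := by
    intro a b hab
    refine le_antisymm a.2 ?_
    have h1 : v ((a * b : v.valuationSubring) : P) = v (a : P) * v (b : P) := by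
      rw [← map_mul]; rfl
    rw [← hab, h1]
    exact mul_le_of_le_one_right' b.2
  have ha1 : v (a₀.coeff 0 : P) = 1 := by
    have h1 := ha₀ 0
    have h2 : ((a₀ - 1).coeff 0 : P) = (a₀.coeff 0 : P) - 1 := by
      rw [Polynomial.coeff_sub, Polynomial.coeff_one_zero]; rfl
    rw [h2] at h1
    have h3 : (a₀.coeff 0 : P) = ((a₀.coeff 0 : P) - 1) + 1 := by ring
    rw [h3, Valuation.map_add_eq_of_lt_right v (by rw [map_one]; exact h1), map_one]
  have key : ∀ s : Multiset (v.valuationSubring)[X], (∀ q ∈ s, Prime q) → s.prod ∣ d →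
      v (s.prod.coeff 0 : P) = 1 := by
    intro s
    induction s using Multiset.induction_on with
    | empty => intro _ _; simp
    | cons q s ih =>
      intro h1 h2
      rw [Multiset.prod_cons] at h2 ⊢
      have h3 := ih (fun q' hq' => h1 q' (Multiset.mem_cons_of_mem hq')) ((dvd_mul_left _ _).trans h2)
      have hqp := h1 q (Multiset.mem_cons_self _ _)
      have h4 : v (q.coeff 0 : P) = 1 := by
        by_cases h5 : q ∣ a₀
        · obtain ⟨g, rfl⟩ := h5
          rw [Polynomial.mul_coeff_zero] at ha1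
          exact hone _ _ ha1
        · exact hq q hqp ((dvd_mul_right _ _).trans h2) h5
      rw [Polynomial.mul_coeff_zero]
      have h6 : ((q.coeff 0 * s.prod.coeff 0 : v.valuationSubring) : P) =
        (q.coeff 0 : P) * (s.prod.coeff 0 : P) := rfl
      rw [h6, map_mul, h4, h3, one_mul]
  obtain ⟨s, hs, u, hu⟩ := UniqueFactorizationMonoid.exists_prime_factors d hd
  have h1 := key s hs ⟨(u : (v.valuationSubring)[X]), hu.symm⟩
  obtain ⟨c, hc, hcu⟩ := Polynomial.isUnit_iff.mp u.isUnit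
  rw [← hu, ← hcu, Polynomial.mul_coeff_zero, Polynomial.coeff_C_zero]
  have h6 : ((s.prod.coeff 0 * c : v.valuationSubring) : P) = (s.prod.coeff 0 : P) * (c : P) := rfl
  obtain ⟨c', hc'⟩ := hc.exists_right_inv
  rw [h6, map_mul, h1, one_mul]
  refine hone c c' ?_
  rw [hc']
  exact map_one v

variable {k P K L : Type*} [Field k] [CharZero k] [IsAlgClosed k] [Field P] [Field K] [Field L]
  [Algebra k P] [Algebra P K] [Algebra K L] [Algebra P L] [IsScalarTower P K L]
  [FiniteDimensional K L] [IsGalois K L]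

/-- (B3) with the field `L'` given -/
theorem exists_good_at' (k : Type*) [Field k] [CharZero k] [IsAlgClosed k] [Algebra k P] {x : K}
    (hx : Transcendental P x) (hK : ∀ z : K, z ∈ IntermediateField.adjoin P {x})
    {v : Valuation P ℤᵐ⁰} {w₀ : Valuation L ℤᵐ⁰} (hvw : ∀ a : P, v a = w₀ (algebraMap P L a))
    (hk : ∀ a : k, a ≠ 0 → v (algebraMap k P a) = 1) (hnt : ∃ a : P, a ≠ 0 ∧ v a ≠ 1)
    (hG : ∀ p : P[X], (∀ n, w₀ (algebraMap P L (p.coeff n)) ≤ 1) →
      (∃ n, w₀ (algebraMap P L (p.coeff n)) = 1) → w₀ (algebraMap K L (Polynomial.aeval x p)) = 1)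
    (hI : NoInert K w₀) (S : Finset P)
    (hS1 : ∀ e ∈ S, v e ≤ 1) (hS2 : ∀ e ∈ S, ∀ e' ∈ S, e ≠ e' → v (e - e') = 1)
    (hU : ∀ u : Valuation L ℤᵐ⁰, (∀ a : P, a ≠ 0 → u (algebraMap P L a) = 1) →
      (∀ e ∈ S, ¬ u (algebraMap K L (x - algebraMap P K e)) < 1) → NoInert K u)
    {e : P} (he : e ∈ S) {z : L} (hz : ∀ σ : L ≃ₐ[K] L, w₀ (σ z) < 1 ∨ w₀ (σ z - 1) < 1)
    {r : ℕ} (hr : ∀ m : ℕ, 0 < m → m ≤ Module.finrank K L → m ∣ r) (hr0 : 0 < r)
    {L' : Type*} [Field L'] [Algebra L L'] [Algebra K L'] [Algebra P L'] [IsScalarTower K L L']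
    [IsScalarTower P K L'] [IsScalarTower P L L'] [FiniteDimensional K L'] [IsGalois K L'] {y : L'}
    (hy : y ^ r = algebraMap K L' (x - algebraMap P K e))
    (hL' : ∀ z : L', z ∈ IntermediateField.adjoin L {y}) :
    ∃ h : (v.valuationSubring)[X], Good v K w₀ (algebraMap K L x) z h ∧ v (ev v e h) = 1 := by
  -- natural numbers
  have hchar : CharZero P := charZero_of_injective_algebraMap (algebraMap k P).injective
  have hvn : ∀ n : ℕ, n ≠ 0 → v (n : P) = 1 := by
    intro n hn
    have := hk (n : k) (Nat.cast_ne_zero.mpr hn)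
    rwa [map_natCast] at this
  have hwn₀ : ∀ n : ℕ, n ≠ 0 → w₀ (n : L) = 1 := by
    intro n hn
    rw [← map_natCast (algebraMap P L), ← hvw, hvn n hn]
  -- roots of unity
  haveI : NeZero (r : k) := ⟨Nat.cast_ne_zero.mpr hr0.ne'⟩
  obtain ⟨ζ, hζ⟩ := HasEnoughRootsOfUnity.exists_primitiveRoot k r
  have hζP : IsPrimitiveRoot (algebraMap k P ζ) r := hζ.map_of_injective (algebraMap k P).injective
  have hζ0 : ζ ≠ 0 := hζ.ne_zero hr0.ne'
  have hζO : IsPrimitiveRoot (⟨algebraMap k P ζ, (hk ζ hζ0).le⟩ : v.valuationSubring) r := by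
    refine IsPrimitiveRoot.of_map_of_injective (f := v.valuationSubring.subtype) ?_
      Subtype.val_injective
    exact hζP
  have hζL : ∀ ζ' : L', ζ' ^ r = 1 → ∃ c : P, algebraMap P L' c = ζ' := by
    intro ζ' h
    have h1 := hζP.map_of_injective (f := algebraMap P L') (algebraMap P L').injective
    haveI : NeZero r := ⟨hr0.ne'⟩
    obtain ⟨i, -, hi⟩ := h1.eq_pow_of_pow_eq_one h
    exact ⟨algebraMap k P ζ ^ i, by rw [map_pow]; exact hi⟩
  have hnt₀ : ∃ a : P, a ≠ 0 ∧ w₀ (algebraMap P L a) ≠ 1 := by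
    obtain ⟨a, ha, ha'⟩ := hnt
    exact ⟨a, ha, by rwa [← hvw]⟩
  obtain ⟨w, hw, hGy, hIw, h4⟩ := exists_ext (L' := L') hx hK hwn₀ hnt₀ hG hI
    (by rw [← hvw]; exact hS1 e he) hr0 hζL hy hL'
  have hlt : ∀ z : L, w (algebraMap L L' z) < 1 ↔ w₀ z < 1 := by
    intro z
    rcases eq_or_ne z 0 with rfl | hz0
    · simp
    · have h1 := hw z⁻¹
      rw [map_inv₀, map_inv₀, map_inv₀] at h1
      have hA : w (algebraMap L L' z) ≠ 0 := by
        rw [Valuation.ne_zero_iff]
        exact (map_ne_zero _).mpr hz0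
      have hB : w₀ z ≠ 0 := (Valuation.ne_zero_iff _).mpr hz0
      rw [inv_le_one₀ (zero_lt_iff.mpr hA), inv_le_one₀ (zero_lt_iff.mpr hB)] at h1
      rw [← not_le, ← not_le, not_iff_not]
      exact h1
  have hweq : ∀ z : L, w₀ z = 1 → w (algebraMap L L' z) = 1 := by
    intro z hz
    exact le_antisymm ((hw z).mpr hz.le) (not_lt.mp fun h => ((hlt z).mp h).ne hz)
  have hvw' : ∀ a : P, v a ≤ 1 ↔ w (algebraMap P L' a) ≤ 1 := by
    intro a
    rw [IsScalarTower.algebraMap_apply P L L', hw, ← hvw]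
  have hwn : ∀ n : ℕ, n ≠ 0 → w (n : L') = 1 := by
    intro n hn
    rw [← map_natCast (algebraMap L L')]
    exact hweq _ (hwn₀ n hn)
  have hvlt : ∀ a : P, v a < 1 ↔ w (algebraMap P L' a) < 1 := by
    intro a
    rw [IsScalarTower.algebraMap_apply P L L', hlt, ← hvw]
  have hy1 : Transcendental P y := by
    intro hy0
    apply hx
    have h1 : IsAlgebraic P (algebraMap K L' (x - algebraMap P K e)) := by rw [← hy]; exact hy0.pow r
    rw [isAlgebraic_algebraMap_iff (algebraMap K L').injective] at h1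
    have h2 := h1.add (isAlgebraic_algebraMap (R := P) (A := K) e)
    rwa [sub_add_cancel] at h2
  have hwy1 : w y = 1 := by
    have := hGy Polynomial.X (fun n => by
      rw [Polynomial.coeff_X]
      split_ifs <;> simp) ⟨1, by simp⟩
    rwa [Polynomial.aeval_X] at this
  have hwy : ∀ f : (v.valuationSubring)[X], w (ev v y f) ≤ 1 := fun f => ev_le_one hvw' hwy1.le f
  -- `K' = P(y)`
  have hK' : ∀ z : IntermediateField.adjoin K {y},
      algebraMap (IntermediateField.adjoin K {y}) L' z ∈ IntermediateField.adjoin P {y} := by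
    have hxy : algebraMap K L' x ∈ IntermediateField.adjoin P {y} := by
      have h1 : algebraMap K L' x = y ^ r + algebraMap P L' e := by
        rw [hy, map_sub, ← IsScalarTower.algebraMap_apply P K L', sub_add_cancel]
      rw [h1]
      exact add_mem (pow_mem (IntermediateField.mem_adjoin_simple_self P y) r)
        (IntermediateField.algebraMap_mem _ e)
    have hKK : ∀ c : K, algebraMap K L' c ∈ IntermediateField.adjoin P {y} := by
      intro c
      refine IntermediateField.adjoin_induction (F := P) (s := {x})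
        (p := fun c _ => algebraMap K L' c ∈ IntermediateField.adjoin P {y}) ?_ ?_ ?_ ?_ ?_ (hK c)
      · intro t ht
        rw [Set.mem_singleton_iff.mp ht]
        exact hxy
      · intro t
        rw [← IsScalarTower.algebraMap_apply P K L']
        exact IntermediateField.algebraMap_mem _ t
      · intro a b _ _ ha hb
        rw [map_add]; exact add_mem ha hb
      · intro a _ ha
        rw [map_inv₀]; exact inv_mem ha
      · intro a b _ _ ha hb
        rw [map_mul]; exact mul_mem ha hb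
    rintro ⟨z, hz⟩
    show z ∈ IntermediateField.adjoin P {y}
    refine IntermediateField.adjoin_induction (F := K) (s := {y})
      (p := fun c _ => c ∈ IntermediateField.adjoin P {y}) ?_ ?_ ?_ ?_ ?_ hz
    · intro t ht
      rw [Set.mem_singleton_iff.mp ht]
      exact IntermediateField.mem_adjoin_simple_self P y
    · exact hKK
    · intro a b _ _ ha hb
      exact add_mem ha hb
    · intro a _ ha
      exact inv_mem ha
    · intro a b _ _ ha hb
      exact mul_mem ha hb
  have hz' : ∀ σ : L' ≃ₐ[IntermediateField.adjoin K {y}] L',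
      w (σ (algebraMap L L' z)) < 1 ∨ w (σ (algebraMap L L' z) - 1) < 1 := by
    intro σ
    have h1 : algebraMap L L' ((σ.restrictScalars K).restrictNormal L z) = σ (algebraMap L L' z) :=
      AlgEquiv.restrictNormal_commutes (σ.restrictScalars K) L z
    rw [← h1, hlt, ← map_one (algebraMap L L'), ← map_sub, hlt]
    exact hz _
  haveI : IsScalarTower P (IntermediateField.adjoin K {y}) L' :=
    IsScalarTower.of_algebraMap_eq fun a => rfl
  obtain ⟨d, a₀, hgood, ha₀, ⟨n, hn⟩, hprime⟩ := exists_numX (K := IntermediateField.adjoin K {y})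
    (v := v) (w := w) hnt hy1 hK' ⟨⟨y, IntermediateField.mem_adjoin_simple_self K y⟩, rfl⟩ hvw' hGy hIw
    hz'
  have hd0 : d ≠ 0 := by
    rintro rfl
    simp at hn
  refine good_at_aux hvn hwn (fun z h => (hlt z).mp h) (hS1 e he) hr0 hζO hy hwy h4 hgood ?_
  refine coeff_zero_unit hnt ha₀ hd0 fun q hq hqd hqa => ?_
  by_contra hq0
  have hq0' : v (q.coeff 0 : P) < 1 := lt_of_le_of_ne (q.coeff 0).2 hq0
  obtain ⟨-, w', hw'1, hw'2, hw'3⟩ := hprime q hq hqd hqa
  exact hw'3 (noInert_of_point hx hK hvn S hS1 hS2 hU he hr hr0 hy hL' hw'1 hq hq0' hw'2)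

/-- (B3) the descent: at a branch point `e` there is a numerator which is a unit at `π = x - e = 0` -/
theorem exists_good_at (k : Type*) [Field k] [CharZero k] [IsAlgClosed k] [Algebra k P] {x : K}
    (hx : Transcendental P x) (hK : ∀ z : K, z ∈ IntermediateField.adjoin P {x})
    {v : Valuation P ℤᵐ⁰} {w₀ : Valuation L ℤᵐ⁰} (hvw : ∀ a : P, v a = w₀ (algebraMap P L a))
    (hk : ∀ a : k, a ≠ 0 → v (algebraMap k P a) = 1) (hnt : ∃ a : P, a ≠ 0 ∧ v a ≠ 1)
    (hG : ∀ p : P[X], (∀ n, w₀ (algebraMap P L (p.coeff n)) ≤ 1) →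
      (∃ n, w₀ (algebraMap P L (p.coeff n)) = 1) → w₀ (algebraMap K L (Polynomial.aeval x p)) = 1)
    (hI : NoInert K w₀) (S : Finset P)
    (hS1 : ∀ e ∈ S, v e ≤ 1) (hS2 : ∀ e ∈ S, ∀ e' ∈ S, e ≠ e' → v (e - e') = 1)
    (hU : ∀ u : Valuation L ℤᵐ⁰, (∀ a : P, a ≠ 0 → u (algebraMap P L a) = 1) →
      (∀ e ∈ S, ¬ u (algebraMap K L (x - algebraMap P K e)) < 1) → NoInert K u)
    {e : P} (he : e ∈ S) {z : L} (hz : ∀ σ : L ≃ₐ[K] L, w₀ (σ z) < 1 ∨ w₀ (σ z - 1) < 1) :
    ∃ h : (v.valuationSubring)[X], Good v K w₀ (algebraMap K L x) z h ∧ v (ev v e h) = 1 := by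
  letI : Algebra k K := ((algebraMap P K).comp (algebraMap k P)).toAlgebra
  have hc : x - algebraMap P K e ≠ 0 := by
    intro h0
    apply hx
    rw [sub_eq_zero.mp h0]
    exact isAlgebraic_algebraMap e
  obtain ⟨L', y, h1, h2, h3, h4⟩ := exists_field k (P := P) (K := K) (L := L)
    (Nat.factorial_pos (Module.finrank K L)) (x - algebraMap P K e) hc
  haveI : IsScalarTower P K L' := IsScalarTower.of_algebraMap_eq fun a => by
    rw [IsScalarTower.algebraMap_apply P L L', IsScalarTower.algebraMap_apply K L L',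
      IsScalarTower.algebraMap_apply P K L]
  exact exists_good_at' k hx hK hvw hk hnt hG hI S hS1 hS2 hU he hz
    (r := (Module.finrank K L).factorial) (fun m hm hm' => Nat.dvd_factorial hm hm')
    (Nat.factorial_pos _) (L' := L') h3 h4

end B3

end Pf72953.Ug
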