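import Mathlib
import Pool.Agent.Lib.Pf72953x.NumX

/-!
Uniqueness of the place over the Gauss valuation: the charts `x` and `x⁻¹`.
-/

set_option autoImplicit false
set_option linter.style.haveILetI false

open scoped WithZero Polynomial
open Pf72953

namespace Pf72953.Ug

variable {P L : Type*} [Field P] [Field L] [Algebra P L] {v : Valuation P ℤᵐ⁰} {w : Valuation L ℤᵐ⁰}

/-- the inclusion of the valuation ring -/
noncomputable def inc (v : Valuation P ℤᵐ⁰) (L : Type*) [Field L] [Algebra P L] :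
    v.valuationSubring →+* L :=
  (algebraMap P L).comp (algebraMap v.valuationSubring P)

theorem ev_eq_eval₂ (y : L) (f : (v.valuationSubring)[X]) : ev v y f = f.eval₂ (inc v L) y := by
  rw [ev_apply, Polynomial.aeval_def, Polynomial.eval₂_map]
  rfl

/-- the value at `x⁻¹` of the reflected polynomial -/
theorem ev_reflect {x : L} (hx : x ≠ 0) {N : ℕ} {f : (v.valuationSubring)[X]}
    (hf : f.natDegree ≤ N) : ev v x⁻¹ (f.reflect N) * x ^ N = ev v x f := by
  letI : Invertible x := invertibleOfNonzero hx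
  rw [ev_eq_eval₂, ev_eq_eval₂, ← Polynomial.eval₂_reflect_mul_pow (inc v L) x N f hf,
    invOf_eq_inv]

/-- an element integral over `O[x]` becomes integral over `O[x⁻¹]` after multiplication by a power of `x⁻¹` -/
theorem IntX.exists_pow {x b : L} (hx : x ≠ 0) (hb : IntX v x b) :
    ∃ N₀ : ℕ, ∀ N, N₀ ≤ N → IntX v x⁻¹ (x⁻¹ ^ N * b) := by
  classical
  obtain ⟨F, hF, hFb⟩ := hb
  set k := F.natDegree with hk
  refine ⟨(Finset.range k).sup fun i => (F.coeff i).natDegree, fun N hN => ?_⟩
  have hdeg : ∀ i < k, (F.coeff i).natDegree ≤ N * (k - i) := by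
    intro i hi
    have h1 : (F.coeff i).natDegree ≤ (Finset.range k).sup fun i => (F.coeff i).natDegree :=
      Finset.le_sup (f := fun i => (F.coeff i).natDegree) (Finset.mem_range.2 hi)
    calc (F.coeff i).natDegree ≤ N * 1 := by rw [mul_one]; exact h1.trans hN
      _ ≤ N * (k - i) := Nat.mul_le_mul_left N (by omega)
  let a : Fin k → (v.valuationSubring)[X] := fun i => (F.coeff i).reflect (N * (k - i))
  refine ⟨Polynomial.X ^ k + ∑ i : Fin k, Polynomial.C (a i) * Polynomial.X ^ (i : ℕ),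
    Polynomial.monic_X_pow_add (Polynomial.degree_sum_fin_lt a), ?_⟩
  have hx' : x ^ (N * k) ≠ 0 := pow_ne_zero _ hx
  apply (mul_eq_zero.1 ?_).resolve_left hx'
  have hFb' : b ^ k + ∑ i : Fin k, ev v x (F.coeff i) * b ^ (i : ℕ) = 0 := by
    rw [← hFb, Polynomial.eval₂_eq_sum_range, Finset.sum_range_succ, ← hk, hF.coeff_natDegree,
      map_one, one_mul, Finset.sum_range (fun i => ev v x (F.coeff i) * b ^ i), add_comm]
  rw [Polynomial.eval₂_add, Polynomial.eval₂_pow, Polynomial.eval₂_X, Polynomial.eval₂_finsetSum,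
    mul_add, Finset.mul_sum, ← hFb']
  have hxN : ∀ i : ℕ, x ^ (N * i) * (x⁻¹ ^ N * b) ^ i = b ^ i := by
    intro i
    rw [mul_pow, ← pow_mul, ← mul_assoc, ← mul_pow, mul_inv_cancel₀ hx, one_pow, one_mul]
  congr 1
  · exact hxN k
  · refine Finset.sum_congr rfl fun i _ => ?_
    rw [Polynomial.eval₂_mul, Polynomial.eval₂_C, Polynomial.eval₂_pow, Polynomial.eval₂_X,
      ← ev_reflect hx (hdeg i i.2)]
    have h1 : x ^ (N * k) = x ^ (N * (k - i)) * x ^ (N * i) := by
      rw [← pow_add, ← Nat.mul_add, Nat.sub_add_cancel i.2.le]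
    rw [h1, ← hxN i]
    ring

theorem IntX.add {y b c : L} (hb : IntX v y b) (hc : IntX v y c) : IntX v y (b + c) :=
  RingHom.IsIntegralElem.add _ hb hc

theorem IntX.mul {y b c : L} (hb : IntX v y b) (hc : IntX v y c) : IntX v y (b * c) :=
  RingHom.IsIntegralElem.mul _ hb hc

theorem IntX.zero {y : L} : IntX v y 0 := RingHom.isIntegralElem_zero _

theorem IntX.ev {y : L} (f : (v.valuationSubring)[X]) : IntX v y (ev v y f) :=
  RingHom.isIntegralElem_map _

/-- the Gauss property passes to the inverse -/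
theorem gauss_inv {x : L} (hx : Transcendental P x)
    (hG : ∀ p : P[X], (∀ n, w (algebraMap P L (p.coeff n)) ≤ 1) →
      (∃ n, w (algebraMap P L (p.coeff n)) = 1) → w (Polynomial.aeval x p) = 1) (p : P[X])
    (h1 : ∀ n, w (algebraMap P L (p.coeff n)) ≤ 1)
    (h2 : ∃ n, w (algebraMap P L (p.coeff n)) = 1) : w (Polynomial.aeval x⁻¹ p) = 1 := by
  have hx0 : x ≠ 0 := by
    rintro rfl
    exact hx isAlgebraic_zero
  have hwx : w x = 1 := by
    have h1 := hG Polynomial.X (fun n => by
      rw [Polynomial.coeff_X]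
      split_ifs <;> simp) ⟨1, by rw [Polynomial.coeff_X_one, map_one, map_one]⟩
    rwa [Polynomial.aeval_X] at h1
  letI : Invertible x⁻¹ := invertibleOfNonzero (inv_ne_zero hx0)
  have h3 := Polynomial.eval₂_reflect_mul_pow (algebraMap P L) x⁻¹ p.natDegree p le_rfl
  rw [invOf_eq_inv, inv_inv] at h3
  rw [Polynomial.aeval_def, ← h3, map_mul, map_pow, map_inv₀, hwx, inv_one, one_pow, mul_one,
    ← Polynomial.aeval_def]
  refine hG _ (fun n => ?_) ?_
  · rw [Polynomial.coeff_reflect]
    exact h1 _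
  · obtain ⟨n, hn⟩ := h2
    refine ⟨Polynomial.revAt p.natDegree n, ?_⟩
    rw [Polynomial.coeff_reflect, Polynomial.revAt_invol]
    exact hn

end Pf72953.Ug
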