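import Mathlib
import Pool.Agent.Lib.Pf72953x.Refl

/-!
Uniqueness of the place over the Gauss valuation: the idempotents on the two charts.
-/

set_option autoImplicit false
set_option linter.style.haveILetI false

open scoped WithZero Polynomial
open Pf72953

namespace Pf72953.Ug

/-- the residue of the idempotent of `w` -/
theorem exists_approx_idem {K L : Type*} [Field K] [Field L] [Algebra K L] [FiniteDimensional K L]
    {w : Valuation L ℤᵐ⁰} (hnt : ∃ s : L, s ≠ 0 ∧ w s < 1) :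
    ∃ z : L, ∀ σ : L ≃ₐ[K] L, (Br.InertiaAux.Dc w σ → w (σ z - 1) < 1) ∧
      (¬ Br.InertiaAux.Dc w σ → w (σ z) < 1) := by
  classical
  obtain ⟨s, hs0, hs1⟩ := hnt
  have hws : w s ≠ 0 := (Valuation.ne_zero_iff w).2 hs0
  have hws0 : 0 < w s := zero_lt_iff.2 hws
  have h0 : ∃ y, 1 < w y := ⟨s⁻¹, by rw [map_inv₀]; exact (one_lt_inv₀ hws0).2 hs1⟩
  set T : Finset (L ≃ₐ[K] L) := Finset.univ.filter (fun σ => ¬ Br.InertiaAux.Dc w σ) with hT
  have hsep : ∀ τ ∈ T, ∃ y, 1 < w y ∧ (w.comap (τ : L →+* L)) y < 1 := by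
    intro τ hτ
    have hτ' : ¬ Br.InertiaAux.Dc w τ := (Finset.mem_filter.1 hτ).2
    unfold Br.InertiaAux.Dc at hτ'
    push Not at hτ'
    obtain ⟨z, hz1, hz2⟩ := hτ'
    have hz0 : z ≠ 0 := by
      rintro rfl
      rw [map_zero, map_zero] at hz2
      exact absurd hz2 (not_lt.2 zero_le)
    have hinv : w (τ z⁻¹) < 1 := by
      rw [map_inv₀, map_inv₀]
      exact inv_lt_one_of_one_lt₀ hz2
    obtain ⟨n, hn⟩ := Br.InertiaAux.pow_arch (w (τ s⁻¹)) hinv
    refine ⟨(z⁻¹) ^ n * s⁻¹, ?_, ?_⟩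
    · rw [map_mul, map_pow]
      refine one_lt_mul_of_le_of_lt (one_le_pow₀ ?_) ?_
      · rw [map_inv₀]
        exact (one_le_inv₀ (zero_lt_iff.2 ((Valuation.ne_zero_iff w).2 hz0))).2 hz1
      · rw [map_inv₀]
        exact (one_lt_inv₀ hws0).2 hs1
    · rw [Valuation.comap_apply, map_mul, map_pow, map_mul, map_pow]
      exact hn n le_rfl
  obtain ⟨e, he1, he2⟩ := Br.InertiaAux.approx w h0 T (fun τ => w.comap (τ : L →+* L)) hsep
    (fun _ => 1)
  refine ⟨e, fun σ => ⟨fun hσ => ?_, fun hσ => ?_⟩⟩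
  · have h1 : σ e - 1 = σ (e - 1) := by rw [map_sub, map_one]
    rw [h1, Br.InertiaAux.Dc_eq hσ]
    exact he1
  · have h1 := he2 σ (Finset.mem_filter.2 ⟨Finset.mem_univ _, hσ⟩)
    rwa [Valuation.comap_apply, mul_one] at h1

section ideal

variable {P K L : Type*} [Field P] [Field K] [Field L] [Algebra P K] [Algebra K L] [Algebra P L]
  [IsScalarTower P K L] {v : Valuation P ℤᵐ⁰} {w : Valuation L ℤᵐ⁰}

/-- the automorphisms fix `O[y]` -/
theorem sigma_ev {y : L} (hyK : ∃ y' : K, algebraMap K L y' = y) (σ : L ≃ₐ[K] L)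
    (f : (v.valuationSubring)[X]) : σ (ev v y f) = ev v y f := by
  obtain ⟨y', rfl⟩ := hyK
  rw [ev_apply, Polynomial.aeval_algebraMap_apply, AlgEquiv.commutes]

/-- the ideal of the numerators -/
def goodIdeal (hvw : ∀ a : P, v a ≤ 1 ↔ w (algebraMap P L a) ≤ 1) {y : L}
    (hyK : ∃ y' : K, algebraMap K L y' = y) (hy : w y ≤ 1) (z : L) :
    Ideal (v.valuationSubring)[X] where
  carrier := {h | Good v K w y z h}
  add_mem' := by
    rintro h₁ h₂ ⟨b₁, hb₁, h1⟩ ⟨b₂, hb₂, h2⟩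
    refine ⟨b₁ + b₂, hb₁.add hb₂, fun σ => ?_⟩
    have h3 : b₁ + b₂ - ev v y (h₁ + h₂) * z = (b₁ - ev v y h₁ * z) + (b₂ - ev v y h₂ * z) := by
      rw [map_add]; ring
    rw [h3, map_add]
    exact Valuation.map_add_lt w (h1 σ) (h2 σ)
  zero_mem' := ⟨0, IntX.zero, fun σ => by simp⟩
  smul_mem' := by
    rintro f h ⟨b, hb, h1⟩
    refine ⟨ev v y f * b, (IntX.ev f).mul hb, fun σ => ?_⟩
    have h3 : ev v y f * b - ev v y (f • h) * z = ev v y f * (b - ev v y h * z) := by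
      rw [smul_eq_mul, map_mul]; ring
    rw [h3, map_mul, map_mul, sigma_ev hyK]
    exact (mul_le_of_le_one_left' (ev_le_one hvw hy f)).trans_lt (h1 σ)

theorem mem_goodIdeal {hvw : ∀ a : P, v a ≤ 1 ↔ w (algebraMap P L a) ≤ 1} {y : L}
    {hyK : ∃ y' : K, algebraMap K L y' = y} {hy : w y ≤ 1} {z : L} {h : (v.valuationSubring)[X]} :
    h ∈ goodIdeal (K := K) hvw hyK hy z ↔ Good v K w y z h := Iff.rfl

/-- the polynomials divisible by `π` -/
theorem small_mem {hvw : ∀ a : P, v a ≤ 1 ↔ w (algebraMap P L a) ≤ 1} {y : L}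
    {hyK : ∃ y' : K, algebraMap K L y' = y} {hy : w y ≤ 1} {z : L}
    (hz : ∀ σ : L ≃ₐ[K] L, w (σ z) ≤ 1) {h : (v.valuationSubring)[X]}
    (hh : ∀ n, v (h.coeff n : P) < 1) : h ∈ goodIdeal (K := K) hvw hyK hy z := by
  refine ⟨0, IntX.zero, fun σ => ?_⟩
  rw [zero_sub, map_neg, Valuation.map_neg, map_mul, sigma_ev hyK, map_mul]
  have h1 : w (ev v y h) < 1 := by
    rw [ev_apply, Polynomial.aeval_eq_sum_range]
    refine Valuation.map_sum_lt w one_ne_zero fun i _ => ?_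
    rw [Algebra.smul_def, map_mul, map_pow, Polynomial.coeff_map]
    exact (mul_le_of_le_one_right' (pow_le_one' hy i)).trans_lt ((lt_iff hvw _).1 (hh i))
  exact (mul_le_of_le_one_right' (hz σ)).trans_lt h1

/-- a prime factor in a prime ideal -/
theorem exists_factor {A : Type*} [CommRing A] [IsDomain A] [UniqueFactorizationMonoid A] {d : A}
    (hd : d ≠ 0) {I : Ideal A} [hI : I.IsPrime] (h : d ∈ I) : ∃ q, Prime q ∧ q ∣ d ∧ q ∈ I := by
  obtain ⟨F, hF, hFd⟩ := UniqueFactorizationMonoid.exists_prime_factors d hd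
  have h1 : F.prod ∈ I := by
    obtain ⟨c, hc⟩ := hFd.symm
    rw [← hc]
    exact I.mul_mem_right _ h
  obtain ⟨q, hq, hqI⟩ := (hI.multiset_prod_mem_iff_exists_mem F).1 h1
  exact ⟨q, hF q hq, (Multiset.dvd_prod hq).trans hFd.dvd, hqI⟩

end ideal

end Pf72953.Ug
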