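import Mathlib
import Pool.Agent.Lib.Pf72953x.IdemA

/-!
Uniqueness of the place over the Gauss valuation: the idempotents on the two charts.
-/

set_option autoImplicit false
set_option linter.style.haveILetI false

open scoped WithZero Polynomial
open Pf72953

namespace Pf72953.Ug

section main

variable {P K L : Type*} [Field P] [Field K] [Field L] [Algebra P K] [Algebra K L] [Algebra P L]
  [IsScalarTower P K L] {v : Valuation P ℤᵐ⁰}

theorem mem_maximalIdeal_iff (a : v.valuationSubring) :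
    a ∈ IsLocalRing.maximalIdeal v.valuationSubring ↔ v (a : P) < 1 := by
  rw [IsLocalRing.mem_maximalIdeal, mem_nonunits_iff, unit_iff]
  exact ⟨fun h => lt_of_le_of_ne a.2 h, fun h => h.ne⟩

/-- the values of polynomials at constants -/
theorem ev_const (e : P) (he : v e ≤ 1) (h : (v.valuationSubring)[X]) :
    ev v e h = ((h.eval (⟨e, he⟩ : v.valuationSubring) : v.valuationSubring) : P) := by
  rw [ev_eq_eval₂]
  exact Polynomial.eval₂_at_apply (inc v P) (⟨e, he⟩ : v.valuationSubring)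

theorem ev_X_sub_C (y : L) (e : P) (he : v e ≤ 1) :
    ev v y (Polynomial.X - Polynomial.C (⟨e, he⟩ : v.valuationSubring)) = y - algebraMap P L e := by
  rw [map_sub, ev_X, ev_C]

/-- the numerators at the finite points -/
theorem one_mem [FiniteDimensional K L] [IsGalois K L] {x : K} (hx : Transcendental P x)
    (hK : ∀ z : K, z ∈ IntermediateField.adjoin P {x})
    {w₀ : Valuation L ℤᵐ⁰} (hvw : ∀ a : P, v a ≤ 1 ↔ w₀ (algebraMap P L a) ≤ 1)
    (hnt : ∃ a : P, a ≠ 0 ∧ v a ≠ 1)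
    (hG : ∀ p : P[X], (∀ n, w₀ (algebraMap P L (p.coeff n)) ≤ 1) →
      (∃ n, w₀ (algebraMap P L (p.coeff n)) = 1) → w₀ (Polynomial.aeval (algebraMap K L x) p) = 1)
    (hI : NoInert K w₀) (S : Finset P) (hS1 : ∀ e ∈ S, v e ≤ 1)
    (hU : ∀ u : Valuation L ℤᵐ⁰, (∀ a : P, a ≠ 0 → u (algebraMap P L a) = 1) →
      (∀ e ∈ S, ¬ u (algebraMap K L (x - algebraMap P K e)) < 1) → NoInert K u)
    {z : L} (hz : ∀ σ : L ≃ₐ[K] L, w₀ (σ z) < 1 ∨ w₀ (σ z - 1) < 1)
    (hB : ∀ e ∈ S, ∃ h : (v.valuationSubring)[X], Good v K w₀ (algebraMap K L x) z h ∧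
      v (ev v e h) = 1) :
    Good v K w₀ (algebraMap K L x) z 1 := by
  classical
  have hyK : ∃ y' : K, algebraMap K L y' = algebraMap K L x := ⟨x, rfl⟩
  have hX : Transcendental P (algebraMap K L x) := by
    rw [transcendental_algebraMap_iff (algebraMap K L).injective]
    exact hx
  have hy : w₀ (algebraMap K L x) ≤ 1 := by
    have h1 := hG Polynomial.X (fun n => by
      rw [Polynomial.coeff_X]
      split_ifs <;> simp) ⟨1, by rw [Polynomial.coeff_X_one, map_one, map_one]⟩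
    rw [Polynomial.aeval_X] at h1
    exact h1.le
  have hz1 : ∀ σ : L ≃ₐ[K] L, w₀ (σ z) ≤ 1 := by
    intro σ
    rcases hz σ with h | h
    · exact h.le
    · have h1 : σ z = (σ z - 1) + 1 := by ring
      rw [h1]
      exact (w₀.map_add _ _).trans (max_le h.le (by rw [map_one]))
  have hK' : ∀ c : K, algebraMap K L c ∈ IntermediateField.adjoin P {algebraMap K L x} := by
    intro c
    obtain ⟨r, s, hrs⟩ := (IntermediateField.mem_adjoin_simple_iff P _).1 (hK c)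
    refine (IntermediateField.mem_adjoin_simple_iff P _).2 ⟨r, s, ?_⟩
    rw [hrs, map_div₀, Polynomial.aeval_algebraMap_apply, Polynomial.aeval_algebraMap_apply]
  haveI hdvr : IsDiscreteValuationRing v.valuationSubring := Pur.dvr_of_nontrivial hnt
  obtain ⟨d, a₀, hd, ha₀, ⟨n, hdn⟩, hq⟩ := exists_numX hnt hX hK' hyK hvw hG hI hz
  set I := goodIdeal (K := K) hvw hyK hy z with hIdef
  change (1 : (v.valuationSubring)[X]) ∈ I
  by_contra hne
  obtain ⟨M, hM, hIM⟩ := Ideal.exists_le_maximal I (fun h => hne ((Ideal.eq_top_iff_one I).1 h))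
  haveI := hM.isPrime
  have hd0 : d ≠ 0 := by
    rintro rfl
    rw [Polynomial.coeff_zero, ZeroMemClass.coe_zero, map_zero] at hdn
    exact zero_ne_one hdn
  obtain ⟨q, hqp, hqd, hqM⟩ := exists_factor hd0 (hIM (show d ∈ I from hd))
  have hqa : ¬ q ∣ a₀ := by
    intro h
    have h1 : a₀ ∈ M := M.mem_of_dvd h hqM
    have h2 : a₀ - 1 ∈ M := hIM (small_mem hz1 ha₀)
    exact hM.ne_top ((Ideal.eq_top_iff_one M).2 (by
      have h3 := M.sub_mem h1 h2
      rwa [sub_sub_cancel] at h3))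
  obtain ⟨-, w', hw', hwq, hno⟩ := hq q hqp hqd hqa
  have h1 : ∃ e ∈ S, w' (algebraMap K L (x - algebraMap P K e)) < 1 := by
    by_contra hcon
    push Not at hcon
    exact hno (hU w' hw' fun e he => not_lt.2 (hcon e he))
  obtain ⟨e, he, hwe⟩ := h1
  set E : v.valuationSubring := ⟨e, hS1 e he⟩ with hE
  have h2 : q ∣ Polynomial.X - Polynomial.C E := by
    refine ((hwq _).2).1 ?_
    rw [hE, ev_X_sub_C]
    rwa [map_sub, ← IsScalarTower.algebraMap_apply] at hwe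
  have h3 : Polynomial.X - Polynomial.C E ∈ M := by
    have h4 : Associated q (Polynomial.X - Polynomial.C E) :=
      (hqp.dvd_prime_iff_associated (Polynomial.prime_X_sub_C E)).1 h2
    exact M.mem_of_dvd h2 hqM
  obtain ⟨h, hh, hhe⟩ := hB e he
  have h4 : h ∈ M := hIM (show h ∈ I from hh)
  have h5 : Polynomial.C (h.eval E) ∈ M := by
    obtain ⟨g, hg⟩ := Polynomial.X_sub_C_dvd_sub_C_eval (p := h) (a := E)
    have h6 : Polynomial.C (h.eval E) = h - (Polynomial.X - Polynomial.C E) * g := by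
      rw [← hg]; ring
    rw [h6]
    exact M.sub_mem h4 (M.mul_mem_right _ h3)
  refine hM.ne_top (M.eq_top_of_isUnit_mem h5 (Polynomial.isUnit_C.2 ((unit_iff _).2 ?_)))
  rw [← ev_const e (hS1 e he) h]
  exact hhe

/-- the numerators at infinity -/
theorem one_mem_inv [FiniteDimensional K L] [IsGalois K L] {x : K} (hx : Transcendental P x)
    (hK : ∀ z : K, z ∈ IntermediateField.adjoin P {x})
    {w₀ : Valuation L ℤᵐ⁰} (hvw : ∀ a : P, v a ≤ 1 ↔ w₀ (algebraMap P L a) ≤ 1)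
    (hnt : ∃ a : P, a ≠ 0 ∧ v a ≠ 1)
    (hG : ∀ p : P[X], (∀ n, w₀ (algebraMap P L (p.coeff n)) ≤ 1) →
      (∃ n, w₀ (algebraMap P L (p.coeff n)) = 1) → w₀ (Polynomial.aeval (algebraMap K L x) p) = 1)
    (hI : NoInert K w₀) (S : Finset P) (hS1 : ∀ e ∈ S, v e ≤ 1)
    (hU : ∀ u : Valuation L ℤᵐ⁰, (∀ a : P, a ≠ 0 → u (algebraMap P L a) = 1) →
      (∀ e ∈ S, ¬ u (algebraMap K L (x - algebraMap P K e)) < 1) → NoInert K u)
    {z : L} (hz : ∀ σ : L ≃ₐ[K] L, w₀ (σ z) < 1 ∨ w₀ (σ z - 1) < 1)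
    (h1 : Good v K w₀ (algebraMap K L x) z 1) :
    Good v K w₀ (algebraMap K L x)⁻¹ z 1 := by
  classical
  have hx0 : x ≠ 0 := by
    rintro rfl
    exact hx isAlgebraic_zero
  have hX0 : algebraMap K L x ≠ 0 := (map_ne_zero (algebraMap K L)).2 hx0
  have hyK : ∃ y' : K, algebraMap K L y' = (algebraMap K L x)⁻¹ := ⟨x⁻¹, by rw [map_inv₀]⟩
  have hX : Transcendental P (algebraMap K L x) := by
    rw [transcendental_algebraMap_iff (algebraMap K L).injective]
    exact hx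
  have hXi : Transcendental P (algebraMap K L x)⁻¹ := by
    intro h
    have h2 := h.inv
    rw [inv_inv] at h2
    exact hX h2
  have hwx : w₀ (algebraMap K L x) = 1 := by
    have h1 := hG Polynomial.X (fun n => by
      rw [Polynomial.coeff_X]
      split_ifs <;> simp) ⟨1, by rw [Polynomial.coeff_X_one, map_one, map_one]⟩
    rwa [Polynomial.aeval_X] at h1
  have hy : w₀ (algebraMap K L x)⁻¹ ≤ 1 := by rw [map_inv₀, hwx, inv_one]
  have hz1 : ∀ σ : L ≃ₐ[K] L, w₀ (σ z) ≤ 1 := by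
    intro σ
    rcases hz σ with h | h
    · exact h.le
    · have h1 : σ z = (σ z - 1) + 1 := by ring
      rw [h1]
      exact (w₀.map_add _ _).trans (max_le h.le (by rw [map_one]))
  have hK' : ∀ c : K, algebraMap K L c ∈ IntermediateField.adjoin P {(algebraMap K L x)⁻¹} := by
    intro c
    have h2 : IntermediateField.adjoin P {algebraMap K L x} ≤
        IntermediateField.adjoin P {(algebraMap K L x)⁻¹} := by
      rw [IntermediateField.adjoin_simple_le_iff]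
      have h3 := inv_mem (IntermediateField.mem_adjoin_simple_self P (algebraMap K L x)⁻¹)
      rwa [inv_inv] at h3
    apply h2
    obtain ⟨r, s, hrs⟩ := (IntermediateField.mem_adjoin_simple_iff P _).1 (hK c)
    refine (IntermediateField.mem_adjoin_simple_iff P _).2 ⟨r, s, ?_⟩
    rw [hrs, map_div₀, Polynomial.aeval_algebraMap_apply, Polynomial.aeval_algebraMap_apply]
  haveI hdvr : IsDiscreteValuationRing v.valuationSubring := Pur.dvr_of_nontrivial hnt
  obtain ⟨d, a₀, hd, ha₀, ⟨n, hdn⟩, hq⟩ :=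
    exists_numX hnt hXi hK' hyK hvw (gauss_inv hX hG) hI hz
  have hd0 : d ≠ 0 := by
    rintro rfl
    rw [Polynomial.coeff_zero, ZeroMemClass.coe_zero, map_zero] at hdn
    exact zero_ne_one hdn
  -- `d` is a unit at infinity
  have hdu : v (d.coeff 0 : P) = 1 := by
    refine le_antisymm (d.coeff 0).2 (not_lt.1 fun hlt => ?_)
    set I₀ : Ideal (v.valuationSubring)[X] :=
      (IsLocalRing.maximalIdeal v.valuationSubring).comap
        (Polynomial.constantCoeff : (v.valuationSubring)[X] →+* v.valuationSubring) with hI₀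
    haveI : I₀.IsPrime := Ideal.comap_isPrime _ _
    have hmem : ∀ f : (v.valuationSubring)[X], f ∈ I₀ ↔ v (f.coeff 0 : P) < 1 := by
      intro f
      rw [hI₀, Ideal.mem_comap, mem_maximalIdeal_iff]
      rfl
    obtain ⟨q, hqp, hqd, hqM⟩ := exists_factor (I := I₀) hd0 ((hmem d).2 hlt)
    have hqa : ¬ q ∣ a₀ := by
      intro h
      have h2 : a₀ ∈ I₀ := I₀.mem_of_dvd h hqM
      have h3 : a₀ - 1 ∈ I₀ := (hmem _).2 (ha₀ 0)
      have h4 := I₀.sub_mem h2 h3
      rw [sub_sub_cancel] at h4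
      have h5 := (hmem 1).1 h4
      simp at h5
    obtain ⟨-, w', hw', hwq, hno⟩ := hq q hqp hqd hqa
    have h1 : ∃ e ∈ S, w' (algebraMap K L (x - algebraMap P K e)) < 1 := by
      by_contra hcon
      push Not at hcon
      exact hno (hU w' hw' fun e he => not_lt.2 (hcon e he))
    obtain ⟨e, he, hwe⟩ := h1
    set E : v.valuationSubring := ⟨e, hS1 e he⟩ with hE
    have hwx1 : w' (algebraMap K L x)⁻¹ ≤ 1 := by
      have := (hwq Polynomial.X).1
      rwa [ev_X] at this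
    have h2 : q ∣ 1 - Polynomial.C E * Polynomial.X := by
      refine ((hwq _).2).1 ?_
      have h3 : ev v (algebraMap K L x)⁻¹ (1 - Polynomial.C E * Polynomial.X) =
          (algebraMap K L x)⁻¹ * algebraMap K L (x - algebraMap P K e) := by
        rw [map_sub, map_one, map_mul, ev_C, ev_X, map_sub, ← IsScalarTower.algebraMap_apply,
          mul_sub, inv_mul_cancel₀ hX0, mul_comm (algebraMap P L (E : P))]
      rw [h3, map_mul]
      exact (mul_le_of_le_one_left' hwx1).trans_lt hwe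
    have h3 := (hmem _).1 (I₀.mem_of_dvd h2 hqM)
    simp at h3
  obtain ⟨b, hb, hbz⟩ := h1
  set I := goodIdeal (K := K) hvw hyK hy z with hIdef
  -- a power of `x⁻¹`
  obtain ⟨N, hN⟩ := IntX.exists_pow hX0 hb
  have hXN : (Polynomial.X : (v.valuationSubring)[X]) ^ N ∈ I := by
    refine ⟨_, hN N le_rfl, fun σ => ?_⟩
    have h2 : (algebraMap K L x)⁻¹ ^ N * b - ev v (algebraMap K L x)⁻¹ (Polynomial.X ^ N) * z =
        (algebraMap K L x)⁻¹ ^ N * (b - ev v (algebraMap K L x) 1 * z) := by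
      rw [map_pow, ev_X, map_one]; ring
    rw [h2, map_mul, map_mul, map_pow, map_inv₀, AlgEquiv.commutes, map_pow, map_inv₀, hwx,
      inv_one, one_pow, one_mul]
    exact hbz σ
  change (1 : (v.valuationSubring)[X]) ∈ I
  by_contra hne
  obtain ⟨M, hM, hIM⟩ := Ideal.exists_le_maximal I (fun h => hne ((Ideal.eq_top_iff_one I).1 h))
  haveI := hM.isPrime
  have h2 : (Polynomial.X : (v.valuationSubring)[X]) ∈ M := hM.isPrime.mem_of_pow_mem N (hIM hXN)
  have h3 : Polynomial.C (d.coeff 0) ∈ M := by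
    have h4 : Polynomial.C (d.coeff 0) = d - d.divX * Polynomial.X := by
      rw [eq_sub_iff_add_eq, add_comm]
      exact Polynomial.divX_mul_X_add d
    rw [h4]
    exact M.sub_mem (hIM (show d ∈ I from hd)) (M.mul_mem_left _ h2)
  exact hM.ne_top (M.eq_top_of_isUnit_mem h3 (Polynomial.isUnit_C.2 ((unit_iff _).2 hdu)))

/-- the interface, from the numerators at the branch points -/
theorem exists_idem_aux [FiniteDimensional K L] [IsGalois K L] {x : K} (hx : Transcendental P x)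
    (hK : ∀ z : K, z ∈ IntermediateField.adjoin P {x})
    {w₀ : Valuation L ℤᵐ⁰} (hvw : ∀ a : P, v a ≤ 1 ↔ w₀ (algebraMap P L a) ≤ 1)
    (hnt : ∃ a : P, a ≠ 0 ∧ v a ≠ 1)
    (hG : ∀ p : P[X], (∀ n, w₀ (algebraMap P L (p.coeff n)) ≤ 1) →
      (∃ n, w₀ (algebraMap P L (p.coeff n)) = 1) → w₀ (algebraMap K L (Polynomial.aeval x p)) = 1)
    (hI : NoInert K w₀) (S : Finset P) (hS1 : ∀ e ∈ S, v e ≤ 1)
    (hU : ∀ u : Valuation L ℤᵐ⁰, (∀ a : P, a ≠ 0 → u (algebraMap P L a) = 1) →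
      (∀ e ∈ S, ¬ u (algebraMap K L (x - algebraMap P K e)) < 1) → NoInert K u)
    (hB : ∀ e ∈ S, ∀ z : L, (∀ σ : L ≃ₐ[K] L, w₀ (σ z) < 1 ∨ w₀ (σ z - 1) < 1) →
      ∃ h : (v.valuationSubring)[X], Good v K w₀ (algebraMap K L x) z h ∧ v (ev v e h) = 1) :
    ∃ e₁ e₂ : L, IntX v (algebraMap K L x) e₁ ∧ IntX v (algebraMap K L x)⁻¹ e₂ ∧
      ∀ σ : L ≃ₐ[K] L, (Br.InertiaAux.Dc w₀ σ → w₀ (σ e₁ - 1) < 1 ∧ w₀ (σ e₂ - 1) < 1) ∧
        (¬ Br.InertiaAux.Dc w₀ σ → w₀ (σ e₁) < 1 ∧ w₀ (σ e₂) < 1) := by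
  classical
  have hG' : ∀ p : P[X], (∀ n, w₀ (algebraMap P L (p.coeff n)) ≤ 1) →
      (∃ n, w₀ (algebraMap P L (p.coeff n)) = 1) →
      w₀ (Polynomial.aeval (algebraMap K L x) p) = 1 := by
    intro p h1 h2
    rw [Polynomial.aeval_algebraMap_apply]
    exact hG p h1 h2
  obtain ⟨a, ha, hva⟩ := hnt
  have hs : ∃ s : L, s ≠ 0 ∧ w₀ s < 1 := by
    have hne : ∀ a : P, a ≠ 0 → v a < 1 → ∃ s : L, s ≠ 0 ∧ w₀ s < 1 := fun a ha h =>
      ⟨algebraMap P L a, (map_ne_zero (algebraMap P L)).2 ha, (lt_iff hvw a).1 h⟩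
    rcases lt_or_gt_of_ne hva with h | h
    · exact hne a ha h
    · exact hne a⁻¹ (inv_ne_zero ha) (by rw [map_inv₀]; exact inv_lt_one_of_one_lt₀ h)
  obtain ⟨z, hz⟩ := exists_approx_idem (K := K) hs
  have hz' : ∀ σ : L ≃ₐ[K] L, w₀ (σ z) < 1 ∨ w₀ (σ z - 1) < 1 := fun σ => by
    by_cases h : Br.InertiaAux.Dc w₀ σ
    · exact Or.inr ((hz σ).1 h)
    · exact Or.inl ((hz σ).2 h)
  have h1 := one_mem hx hK hvw ⟨a, ha, hva⟩ hG' hI S hS1 hU hz' (fun e he => hB e he z hz')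
  have h2 := one_mem_inv hx hK hvw ⟨a, ha, hva⟩ hG' hI S hS1 hU hz' h1
  obtain ⟨e₁, he₁, h1⟩ := h1
  obtain ⟨e₂, he₂, h2⟩ := h2
  have key : ∀ (y e : L), (∀ σ : L ≃ₐ[K] L, w₀ (σ (e - ev v y 1 * z)) < 1) → ∀ σ : L ≃ₐ[K] L,
      (Br.InertiaAux.Dc w₀ σ → w₀ (σ e - 1) < 1) ∧ (¬ Br.InertiaAux.Dc w₀ σ → w₀ (σ e) < 1) := by
    intro y e h σ
    have h3 := h σ
    rw [map_one, one_mul, map_sub] at h3
    refine ⟨fun hσ => ?_, fun hσ => ?_⟩
    · have h4 : σ e - 1 = (σ e - σ z) + (σ z - 1) := by ring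
      rw [h4]
      exact Valuation.map_add_lt w₀ h3 ((hz σ).1 hσ)
    · have h4 : σ e = (σ e - σ z) + σ z := by ring
      rw [h4]
      exact Valuation.map_add_lt w₀ h3 ((hz σ).2 hσ)
  exact ⟨e₁, e₂, he₁, he₂, fun σ => ⟨fun hσ => ⟨(key _ _ h1 σ).1 hσ, (key _ _ h2 σ).1 hσ⟩,
    fun hσ => ⟨(key _ _ h1 σ).2 hσ, (key _ _ h2 σ).2 hσ⟩⟩⟩

end main

end Pf72953.Ug
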