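import Mathlib

/-!
Uniqueness of the place over the Gauss valuation: gluing of the two charts.
-/

set_option autoImplicit false

open scoped WithZero Polynomial

namespace Pf72953.Glue

section both

theorem intElem_pow {R L : Type*} [CommRing R] [CommRing L] {f : R →+* L} {b : L}
    (hb : f.IsIntegralElem b) (n : ℕ) : f.IsIntegralElem (b ^ n) := by
  induction n with
  | zero => rw [pow_zero]; exact f.isIntegralElem_one
  | succ n ih => rw [pow_succ]; exact ih.mul f hb

/-- an element integral over a subring of a valuation ring lies in the valuation ring -/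
theorem mem_of_isIntegralElem {R L : Type*} [CommRing R] [Field L] {f : R →+* L}
    {V : ValuationSubring L} (hV : ∀ a, f a ∈ V) {t : L} (ht : f.IsIntegralElem t) : t ∈ V := by
  obtain ⟨p, hp, hpt⟩ := ht
  have h1 : IsIntegral V t := by
    refine ⟨p.map (f.codRestrict V hV), hp.map _, ?_⟩
    rw [Polynomial.eval₂_map]
    exact hpt
  obtain ⟨y, hy⟩ := IsIntegrallyClosed.isIntegral_iff.1 h1
  rw [← hy]
  exact y.2

/-- the polynomials in an element of a valuation ring -/
theorem poly_mem {O L : Type*} [CommRing O] [Field L] {σ : O[X] →+* L} {V : ValuationSubring L}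
    (hC : ∀ a, σ (Polynomial.C a) ∈ V) (hX : σ Polynomial.X ∈ V) (f : O[X]) : σ f ∈ V := by
  induction f using Polynomial.induction_on' with
  | add p q hp hq => rw [map_add]; exact V.add_mem _ _ hp hq
  | monomial n a =>
    rw [← Polynomial.C_mul_X_pow_eq_monomial, map_mul, map_pow]
    exact V.mul_mem _ _ (hC a) (pow_mem hX n)

variable {O L : Type*} [CommRing O] [Field L] [Algebra O L]

/-- an element integral over `O[x]` and over `O[1/x]` is integral over `O` -/
theorem isIntegral_of_both {ρ ρ' : O[X] →+* L} (hρ : ρ.comp Polynomial.C = algebraMap O L)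
    (hρ' : ρ'.comp Polynomial.C = algebraMap O L) (hxy : ρ Polynomial.X * ρ' Polynomial.X = 1)
    {t : L} (h1 : ρ.IsIntegralElem t) (h2 : ρ'.IsIntegralElem t) : IsIntegral O t := by
  have hpoly : ∀ (σ : O[X] →+* L) (V : ValuationSubring L), σ.comp Polynomial.C = algebraMap O L →
      (∀ a, algebraMap O L a ∈ V) → σ Polynomial.X ∈ V → ∀ f, σ f ∈ V := by
    intro σ V hσ hV hX f
    refine poly_mem (fun a => ?_) hX f
    have h3 : σ (Polynomial.C a) = algebraMap O L a := by rw [← hσ]; rfl
    rw [h3]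
    exact hV a
  have key : t ∈ (integralClosure (Subring.closure (Set.range (algebraMap O L))) L).toSubring := by
    rw [← iInf_valuationSubring_superset, Subring.mem_iInf]
    rintro ⟨V, hV⟩
    have hV' : ∀ a, algebraMap O L a ∈ V := fun a => hV ⟨a, rfl⟩
    rcases V.mem_or_inv_mem (ρ Polynomial.X) with h | h
    · exact mem_of_isIntegralElem (hpoly ρ V hρ hV' h) h1
    · have h3 : ρ' Polynomial.X = (ρ Polynomial.X)⁻¹ := eq_inv_of_mul_eq_one_right hxy
      rw [← h3] at h
      exact mem_of_isIntegralElem (hpoly ρ' V hρ' hV' h) h2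
  have key2 : IsIntegral (Subring.closure (Set.range (algebraMap O L))) t := key
  have hle : ∀ z ∈ Subring.closure (Set.range (algebraMap O L)), z ∈ (algebraMap O L).range := by
    intro z hz
    have h3 : Subring.closure (Set.range (algebraMap O L)) ≤ (algebraMap O L).range :=
      Subring.closure_le.2 fun z hz => hz
    exact h3 hz
  letI : Algebra O (Subring.closure (Set.range (algebraMap O L))) :=
    ((algebraMap O L).codRestrict (Subring.closure (Set.range (algebraMap O L)))
      fun a => Subring.subset_closure ⟨a, rfl⟩).toAlgebra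
  haveI : IsScalarTower O (Subring.closure (Set.range (algebraMap O L))) L :=
    IsScalarTower.of_algebraMap_eq fun a => rfl
  haveI : Algebra.IsIntegral O (Subring.closure (Set.range (algebraMap O L))) := by
    refine ⟨fun z => ?_⟩
    obtain ⟨a, ha⟩ := hle z.1 z.2
    have h4 : z = algebraMap O (Subring.closure (Set.range (algebraMap O L))) a :=
      Subtype.ext ha.symm
    rw [h4]
    exact isIntegral_algebraMap
  exact isIntegral_trans t key2

/-- from one chart to the other -/
theorem flip {ρ ρ' : O[X] →+* L} (hρ : ρ.comp Polynomial.C = algebraMap O L)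
    (hρ' : ρ'.comp Polynomial.C = algebraMap O L) (hxy : ρ Polynomial.X * ρ' Polynomial.X = 1)
    {t : L} (ht : ρ.IsIntegralElem t) : ∃ m : ℕ, ρ'.IsIntegralElem (ρ' Polynomial.X ^ m * t) := by
  have hu : IsUnit (ρ' Polynomial.X) := IsUnit.of_mul_eq_one _ ((mul_comm _ _).trans hxy)
  set φ : Localization.Away (Polynomial.X : O[X]) →+* L :=
    IsLocalization.Away.lift (Polynomial.X : O[X]) hu with hφ
  have hφ1 : ∀ a : O[X], φ (algebraMap O[X] (Localization.Away (Polynomial.X : O[X])) a) = ρ' a :=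
    fun a => IsLocalization.Away.lift_eq (Polynomial.X : O[X]) hu a
  set ψ : O[X] →+* Localization.Away (Polynomial.X : O[X]) := Polynomial.eval₂RingHom
    ((algebraMap O[X] (Localization.Away (Polynomial.X : O[X]))).comp Polynomial.C)
    (IsLocalization.Away.invSelf (Polynomial.X : O[X])) with hψ
  have hcomp : φ.comp ψ = ρ := by
    refine Polynomial.ringHom_ext (fun a => ?_) ?_
    · rw [RingHom.comp_apply, hψ, Polynomial.coe_eval₂RingHom, Polynomial.eval₂_C,
        RingHom.comp_apply, hφ1]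
      have h3 : ρ' (Polynomial.C a) = algebraMap O L a := by rw [← hρ']; rfl
      have h4 : ρ (Polynomial.C a) = algebraMap O L a := by rw [← hρ]; rfl
      rw [h3, h4]
    · rw [RingHom.comp_apply, hψ, Polynomial.coe_eval₂RingHom, Polynomial.eval₂_X]
      have h3 : φ (IsLocalization.Away.invSelf (Polynomial.X : O[X])) * ρ' Polynomial.X = 1 := by
        rw [← hφ1, ← map_mul, mul_comm, IsLocalization.Away.mul_invSelf, map_one]
      exact (mul_right_cancel₀ hu.ne_zero (h3.trans hxy.symm))
  letI : Algebra O[X] L := ρ'.toAlgebra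
  letI : Algebra (Localization.Away (Polynomial.X : O[X])) L := φ.toAlgebra
  haveI : IsScalarTower O[X] (Localization.Away (Polynomial.X : O[X])) L :=
    IsScalarTower.of_algebraMap_eq fun a => (hφ1 a).symm
  have hint : IsIntegral (Localization.Away (Polynomial.X : O[X])) t := by
    obtain ⟨p, hp, hpt⟩ := ht
    refine ⟨p.map ψ, hp.map ψ, ?_⟩
    rw [Polynomial.eval₂_map]
    show Polynomial.eval₂ (φ.comp ψ) t p = 0
    rw [hcomp]
    exact hpt
  obtain ⟨⟨_, m, rfl⟩, hm⟩ := IsIntegral.exists_multiple_integral_of_isLocalization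
    (Submonoid.powers (Polynomial.X : O[X])) t hint
  refine ⟨m, ?_⟩
  have h5 : ρ' (Polynomial.X ^ m) * t = ρ' Polynomial.X ^ m * t := by rw [map_pow]
  rw [← h5]
  exact hm

end both

section core

variable {O L : Type*} [CommRing O] [Field L] [Algebra O L]

/-- the `O`-module of the elements integral over `ρ` -/
def intMod (ρ : O[X] →+* L) (hρ : ρ.comp Polynomial.C = algebraMap O L) : Submodule O L where
  carrier := {b | ρ.IsIntegralElem b}
  add_mem' := fun {_ _} ha hb => ha.add ρ hb
  zero_mem' := ρ.isIntegralElem_zero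
  smul_mem' := fun a b hb => by
    show ρ.IsIntegralElem (a • b)
    have h3 : ρ (Polynomial.C a) = algebraMap O L a := by rw [← hρ]; rfl
    rw [Algebra.smul_def, ← h3]
    exact (ρ.isIntegralElem_map (x := Polynomial.C a)).mul ρ hb

theorem mem_intMod {ρ : O[X] →+* L} {hρ : ρ.comp Polynomial.C = algebraMap O L} {b : L} :
    b ∈ intMod ρ hρ ↔ ρ.IsIntegralElem b := Iff.rfl

variable {ρ ρ' : O[X] →+* L}

/-- the torsion of the gluing module is bounded -/
theorem exists_bound [IsNoetherianRing O] (hρ : ρ.comp Polynomial.C = algebraMap O L)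
    (hρ' : ρ'.comp Polynomial.C = algebraMap O L) (hxy : ρ Polynomial.X * ρ' Polynomial.X = 1)
    (β : Finset L) (hβ : ∀ b ∈ β, ρ.IsIntegralElem b)
    (hgen : ∀ b : L, ρ.IsIntegralElem b → ∃ f : L → O[X], b = ∑ z ∈ β, ρ (f z) * z) (π : O) :
    ∃ c : ℕ, ∀ (n N : ℕ) (z : L), ρ.IsIntegralElem (ρ Polynomial.X ^ N * z) →
      π ^ n • z ∈ intMod ρ hρ ⊔ intMod ρ' hρ' → π ^ c • z ∈ intMod ρ hρ ⊔ intMod ρ' hρ' := by
  classical
  set x := ρ Polynomial.X with hx
  set y := ρ' Polynomial.X with hy
  have hyint : ρ'.IsIntegralElem y := ρ'.isIntegralElem_map (x := Polynomial.X)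
  have hxint : ρ.IsIntegralElem x := ρ.isIntegralElem_map (x := Polynomial.X)
  have hC : ∀ a : O, ρ (Polynomial.C a) = algebraMap O L a := fun a => by rw [← hρ]; rfl
  -- the exponent
  obtain ⟨M, hM⟩ : ∃ M : ℕ, ∀ b ∈ β, ρ'.IsIntegralElem (y ^ M * b) := by
    have h1 : ∀ b ∈ β, ∃ m : ℕ, ρ'.IsIntegralElem (y ^ m * b) := fun b hb =>
      flip hρ hρ' hxy (hβ b hb)
    choose! m hm using h1
    refine ⟨β.sup m, fun b hb => ?_⟩
    obtain ⟨d, hd⟩ := Nat.exists_eq_add_of_le (Finset.le_sup (f := m) hb)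
    rw [hd, pow_add, mul_comm (y ^ m b), mul_assoc]
    exact (intElem_pow hyint d).mul ρ' (hm b hb)
  set N' : Submodule O L := Submodule.span O
    (((β ×ˢ Finset.range M).image fun p => y ^ p.2 * p.1 : Finset L) : Set L) with hN'
  have : IsNoetherian O N' := isNoetherian_span_of_finite O (Finset.finite_toSet _)
  set BB := intMod ρ hρ ⊔ intMod ρ' hρ' with hBB
  -- every element of the glued module
  have hall : ∀ (N : ℕ) (z : L), ρ.IsIntegralElem (x ^ N * z) → z ∈ BB ⊔ N' := by
    intro N z hz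
    obtain ⟨f, hf⟩ := hgen _ hz
    have h1 : z = ∑ b ∈ β, y ^ N * ρ (f b) * b := by
      have h2 : z = y ^ N * (x ^ N * z) := by
        rw [← mul_assoc, ← mul_pow, mul_comm y x, hxy, one_pow, one_mul]
      rw [h2, hf, Finset.mul_sum]
      exact Finset.sum_congr rfl fun b _ => by rw [mul_assoc]
    rw [h1]
    refine Submodule.sum_mem _ fun b hb => ?_
    have key : ∀ g : O[X], y ^ N * ρ g * b ∈ BB ⊔ N' := by
      intro g
      induction g using Polynomial.induction_on' with
      | add p q hp hq =>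
        rw [map_add, mul_add, add_mul]
        exact Submodule.add_mem _ hp hq
      | monomial j a =>
        rw [← Polynomial.C_mul_X_pow_eq_monomial, map_mul, map_pow, hC, ← hx]
        have h3 : y ^ N * (algebraMap O L a * x ^ j) * b = a • (y ^ N * x ^ j * b) := by
          rw [Algebra.smul_def]; ring
        rw [h3]
        refine Submodule.smul_mem _ _ ?_
        rcases le_or_gt N j with h | h
        · obtain ⟨d, rfl⟩ := Nat.exists_eq_add_of_le h
          have h4 : y ^ N * x ^ (N + d) * b = x ^ d * b := by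
            rw [pow_add, ← mul_assoc, ← mul_pow, mul_comm y x, hxy, one_pow, one_mul]
          rw [h4]
          refine Submodule.mem_sup_left (Submodule.mem_sup_left ?_)
          exact (intElem_pow hxint d).mul ρ (hβ b hb)
        · obtain ⟨d, rfl⟩ := Nat.exists_eq_add_of_lt h
          have h4 : y ^ (j + d + 1) * x ^ j * b = y ^ (d + 1) * b := by
            rw [add_assoc, pow_add, mul_comm (y ^ j), mul_assoc (y ^ (d + 1)), ← mul_pow,
              mul_comm y x, hxy, one_pow, mul_one]
          rw [h4]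
          rcases lt_or_ge (d + 1) M with h5 | h5
          · refine Submodule.mem_sup_right (Submodule.subset_span ?_)
            rw [Finset.mem_coe, Finset.mem_image]
            exact ⟨(b, d + 1), Finset.mem_product.2 ⟨hb, Finset.mem_range.2 h5⟩, rfl⟩
          · obtain ⟨e, he⟩ := Nat.exists_eq_add_of_le h5
            rw [he, pow_add, mul_comm (y ^ M), mul_assoc]
            refine Submodule.mem_sup_left (Submodule.mem_sup_right ?_)
            exact (intElem_pow hyint e).mul ρ' (hM b hb)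
    exact key (f b)
  -- the chain
  let C : ℕ →o Submodule O N' :=
    { toFun := fun n => BB.comap (π ^ n • N'.subtype)
      monotone' := fun n m hnm z hz => by
        rw [Submodule.mem_comap] at hz ⊢
        obtain ⟨d, rfl⟩ := Nat.exists_eq_add_of_le hnm
        have h3 : (π ^ (n + d) • N'.subtype) z = π ^ d • ((π ^ n • N'.subtype) z) := by
          rw [LinearMap.smul_apply, LinearMap.smul_apply, smul_smul, ← pow_add, add_comm]
        rw [h3]
        exact BB.smul_mem _ hz }
  obtain ⟨c, hc⟩ := monotone_stabilizes_iff_noetherian.2 (inferInstance : IsNoetherian O N') C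
  refine ⟨c, fun n N z hz hn => ?_⟩
  obtain ⟨u, hu, v, hv, huv⟩ := Submodule.mem_sup.1 (hall N z hz)
  have h1 : (⟨v, hv⟩ : N') ∈ C n := by
    show (π ^ n • N'.subtype) ⟨v, hv⟩ ∈ BB
    rw [LinearMap.smul_apply]
    have h2 : π ^ n • N'.subtype ⟨v, hv⟩ = π ^ n • z - π ^ n • u := by
      rw [← huv, smul_add, add_sub_cancel_left]; rfl
    rw [h2]
    exact BB.sub_mem hn (BB.smul_mem _ hu)
  have h2 : (⟨v, hv⟩ : N') ∈ C c := by
    rcases le_total n c with h | h
    · exact C.monotone h h1
    · rw [hc n h]; exact h1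
  have h3 : π ^ c • v ∈ BB := h2
  rw [← huv, smul_add]
  exact BB.add_mem (BB.smul_mem _ hu) h3

/-- the idempotent of a place is constant -/
theorem mem_of_idem [IsNoetherianRing O] (hρ : ρ.comp Polynomial.C = algebraMap O L)
    (hρ' : ρ'.comp Polynomial.C = algebraMap O L) (hxy : ρ Polynomial.X * ρ' Polynomial.X = 1)
    (β : Finset L) (hβ : ∀ b ∈ β, ρ.IsIntegralElem b)
    (hgen : ∀ b : L, ρ.IsIntegralElem b → ∃ f : L → O[X], b = ∑ z ∈ β, ρ (f z) * z) {π : O}
    {S : Type*} (w : S → Valuation L ℤᵐ⁰) (hw : ∀ s f, w s (ρ f) ≤ 1)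
    (hw' : ∀ s f, w s (ρ' f) ≤ 1) (hπ : ∀ s, w s (algebraMap O L π) < 1)
    (hπ0 : algebraMap O L π ≠ 0)
    (huni : ∀ s z, w s z < 1 → w s z ≤ w s (algebraMap O L π))
    (hdiv : ∀ z, ρ.IsIntegralElem (algebraMap O L π * z) → (∀ s, w s z ≤ 1) →
      ρ.IsIntegralElem z)
    (hconst : ∀ t, IsIntegral O t → ∀ s s', w s t < 1 → w s' t < 1)
    {e e' : L} (he : ρ.IsIntegralElem e) (he' : ρ'.IsIntegralElem e') {D : Set S}
    (h1 : ∀ s ∈ D, w s (e - 1) < 1 ∧ w s (e' - 1) < 1) (h0 : ∀ s ∉ D, w s e < 1 ∧ w s e' < 1)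
    {s₁ : S} (hs₁ : s₁ ∈ D) (s : S) : s ∈ D := by
  by_contra hs
  have hle : ∀ (σ : O[X] →+* L), (∀ s f, w s (σ f) ≤ 1) → ∀ s b, σ.IsIntegralElem b → w s b ≤ 1 := by
    intro σ hσ s b hb
    exact mem_of_isIntegralElem (V := (w s).valuationSubring) (fun a => hσ s a) hb
  obtain ⟨c, hc⟩ := exists_bound hρ hρ' hxy β hβ hgen π
  set P := algebraMap O L π with hP
  -- the approximate idempotents
  have happ : ∀ (σ : O[X] →+* L), (∀ s f, w s (σ f) ≤ 1) → ∀ a : L, σ.IsIntegralElem a →
      (∀ s ∈ D, w s (a - 1) < 1) → (∀ s ∉ D, w s a < 1) → ∃ E : L, σ.IsIntegralElem E ∧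
        (∀ s ∈ D, w s (E - 1) ≤ w s P ^ (c + 1)) ∧ (∀ s ∉ D, w s E ≤ w s P ^ (c + 1)) := by
    intro σ hσ a ha hD hD'
    have hsum : ∀ u : L, σ.IsIntegralElem u → ∀ s,
        w s (∑ i ∈ Finset.range (c + 1), u ^ i) ≤ 1 := by
      intro u hu s
      refine (w s).map_sum_le fun i _ => ?_
      rw [map_pow]
      exact pow_le_one₀ zero_le (hle σ hσ s u hu)
    have h1u : σ.IsIntegralElem (1 - a ^ (c + 1)) :=
      σ.isIntegralElem_one.sub σ (intElem_pow ha _)
    refine ⟨1 - (1 - a ^ (c + 1)) ^ (c + 1), ?_, fun s hs => ?_, fun s hs => ?_⟩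
    · exact σ.isIntegralElem_one.sub σ (intElem_pow h1u _)
    · have h3 : 1 - (1 - a ^ (c + 1)) ^ (c + 1) - 1 = -(1 - a ^ (c + 1)) ^ (c + 1) := by ring
      rw [h3, Valuation.map_neg, map_pow]
      refine pow_le_pow_left' (huni s _ ?_) _
      have h4 : 1 - a ^ (c + 1) = -((a - 1) * ∑ i ∈ Finset.range (c + 1), a ^ i) := by
        rw [mul_geom_sum]; ring
      rw [h4, Valuation.map_neg, map_mul]
      exact (mul_le_of_le_one_right' (hsum a ha s)).trans_lt (hD s hs)
    · have h4 : 1 - (1 - a ^ (c + 1)) ^ (c + 1) =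
          a ^ (c + 1) * ∑ i ∈ Finset.range (c + 1), (1 - a ^ (c + 1)) ^ i := by
        rw [← mul_neg_geom_sum]; ring
      rw [h4, map_mul, map_pow]
      exact (mul_le_of_le_one_right' (hsum _ h1u s)).trans
        (pow_le_pow_left' (huni s _ (hD' s hs)) _)
  obtain ⟨E, hE, hE1, hE0⟩ := happ ρ hw e he (fun s hs => (h1 s hs).1) fun s hs => (h0 s hs).1
  obtain ⟨E', hE', hE1', hE0'⟩ :=
    happ ρ' hw' e' he' (fun s hs => (h1 s hs).2) fun s hs => (h0 s hs).2
  have hdiff : ∀ s, w s (E - E') ≤ w s P ^ (c + 1) := by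
    intro s
    by_cases h : s ∈ D
    · have h3 : E - E' = (E - 1) - (E' - 1) := by ring
      rw [h3]
      exact ((w s).map_sub _ _).trans (max_le (hE1 s h) (hE1' s h))
    · exact ((w s).map_sub _ _).trans (max_le (hE0 s h) (hE0' s h))
  have hPpos : ∀ s, (0 : ℤᵐ⁰) < w s P := fun s => zero_lt_iff.2 ((Valuation.ne_zero_iff _).2 hπ0)
  set z := (E - E') / P ^ (c + 1) with hz
  have hz1 : ∀ s, w s z ≤ 1 := by
    intro s
    rw [hz, map_div₀, map_pow]
    exact (div_le_one₀ (pow_pos (hPpos s) _)).2 (hdiff s)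
  have hPz : P ^ (c + 1) * z = E - E' := by
    rw [hz]; field_simp
  have hdivn : ∀ (n : ℕ) (u : L), ρ.IsIntegralElem (P ^ n * u) → (∀ s, w s u ≤ 1) →
      ρ.IsIntegralElem u := by
    intro n
    induction n with
    | zero => intro u hu _; rwa [pow_zero, one_mul] at hu
    | succ n ih =>
      intro u hu hu1
      refine ih u (hdiv _ ?_ fun s => ?_) hu1
      · rwa [← mul_assoc, ← pow_succ']
      · rw [map_mul, map_pow]
        exact mul_le_one' (pow_le_one₀ zero_le (hπ s).le) (hu1 s)
  obtain ⟨m, hm⟩ := flip hρ' hρ ((mul_comm _ _).trans hxy) hE'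
  have hxint : ρ.IsIntegralElem (ρ Polynomial.X) := ρ.isIntegralElem_map
  have hzint : ρ.IsIntegralElem (ρ Polynomial.X ^ m * z) := by
    refine hdivn (c + 1) _ ?_ fun s => ?_
    · have h3 : P ^ (c + 1) * (ρ Polynomial.X ^ m * z) =
          ρ Polynomial.X ^ m * E - ρ Polynomial.X ^ m * E' := by
        rw [← mul_sub, ← hPz]; ring
      rw [h3]
      exact ((intElem_pow hxint m).mul ρ hE).sub ρ hm
    · rw [map_mul, map_pow]
      exact mul_le_one' (pow_le_one₀ zero_le (hw s _)) (hz1 s)
  have hmem : π ^ (c + 1) • z ∈ intMod ρ hρ ⊔ intMod ρ' hρ' := by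
    rw [Algebra.smul_def, map_pow, ← hP, hPz]
    exact Submodule.sub_mem _ (Submodule.mem_sup_left hE) (Submodule.mem_sup_right hE')
  obtain ⟨b, hb, b', hb', hbb⟩ := Submodule.mem_sup.1 (hc _ _ _ hzint hmem)
  have hb1 : ρ.IsIntegralElem b := hb
  have hb1' : ρ'.IsIntegralElem b' := hb'
  have hPρ : ρ.IsIntegralElem P := by
    have h3 : ρ (Polynomial.C π) = P := by rw [hP, ← hρ]; rfl
    rw [← h3]; exact ρ.isIntegralElem_map
  have hPρ' : ρ'.IsIntegralElem P := by
    have h3 : ρ' (Polynomial.C π) = P := by rw [hP, ← hρ']; rfl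
    rw [← h3]; exact ρ'.isIntegralElem_map
  set t := E - P * b with ht
  have ht' : t = E' + P * b' := by
    have h3 : E - E' = P * (b + b') := by
      rw [hbb, Algebra.smul_def, map_pow, ← hP, ← hPz, pow_succ']; ring
    rw [ht]
    linear_combination h3
  have htρ : ρ.IsIntegralElem t := hE.sub ρ (hPρ.mul ρ hb1)
  have htρ' : ρ'.IsIntegralElem t := by
    rw [ht']; exact hE'.add ρ' (hPρ'.mul ρ' hb1')
  have htO : IsIntegral O t := isIntegral_of_both hρ hρ' hxy htρ htρ'
  have hpow : ∀ s, w s P ^ (c + 1) < 1 := fun s => pow_lt_one₀ zero_le (hπ s) (Nat.succ_ne_zero c)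
  have hPb : ∀ s, w s (P * b) < 1 := fun s => by
    rw [map_mul]
    exact (mul_le_of_le_one_right' (hle ρ hw s b hb1)).trans_lt (hπ s)
  have h3 : w s₁ (t - 1) < 1 := by
    have h4 : t - 1 = (E - 1) - P * b := by rw [ht]; ring
    rw [h4]
    exact ((w s₁).map_sub _ _).trans_lt (max_lt ((hE1 s₁ hs₁).trans_lt (hpow s₁)) (hPb s₁))
  have h5 : w s t < 1 := by
    rw [ht]
    exact ((w s).map_sub _ _).trans_lt (max_lt ((hE0 s hs).trans_lt (hpow s)) (hPb s))
  have h6 : w s (t - 1) < 1 := hconst _ (htO.sub isIntegral_one) s₁ s h3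
  have h7 : w s 1 < 1 := by
    have h8 : (1 : L) = t - (t - 1) := by ring
    rw [h8]
    exact ((w s).map_sub _ _).trans_lt (max_lt h5 h6)
  rw [map_one] at h7
  exact lt_irrefl _ h7

end core

end Pf72953.Glue
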