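import Mathlib
import Pool.Agent.Lib.Pf72953x.Defs
import Pool.Agent.Lib.Pf72953x.Glue
import Pool.Agent.Lib.Pf72953b.Inertia

/-!
Uniqueness of the place over the Gauss valuation: from the idempotents on the two charts to the
decomposition group.
-/

set_option autoImplicit false
set_option linter.style.haveILetI false

open scoped WithZero Polynomial
open Pf72953

namespace Pf72953.Ug

section ev

variable {P L : Type*} [Field P] [Field L] [Algebra P L] {v : Valuation P ℤᵐ⁰} {y : L}

private theorem ev_apply (f : (v.valuationSubring)[X]) :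
    ev v y f = Polynomial.aeval y (f.map (algebraMap v.valuationSubring P)) := rfl

private theorem ev_C (a : v.valuationSubring) : ev v y (Polynomial.C a) = algebraMap P L a := by
  rw [ev_apply, Polynomial.map_C, Polynomial.aeval_C]
  rfl

private theorem ev_X : ev v y Polynomial.X = y := by
  rw [ev_apply, Polynomial.map_X, Polynomial.aeval_X]

theorem ev_algebraMap {K : Type*} [Field K] [Algebra P K] [Algebra K L] [IsScalarTower P K L]
    (x : K) (f : (v.valuationSubring)[X]) :
    ev v (algebraMap K L x) f = algebraMap K L (ev v x f) := by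
  rw [ev_apply, ev_apply, Polynomial.aeval_algebraMap_apply]

end ev

section uniq

variable {P K L : Type*} [Field P] [Field K] [Field L] [Algebra P K] [Algebra K L]
  [Algebra P L] [IsScalarTower P K L]

/-- the Gauss valuation over the prime `π` of `O_v[x]` -/
theorem overPrime_gauss {x : K} {v : Valuation P ℤᵐ⁰} {w₀ : Valuation L ℤᵐ⁰}
    (hvw : ∀ a : P, v a = w₀ (algebraMap P L a))
    (hG : ∀ p : P[X], (∀ n, w₀ (algebraMap P L (p.coeff n)) ≤ 1) →
      (∃ n, w₀ (algebraMap P L (p.coeff n)) = 1) → w₀ (algebraMap K L (Polynomial.aeval x p)) = 1)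
    {π : v.valuationSubring} (hπ : Irreducible π) :
    w₀ (algebraMap K L x) = 1 ∧
    (∀ f : (v.valuationSubring)[X], w₀ (ev v (algebraMap K L x) f) ≤ 1) ∧
    ∀ f : (v.valuationSubring)[X],
      w₀ (ev v (algebraMap K L x) f) < 1 ↔ Polynomial.C π ∣ f := by
  have hx1 : w₀ (algebraMap K L x) = 1 := by
    have h1 := hG Polynomial.X (fun n => ?_) ⟨1, by simp⟩
    · rwa [Polynomial.aeval_X] at h1
    · rw [Polynomial.coeff_X]
      split <;> simp
  have hle : ∀ f : (v.valuationSubring)[X], w₀ (ev v (algebraMap K L x) f) ≤ 1 := by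
    intro f
    refine Glue.poly_mem (V := w₀.valuationSubring) (fun a => ?_) ?_ f
    · rw [ev_C]
      show w₀ _ ≤ 1
      rw [← hvw]
      exact a.2
    · rw [ev_X]
      exact hx1.le
  refine ⟨hx1, hle, fun f => ⟨fun h => ?_, fun h => ?_⟩⟩
  · rw [Polynomial.C_dvd_iff_dvd_coeff]
    by_contra hcon
    push Not at hcon
    obtain ⟨n, hn⟩ := hcon
    have hunit : IsUnit (f.coeff n) := by
      by_contra hnu
      have h1 : f.coeff n ∈ IsLocalRing.maximalIdeal v.valuationSubring :=
        (IsLocalRing.mem_maximalIdeal _).2 hnu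
      haveI : IsDiscreteValuationRing v.valuationSubring := by
        refine Pur.dvr_of_nontrivial ⟨(π : P), fun h0 => hπ.ne_zero (Subtype.ext h0), fun h1 => ?_⟩
        apply hπ.not_isUnit
        have h0 : (π : P) ≠ 0 := fun h0 => hπ.ne_zero (Subtype.ext h0)
        refine ⟨⟨π, ⟨(π : P)⁻¹, ?_⟩, Subtype.ext (mul_inv_cancel₀ h0),
          Subtype.ext (inv_mul_cancel₀ h0)⟩, rfl⟩
        show v (π : P)⁻¹ ≤ 1
        rw [map_inv₀, h1, inv_one]
      rw [hπ.maximalIdeal_eq, Ideal.mem_span_singleton] at h1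
      exact hn h1
    have hv1 : v (f.coeff n : P) = 1 := by
      obtain ⟨u, hu⟩ := hunit
      refine le_antisymm (f.coeff n).2 ?_
      have h2 : v ((u : v.valuationSubring) : P) * v (((u⁻¹ : (v.valuationSubring)ˣ) :
          v.valuationSubring) : P) = 1 := by
        rw [← map_mul]
        have h3 : ((u : v.valuationSubring) : P) * (((u⁻¹ : (v.valuationSubring)ˣ) :
            v.valuationSubring) : P) = 1 := by
          have h4 := congrArg (Subtype.val) (Units.mul_inv u)
          exact h4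
        rw [h3, map_one]
      rw [← hu, ← h2]
      exact mul_le_of_le_one_right' ((u⁻¹ : (v.valuationSubring)ˣ) : v.valuationSubring).2
    have h2 := hG (f.map (algebraMap v.valuationSubring P)) (fun m => ?_) ⟨n, ?_⟩
    · rw [ev_algebraMap, ev_apply, h2] at h
      exact lt_irrefl _ h
    · rw [← hvw, Polynomial.coeff_map]
      exact (f.coeff m).2
    · rw [← hvw, Polynomial.coeff_map]
      exact hv1
  · obtain ⟨g, rfl⟩ := h
    rw [map_mul, map_mul, ev_C]
    refine (mul_le_of_le_one_right' (hle g)).trans_lt ?_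
    rw [← hvw]
    refine lt_of_le_of_ne π.2 fun h1 => hπ.not_isUnit ?_
    have h0 : (π : P) ≠ 0 := fun h0 => hπ.ne_zero (Subtype.ext h0)
    refine ⟨⟨π, ⟨(π : P)⁻¹, ?_⟩, Subtype.ext (mul_inv_cancel₀ h0),
      Subtype.ext (inv_mul_cancel₀ h0)⟩, rfl⟩
    show v (π : P)⁻¹ ≤ 1
    rw [map_inv₀, h1, inv_one]

/-- the idempotents on the two charts show that the decomposition group is everything -/
theorem dc_of_idem [FiniteDimensional K L] [IsGalois K L]
    (hP : ∀ z : L, IsAlgebraic P z → ∃ a : P, algebraMap P L a = z) {x : K}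
    (hx : Transcendental P x) (hK : ∀ z : K, z ∈ IntermediateField.adjoin P {x})
    {v : Valuation P ℤᵐ⁰} {w₀ : Valuation L ℤᵐ⁰} (hvw : ∀ a : P, v a = w₀ (algebraMap P L a))
    (hnt : ∃ a : P, a ≠ 0 ∧ v a ≠ 1)
    (hG : ∀ p : P[X], (∀ n, w₀ (algebraMap P L (p.coeff n)) ≤ 1) →
      (∃ n, w₀ (algebraMap P L (p.coeff n)) = 1) → w₀ (algebraMap K L (Polynomial.aeval x p)) = 1)
    (hI : NoInert K w₀) {e₁ e₂ : L} (he₁ : IntX v (algebraMap K L x) e₁)
    (he₂ : IntX v (algebraMap K L x)⁻¹ e₂)
    (hE : ∀ σ : L ≃ₐ[K] L, (Br.InertiaAux.Dc w₀ σ → w₀ (σ e₁ - 1) < 1 ∧ w₀ (σ e₂ - 1) < 1) ∧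
        (¬ Br.InertiaAux.Dc w₀ σ → w₀ (σ e₁) < 1 ∧ w₀ (σ e₂) < 1)) (σ : L ≃ₐ[K] L) :
    Br.InertiaAux.Dc w₀ σ := by
  classical
  haveI hdvr : IsDiscreteValuationRing v.valuationSubring := Pur.dvr_of_nontrivial hnt
  obtain ⟨π, hπ⟩ := IsDiscreteValuationRing.exists_irreducible v.valuationSubring
  obtain ⟨hx1, hle, hlt⟩ := overPrime_gauss hvw hG hπ
  have hx0 : algebraMap K L x ≠ 0 := by
    intro h
    rw [h, map_zero] at hx1
    exact zero_ne_one hx1
  letI : Algebra v.valuationSubring L :=
    ((algebraMap P L).comp (algebraMap v.valuationSubring P)).toAlgebra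
  haveI : IsScalarTower v.valuationSubring P L := IsScalarTower.of_algebraMap_eq fun a => rfl
  have halgO : ∀ a : v.valuationSubring, algebraMap v.valuationSubring L a = algebraMap P L a :=
    fun a => rfl
  letI := Pur.algX v x
  haveI : IsFractionRing (v.valuationSubring)[X] K := Pur.isFractionRing_algX v hx hK
  letI : Algebra (v.valuationSubring)[X] L := (ev v (algebraMap K L x)).toAlgebra
  haveI : IsScalarTower (v.valuationSubring)[X] K L :=
    IsScalarTower.of_algebraMap_eq fun f => ev_algebraMap x f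
  have hprime : Prime (Polynomial.C π : (v.valuationSubring)[X]) :=
    Polynomial.prime_C_iff.2 hπ.prime
  have hop : Pur.OverPrime w₀ (Polynomial.C π : (v.valuationSubring)[X]) := ⟨hle, hlt⟩
  -- the generators of the integral closure
  haveI hfin : Module.Finite (v.valuationSubring)[X] (integralClosure (v.valuationSubring)[X] L) :=
    IsIntegralClosure.finite (v.valuationSubring)[X] K L
      (integralClosure (v.valuationSubring)[X] L)
  obtain ⟨T, hT⟩ := hfin.fg_top
  set β : Finset L := T.map ⟨Subtype.val, Subtype.val_injective⟩ with hβ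
  have hβint : ∀ b ∈ β, (ev v (algebraMap K L x)).IsIntegralElem b := by
    intro b hb
    rw [hβ, Finset.mem_map] at hb
    obtain ⟨c, _, rfl⟩ := hb
    exact c.2
  have hgen : ∀ b : L, (ev v (algebraMap K L x)).IsIntegralElem b →
      ∃ f : L → (v.valuationSubring)[X], b = ∑ z ∈ β, ev v (algebraMap K L x) (f z) * z := by
    intro b hb
    have h1 : (⟨b, hb⟩ : integralClosure (v.valuationSubring)[X] L) ∈
        Submodule.span (v.valuationSubring)[X] (T : Set (integralClosure (v.valuationSubring)[X] L)) := by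
      rw [hT]; exact Submodule.mem_top
    obtain ⟨f, _, hf⟩ := Submodule.mem_span_finset.1 h1
    refine ⟨fun z => if h : z ∈ integralClosure (v.valuationSubring)[X] L then f ⟨z, h⟩ else 0, ?_⟩
    rw [hβ, Finset.sum_map]
    have h2 := congrArg Subtype.val hf
    rw [AddSubmonoidClass.coe_finsetSum] at h2
    refine h2.symm.trans (Finset.sum_congr rfl fun c _ => ?_)
    have h3 : (c : L) ∈ integralClosure (v.valuationSubring)[X] L := c.2
    simp only [Function.Embedding.coeFn_mk]
    rw [dif_pos h3]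
    rfl
  -- the value group
  have hval : ∀ t : K, w₀ (algebraMap K L t) < 1 → w₀ (algebraMap K L t) ≤
      w₀ (algebraMap (v.valuationSubring)[X] L (Polynomial.C π)) := by
    intro t ht
    rcases eq_or_ne t 0 with rfl | ht0
    · rw [map_zero, map_zero]; exact zero_le
    obtain ⟨f, g, hg, rfl⟩ := IsFractionRing.div_surjective (A := (v.valuationSubring)[X]) t
    have hg0 : g ≠ 0 := nonZeroDivisors.ne_zero hg
    have hf0 : f ≠ 0 := by
      rintro rfl
      rw [map_zero, zero_div] at ht0
      exact ht0 rfl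
    obtain ⟨m, _, _, _, hm⟩ := Pur.exists_val hprime hop hf0
    obtain ⟨m', _, _, _, hm'⟩ := Pur.exists_val hprime hop hg0
    have hp1 : w₀ (algebraMap (v.valuationSubring)[X] L (Polynomial.C π)) < 1 :=
      (hlt _).2 dvd_rfl
    have hp0 : (0 : ℤᵐ⁰) < w₀ (algebraMap (v.valuationSubring)[X] L (Polynomial.C π)) := by
      refine zero_lt_iff.2 ((Valuation.ne_zero_iff _).2 fun h => ?_)
      have h4 : Polynomial.C π = (0 : (v.valuationSubring)[X]) :=
        (Pur.algebraMap_inj (v.valuationSubring)[X] K L) (by rw [h, map_zero])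
      exact hprime.ne_zero h4
    rw [map_div₀, map_div₀, ← IsScalarTower.algebraMap_apply, ← IsScalarTower.algebraMap_apply,
      hm, hm'] at ht ⊢
    rw [div_lt_one₀ (pow_pos hp0 _)] at ht
    have hmm : m' < m := by
      by_contra hcon
      exact absurd ht (not_lt.2 (pow_le_pow_right_of_le_one' hp1.le (not_lt.1 hcon)))
    rw [div_le_iff₀ (pow_pos hp0 _), ← pow_succ']
    exact pow_le_pow_right_of_le_one' hp1.le hmm
  have hevC : ∀ y : L, (ev v y).comp Polynomial.C = algebraMap v.valuationSubring L := by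
    intro y
    ext a
    rw [RingHom.comp_apply, ev_C]
    rfl
  have hCπ : algebraMap (v.valuationSubring)[X] L (Polynomial.C π) =
      algebraMap v.valuationSubring L π := ev_C π
  have hP0 : algebraMap P L (π : P) ≠ 0 := fun h => hπ.ne_zero
    (Subtype.ext ((map_eq_zero_iff _ (algebraMap P L).injective).1 h))
  have hσP : ∀ (s : L ≃ₐ[K] L) (a : P), s (algebraMap P L a) = algebraMap P L a := by
    intro s a
    rw [IsScalarTower.algebraMap_apply P K L, s.commutes]
  have hσev : ∀ (s : L ≃ₐ[K] L) (f : (v.valuationSubring)[X]),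
      s (ev v (algebraMap K L x) f) = ev v (algebraMap K L x) f := by
    intro s f
    rw [ev_algebraMap, s.commutes]
  refine Glue.mem_of_idem (O := v.valuationSubring) (ρ := ev v (algebraMap K L x))
    (ρ' := ev v (algebraMap K L x)⁻¹) (hevC _) (hevC _) ?_ β hβint hgen (π := π)
    (fun s : L ≃ₐ[K] L => w₀.comap (s : L →+* L)) ?_ ?_ ?_ ?_ ?_ ?_ ?_ he₁ he₂
    (D := {s : L ≃ₐ[K] L | Br.InertiaAux.Dc w₀ s}) ?_ ?_ (s₁ := 1) ?_ σ
  · rw [ev_X, ev_X, mul_inv_cancel₀ hx0]
  · intro s f
    show w₀ (s _) ≤ 1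
    rw [hσev]
    exact hle f
  · intro s f
    refine Glue.poly_mem (V := (w₀.comap (s : L →+* L)).valuationSubring) (fun a => ?_) ?_ f
    · show w₀ (s _) ≤ 1
      rw [ev_C, hσP, ← hvw]
      exact a.2
    · show w₀ (s _) ≤ 1
      rw [ev_X, map_inv₀, s.commutes, map_inv₀, hx1, inv_one]
  · intro s
    show w₀ (s (algebraMap v.valuationSubring L π)) < 1
    rw [halgO, hσP, ← halgO, ← hCπ]
    exact (hlt _).2 dvd_rfl
  · exact hP0
  · intro s z hz
    show w₀ (s z) ≤ w₀ (s (algebraMap v.valuationSubring L π))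
    rw [halgO, hσP, ← halgO, ← hCπ]
    obtain ⟨t, ht1, ht2⟩ := Br.unr_of_inertia hI (s z) hz
    exact ht2.trans (hval t ht1)
  · intro z hz hz1
    refine Pur.isIntegral_of_mul (K := K) hprime hop ?_ hz1
    rw [hCπ]
    exact hz
  · intro t ht s s' hst
    have h1 : IsAlgebraic P t := (ht.tower_top (A := P)).isAlgebraic
    obtain ⟨a, rfl⟩ := hP t h1
    have h2 : w₀ (s (algebraMap P L a)) < 1 := hst
    show w₀ (s' (algebraMap P L a)) < 1
    rwa [hσP] at h2 ⊢
  · intro s hs
    have h1 := (hE s).1 hs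
    constructor
    · show w₀ (s (e₁ - 1)) < 1
      rw [map_sub, map_one]; exact h1.1
    · show w₀ (s (e₂ - 1)) < 1
      rw [map_sub, map_one]; exact h1.2
  · intro s hs
    exact (hE s).2 hs
  · exact fun z hz => hz

end uniq

end Pf72953.Ug
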