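import Mathlib

/-!
The Gauss property over an algebraic extension of the constants.
-/

set_option autoImplicit false
set_option linter.style.haveILetI false

open scoped WithZero Polynomial

namespace Pf72953.Ug

theorem gauss_alg {P P' L' : Type*} [Field P] [Field P'] [Field L'] [Algebra P P'] [Algebra P L']
    [Algebra P' L'] [IsScalarTower P P' L'] (halg : ∀ a : P', IsAlgebraic P a)
    {w : Valuation L' ℤᵐ⁰} {x : L'}
    (hG : ∀ p : P[X], (∀ n, w (algebraMap P L' (p.coeff n)) ≤ 1) →
      (∃ n, w (algebraMap P L' (p.coeff n)) = 1) → w (Polynomial.aeval x p) = 1)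
    (p : P'[X]) (hp : ∀ n, w (algebraMap P' L' (p.coeff n)) ≤ 1)
    (hp1 : ∃ n, w (algebraMap P' L' (p.coeff n)) = 1) : w (Polynomial.aeval x p) = 1 := by
  classical
  have hx1 : w x = 1 := by
    have h1 := hG Polynomial.X (fun n => by
      rw [Polynomial.coeff_X]
      split_ifs
      · rw [map_one, map_one]
      · rw [map_zero, map_zero]
        exact zero_le_one) ⟨1, by rw [Polynomial.coeff_X_one, map_one, map_one]⟩
    rwa [Polynomial.aeval_X] at h1
  -- residue fields
  let v : Valuation P ℤᵐ⁰ := w.comap (algebraMap P L')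
  let O := v.valuationSubring
  let W := w.valuationSubring
  let κ := IsLocalRing.ResidueField W
  let i : O →+* W := ((algebraMap P L').comp O.subtype).codRestrict W.toSubring (fun a => a.2)
  have hi : ∀ a : O, ((i a : W) : L') = algebraMap P L' (a : P) := fun _ => rfl
  let f : O →+* κ := (IsLocalRing.residue W).comp i
  have hf : ∀ a : O, f a = 0 ↔ w (algebraMap P L' (a : P)) < 1 := by
    intro a
    change IsLocalRing.residue W (i a) = 0 ↔ _
    rw [IsLocalRing.residue_eq_zero_iff, Valuation.mem_maximalIdeal_iff, hi]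
  haveI : IsLocalHom f := by
    refine ⟨fun a ha => ?_⟩
    have h1 : w (algebraMap P L' (a : P)) = 1 := by
      refine le_antisymm a.2 (not_lt.1 fun h => ?_)
      rw [(hf a).2 h] at ha
      exact not_isUnit_zero ha
    have h0 : (a : P) ≠ 0 := by
      intro h0
      rw [h0, map_zero, map_zero] at h1
      exact zero_ne_one h1
    refine ⟨⟨a, ⟨(a : P)⁻¹, ?_⟩, Subtype.ext (mul_inv_cancel₀ h0),
      Subtype.ext (inv_mul_cancel₀ h0)⟩, rfl⟩
    show w (algebraMap P L' (a : P)⁻¹) ≤ 1
    rw [map_inv₀, map_inv₀, h1, inv_one]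
  let F := IsLocalRing.ResidueField O
  let φ : F →+* κ := IsLocalRing.ResidueField.lift f
  have hφ : ∀ a : O, φ (IsLocalRing.residue O a) = f a := fun a =>
    IsLocalRing.ResidueField.lift_residue_apply f a
  letI : Algebra F κ := φ.toAlgebra
  have hev : ∀ (z : W) (q : O[X]), Polynomial.aeval (IsLocalRing.residue W z)
      (q.map (IsLocalRing.residue O)) = IsLocalRing.residue W (Polynomial.eval₂ i z q) := by
    intro z q
    rw [Polynomial.hom_eval₂, Polynomial.aeval_def, Polynomial.eval₂_map]
    congr 1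
  have hevL : ∀ (z : W) (q : O[X]), ((Polynomial.eval₂ i z q : W) : L') =
      Polynomial.aeval (z : L') (q.map (algebraMap O P)) := by
    intro z q
    have h1 := Polynomial.hom_eval₂ q i W.subtype z
    have h2 : Polynomial.aeval (z : L') (q.map (algebraMap O P)) =
        Polynomial.eval₂ ((algebraMap P L').comp (algebraMap O P)) (z : L') q := by
      rw [Polynomial.aeval_def, Polynomial.eval₂_map]
    rw [h2]
    exact h1
  set xW : W := ⟨x, hx1.le⟩ with hxW
  have htx : Transcendental F (IsLocalRing.residue W xW) := by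
    rw [transcendental_iff]
    intro q hq
    by_contra hq0
    obtain ⟨q₀, rfl⟩ := Polynomial.map_surjective _ IsLocalRing.residue_surjective q
    rw [hev, IsLocalRing.residue_eq_zero_iff, Valuation.mem_maximalIdeal_iff, hevL] at hq
    obtain ⟨n, hn⟩ : ∃ n, (q₀.map (IsLocalRing.residue O)).coeff n ≠ 0 := by
      by_contra hcon
      push Not at hcon
      exact hq0 (Polynomial.ext fun n => by rw [hcon n, Polynomial.coeff_zero])
    refine absurd hq (not_lt.2 (hG _ (fun n => ?_) ⟨n, ?_⟩).ge)
    · rw [Polynomial.coeff_map]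
      exact (q₀.coeff n).2
    · rw [Polynomial.coeff_map]
      rw [Polynomial.coeff_map] at hn
      refine le_antisymm (q₀.coeff n).2 (not_lt.1 fun h => hn ?_)
      rw [IsLocalRing.residue_eq_zero_iff, Valuation.mem_maximalIdeal_iff]
      exact h
  -- the residues of the elements of `P'` are algebraic
  have hc : ∀ (c : P') (hc : w (algebraMap P' L' c) ≤ 1),
      IsAlgebraic F (IsLocalRing.residue W ⟨algebraMap P' L' c, hc⟩) := by
    intro c hc
    obtain ⟨q, hq0, hq⟩ := halg c
    obtain ⟨m, hm, hmax⟩ := Finset.exists_max_image q.support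
      (fun i => v (q.coeff i)) (by
        rwa [Finset.nonempty_iff_ne_empty, Ne, Polynomial.support_eq_empty])
    have hm0 : q.coeff m ≠ 0 := Polynomial.mem_support_iff.1 hm
    have hmpos : 0 < v (q.coeff m) := zero_lt_iff.2 ((Valuation.ne_zero_iff v).2 hm0)
    have hcoef : ∀ n, v ((Polynomial.C (q.coeff m)⁻¹ * q).coeff n) ≤ 1 := by
      intro n
      rw [Polynomial.coeff_C_mul, map_mul, map_inv₀]
      by_cases hn : n ∈ q.support
      · calc _ ≤ (v (q.coeff m))⁻¹ * v (q.coeff m) := by
              gcongr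
              exact hmax n hn
          _ = 1 := inv_mul_cancel₀ hmpos.ne'
      · rw [Polynomial.notMem_support_iff.1 hn]; simp
    obtain ⟨q₀, hq₀⟩ : ∃ q₀ : O[X], q₀.map (algebraMap O P) = Polynomial.C (q.coeff m)⁻¹ * q := by
      refine (Polynomial.lifts_iff_coeff_lifts _).2 fun n => ?_
      exact ⟨⟨_, hcoef n⟩, rfl⟩
    refine ⟨q₀.map (IsLocalRing.residue O), fun h0 => ?_, ?_⟩
    · have h1 := congrArg (fun r => Polynomial.coeff r m) h0
      simp only [Polynomial.coeff_map, Polynomial.coeff_zero] at h1
      rw [IsLocalRing.residue_eq_zero_iff, Valuation.mem_maximalIdeal_iff] at h1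
      have h2 : ((q₀.coeff m : O) : P) = 1 := by
        have h3 := congrArg (fun r => Polynomial.coeff r m) hq₀
        simp only [Polynomial.coeff_map, Polynomial.coeff_C_mul] at h3
        rw [inv_mul_cancel₀ hm0] at h3
        exact h3
      rw [h2, map_one] at h1
      exact lt_irrefl _ h1
    · rw [hev]
      have h1 : ((Polynomial.eval₂ i (⟨algebraMap P' L' c, hc⟩ : W) q₀ : W) : L') = 0 := by
        rw [hevL, hq₀, map_mul]
        have h2 : Polynomial.aeval (algebraMap P' L' c) q = 0 := by
          rw [Polynomial.aeval_algebraMap_apply, hq, map_zero]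
        show _ * Polynomial.aeval (algebraMap P' L' c) q = 0
        rw [h2, mul_zero]
      have h2 : Polynomial.eval₂ i (⟨algebraMap P' L' c, hc⟩ : W) q₀ = 0 := Subtype.ext h1
      rw [h2, map_zero]
  -- the conclusion
  have hle : w (Polynomial.aeval x p) ≤ 1 := by
    rw [Polynomial.aeval_eq_sum_range]
    refine w.map_sum_le fun i _ => ?_
    rw [Algebra.smul_def, map_mul, map_pow, hx1, one_pow, mul_one]
    exact hp i
  refine le_antisymm hle (not_lt.1 fun hlt => ?_)
  apply htx
  set T := algebraicClosure F κ with hT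
  -- the reduction of `p`
  let pbar : κ[X] := ∑ n ∈ Finset.range (p.natDegree + 1),
    Polynomial.C (IsLocalRing.residue W ⟨algebraMap P' L' (p.coeff n), hp n⟩) * Polynomial.X ^ n
  have hcoef : ∀ n ≤ p.natDegree, pbar.coeff n =
      IsLocalRing.residue W ⟨algebraMap P' L' (p.coeff n), hp n⟩ := by
    intro n hn
    show (∑ n ∈ Finset.range (p.natDegree + 1),
      Polynomial.C (IsLocalRing.residue W ⟨algebraMap P' L' (p.coeff n), hp n⟩) *
        Polynomial.X ^ n).coeff n = _
    rw [Polynomial.finset_sum_coeff]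
    simp only [Polynomial.coeff_C_mul, Polynomial.coeff_X_pow, mul_ite, mul_one, mul_zero]
    rw [Finset.sum_ite_eq]
    rw [if_pos (Finset.mem_range.2 (Nat.lt_succ_of_le hn))]
  have hcoef' : ∀ n, p.natDegree < n → pbar.coeff n = 0 := by
    intro n hn
    show (∑ n ∈ Finset.range (p.natDegree + 1),
      Polynomial.C (IsLocalRing.residue W ⟨algebraMap P' L' (p.coeff n), hp n⟩) *
        Polynomial.X ^ n).coeff n = _
    rw [Polynomial.finset_sum_coeff]
    simp only [Polynomial.coeff_C_mul, Polynomial.coeff_X_pow, mul_ite, mul_one, mul_zero]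
    rw [Finset.sum_ite_eq, if_neg]
    rw [Finset.mem_range]
    omega
  have heval : pbar.eval (IsLocalRing.residue W xW) = 0 := by
    show (∑ n ∈ Finset.range (p.natDegree + 1),
      Polynomial.C (IsLocalRing.residue W ⟨algebraMap P' L' (p.coeff n), hp n⟩) *
        Polynomial.X ^ n).eval (IsLocalRing.residue W xW) = 0
    rw [Polynomial.eval_finset_sum]
    simp only [Polynomial.eval_mul, Polynomial.eval_C, Polynomial.eval_pow, Polynomial.eval_X]
    have h1 : ∀ n ∈ Finset.range (p.natDegree + 1),
        IsLocalRing.residue W ⟨algebraMap P' L' (p.coeff n), hp n⟩ *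
          IsLocalRing.residue W xW ^ n =
        IsLocalRing.residue W (⟨algebraMap P' L' (p.coeff n), hp n⟩ * xW ^ n) := by
      intro n _
      rw [map_mul, map_pow]
    rw [Finset.sum_congr rfl h1, ← map_sum, IsLocalRing.residue_eq_zero_iff,
      Valuation.mem_maximalIdeal_iff]
    have h2 : ((∑ n ∈ Finset.range (p.natDegree + 1),
        (⟨algebraMap P' L' (p.coeff n), hp n⟩ * xW ^ n : W) : W) : L') =
        Polynomial.aeval x p := by
      rw [AddSubmonoidClass.coe_finsetSum, Polynomial.aeval_eq_sum_range]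
      refine Finset.sum_congr rfl fun n _ => ?_
      rw [Algebra.smul_def]
      rfl
    rw [h2]
    exact hlt
  have hlift : pbar ∈ Polynomial.lifts (algebraMap T κ) := by
    rw [Polynomial.lifts_iff_coeff_lifts]
    intro n
    rcases le_or_gt n p.natDegree with hn | hn
    · rw [hcoef n hn]
      exact ⟨⟨_, mem_algebraicClosure_iff.2 (hc _ (hp n))⟩, rfl⟩
    · rw [hcoef' n hn]
      exact ⟨0, map_zero _⟩
  obtain ⟨q, hq⟩ := hlift
  have hq' : q.map (algebraMap T κ) = pbar := hq
  have hq0 : q ≠ 0 := by
    rintro rfl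
    rw [Polynomial.map_zero] at hq'
    obtain ⟨n, hn⟩ := hp1
    have hnle : n ≤ p.natDegree := by
      by_contra hcon
      rw [Polynomial.coeff_eq_zero_of_natDegree_lt (not_le.1 hcon), map_zero, map_zero] at hn
      exact zero_ne_one hn
    have h1 := hcoef n hnle
    rw [← hq', Polynomial.coeff_zero] at h1
    have h2 := (IsLocalRing.residue_eq_zero_iff _).1 h1.symm
    rw [Valuation.mem_maximalIdeal_iff] at h2
    exact absurd h2 (not_lt.2 hn.ge)
  have hTx : IsAlgebraic T (IsLocalRing.residue W xW) := by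
    refine ⟨q, hq0, ?_⟩
    rw [Polynomial.aeval_def, ← Polynomial.eval_map, hq', heval]
  exact hTx.restrictScalars F

end Pf72953.Ug
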