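import Mathlib

/-!
Adjoining a root of a constant to a regular extension.
-/

set_option autoImplicit false
set_option linter.style.haveILetI false
set_option linter.unusedSectionVars false

open scoped WithZero Polynomial

namespace Pf72953.Ug

section kummer

variable {K L L' : Type*} [Field K] [Field L] [Field L'] [Algebra K L] [Algebra L L'] [Algebra K L']
  [IsScalarTower K L L']

/-- the roots of `X ^ r - y ^ r` -/
theorem exists_root (k : Type*) [Field k] [CharZero k] [IsAlgClosed k] [Algebra k K] {r : ℕ}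
    (hr : 0 < r) {y u : L'} (hy0 : y ≠ 0) (h : u ^ r = y ^ r) :
    ∃ ζ : k, ζ ^ r = 1 ∧ u = algebraMap K L' (algebraMap k K ζ) * y := by
  haveI : NeZero r := ⟨hr.ne'⟩
  haveI : NeZero (r : k) := ⟨Nat.cast_ne_zero.2 hr.ne'⟩
  obtain ⟨ζ₀, hζ₀⟩ : ∃ ζ : k, IsPrimitiveRoot ζ r := by
    exact HasEnoughRootsOfUnity.exists_primitiveRoot k r
  have hζ : IsPrimitiveRoot (algebraMap K L' (algebraMap k K ζ₀)) r :=
    (hζ₀.map_of_injective (algebraMap k K).injective).map_of_injective (algebraMap K L').injective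
  have h1 : (u / y) ^ r = 1 := by
    rw [div_pow, h, div_self (pow_ne_zero r hy0)]
  obtain ⟨i, -, hi⟩ := hζ.eq_pow_of_pow_eq_one h1
  refine ⟨ζ₀ ^ i, ?_, ?_⟩
  · rw [← pow_mul, mul_comm, pow_mul, hζ₀.pow_eq_one, one_pow]
  · rw [map_pow, map_pow, hi, div_mul_cancel₀ _ hy0]

/-- the automorphisms of `L(y)` are determined by the image of `y` -/
theorem eq_of_apply_gen {y : L'} (hL' : ∀ z : L', z ∈ IntermediateField.adjoin L {y})
    {h h' : L' ≃ₐ[L] L'} (hy : h y = h' y) : h = h' := by
  ext z
  have h4 : ∀ z ∈ IntermediateField.adjoin L {y}, h z = h' z := by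
    intro z hz
    induction hz using IntermediateField.adjoin_induction with
    | mem z hz =>
      rw [Set.mem_singleton_iff] at hz
      rw [hz]
      exact hy
    | algebraMap z => rw [h.commutes, h'.commutes]
    | add a b _ _ ha hb => rw [map_add, map_add, ha, hb]
    | inv a _ ha => rw [map_inv₀, map_inv₀, ha]
    | mul a b _ _ ha hb => rw [map_mul, map_mul, ha, hb]
  exact h4 z (hL' z)

variable [FiniteDimensional L L'] [IsGalois L L']

/-- the characters of the automorphisms over `L` -/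
theorem exists_char (k : Type*) [Field k] [CharZero k] [IsAlgClosed k] [Algebra k K] {r : ℕ}
    (hr : 0 < r) {ϖ : K} (hϖ : ϖ ≠ 0) {y : L'} (hy : y ^ r = algebraMap K L' ϖ) :
    y ≠ 0 ∧ ∃ c : (L' ≃ₐ[L] L') → k, (∀ h, c h ^ r = 1) ∧
      (∀ h : L' ≃ₐ[L] L', h y = algebraMap K L' (algebraMap k K (c h)) * y) ∧
      ∀ h h' : L' ≃ₐ[L] L', c (h * h') = c h * c h' := by
  have hy0 : y ≠ 0 := by
    rintro rfl
    rw [zero_pow hr.ne'] at hy
    exact hϖ ((map_eq_zero (algebraMap K L')).1 hy.symm)
  have h1 : ∀ h : L' ≃ₐ[L] L', ∃ ζ : k, ζ ^ r = 1 ∧ h y = algebraMap K L' (algebraMap k K ζ) * y := by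
    intro h
    refine exists_root k hr hy0 ?_
    rw [← map_pow, hy, IsScalarTower.algebraMap_apply K L L', h.commutes]
  choose c hc1 hc2 using h1
  refine ⟨hy0, c, hc1, hc2, fun h h' => ?_⟩
  have h2 := hc2 (h * h')
  rw [AlgEquiv.mul_apply, hc2 h', map_mul, IsScalarTower.algebraMap_apply K L L', h.commutes,
    ← IsScalarTower.algebraMap_apply K L L', hc2 h, ← mul_assoc, ← map_mul, ← map_mul] at h2
  have h3 := mul_right_cancel₀ hy0 h2
  have h4 := (algebraMap k K).injective ((algebraMap K L').injective h3)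
  rw [← h4, mul_comm]

/-- `K(y)` is algebraically closed in `L(y)`, if `K` is algebraically closed in `L` and `y ^ r ∈ K` -/
theorem kummer_closed (k : Type*) [Field k] [CharZero k] [IsAlgClosed k] [Algebra k K] {r : ℕ}
    (hr : 0 < r) {ϖ : K} (hϖ : ϖ ≠ 0) {y : L'} (hy : y ^ r = algebraMap K L' ϖ)
    (hL' : ∀ z : L', z ∈ IntermediateField.adjoin L {y})
    (hcl : ∀ z : L, IsAlgebraic K z → ∃ a : K, algebraMap K L a = z) {z : L'}
    (hz : IsAlgebraic K z) : z ∈ IntermediateField.adjoin K {y} := by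
  classical
  obtain ⟨hy0, c, hc1, hc2, hc3⟩ := exists_char (L := L) k hr hϖ hy
  have hc0 : ∀ h, c h ≠ 0 := fun h h0 => by
    have h1 := hc1 h
    rw [h0, zero_pow hr.ne'] at h1
    exact zero_ne_one h1
  set ι : k → L' := fun a => algebraMap K L' (algebraMap k K a) with hι
  have hιL : ∀ (h : L' ≃ₐ[L] L') (a : k), h (ι a) = ι a := by
    intro h a
    show h (algebraMap K L' (algebraMap k K a)) = algebraMap K L' (algebraMap k K a)
    rw [IsScalarTower.algebraMap_apply K L L', h.commutes]
  have hιalg : ∀ a : k, IsAlgebraic K (ι a) := fun a => isAlgebraic_algebraMap _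
  have hyalg : IsAlgebraic K y := by
    refine IsAlgebraic.of_pow hr ?_
    rw [hy]
    exact isAlgebraic_algebraMap _
  have hymem : y ∈ IntermediateField.adjoin K {y} := IntermediateField.mem_adjoin_simple_self K y
  -- the resolvents
  set R : ℕ → L' := fun i => ∑ h : L' ≃ₐ[L] L', (ι (c h))⁻¹ ^ i * h z with hR
  have hRfix : ∀ (i : ℕ) (h' : L' ≃ₐ[L] L'), h' (R i) = ι (c h') ^ i * R i := by
    intro i h'
    have hι0 : ι (c h') ≠ 0 := by
      intro h0
      have h1 := (map_eq_zero (algebraMap K L')).1 h0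
      exact hc0 h' ((map_eq_zero (algebraMap k K)).1 h1)
    rw [hR]
    simp only [map_sum, map_mul, map_pow, map_inv₀, hιL]
    rw [Finset.mul_sum]
    refine Fintype.sum_equiv (Equiv.mulLeft h') _ _ fun h => ?_
    have h1 : ι (c (h' * h)) = ι (c h') * ι (c h) := by
      show algebraMap K L' (algebraMap k K (c (h' * h))) = _
      rw [hc3, map_mul, map_mul]
    rw [Equiv.coe_mulLeft, h1, AlgEquiv.mul_apply, mul_inv, mul_pow, ← mul_assoc, ← mul_assoc,
      ← mul_pow, mul_inv_cancel₀ hι0, one_pow, one_mul]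
  have hRmem : ∀ i, R i ∈ IntermediateField.adjoin K {y} := by
    intro i
    have h1 : ∀ h' : L' ≃ₐ[L] L', h' (R i / y ^ i) = R i / y ^ i := by
      intro h'
      have hι0 : ι (c h') ≠ 0 := by
        intro h0
        have h1 := (map_eq_zero (algebraMap K L')).1 h0
        exact hc0 h' ((map_eq_zero (algebraMap k K)).1 h1)
      rw [map_div₀, map_pow, hRfix, hc2]
      show ι (c h') ^ i * R i / (ι (c h') * y) ^ i = _
      rw [mul_pow, mul_div_mul_left _ _ (pow_ne_zero i hι0)]
    obtain ⟨a, ha⟩ := (IsGalois.mem_range_algebraMap_iff_fixed (F := L) (E := L') _).2 h1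
    have h2 : IsAlgebraic K (R i) := by
      have h5 : R i ∈ algebraicClosure K L' := by
        refine sum_mem fun h _ => mem_algebraicClosure_iff.2 ?_
        refine ((hιalg _).inv.pow i).mul ?_
        exact hz.algHom ((h : L' →ₐ[L] L').restrictScalars K)
      exact mem_algebraicClosure_iff.1 h5
    have h3 : IsAlgebraic K (R i / y ^ i) := by
      rw [div_eq_mul_inv]
      exact h2.mul (hyalg.pow i).inv
    rw [← ha] at h3
    obtain ⟨b, hb⟩ := hcl a ((isAlgebraic_algebraMap_iff (algebraMap L L').injective).1 h3)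
    have h4 : R i = algebraMap K L' b * y ^ i := by
      rw [IsScalarTower.algebraMap_apply K L L', hb, ha, div_mul_cancel₀ _ (pow_ne_zero i hy0)]
    rw [h4]
    exact mul_mem (IntermediateField.algebraMap_mem _ b) (pow_mem hymem i)
  -- the sum of the resolvents
  have hsum : ∑ i ∈ Finset.range r, R i = (r : L') * z := by
    rw [hR]
    rw [Finset.sum_comm]
    have h1 : ∀ h : L' ≃ₐ[L] L', ∑ i ∈ Finset.range r, (ι (c h))⁻¹ ^ i * h z =
        if h = 1 then (r : L') * z else 0 := by
      intro h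
      rw [← Finset.sum_mul]
      split_ifs with hh
      · have h2 : ι (c h) = 1 := by
          have h3 := hc2 h
          rw [hh, AlgEquiv.one_apply] at h3
          have h4 : (ι (c 1)) * y = 1 * y := by rw [one_mul]; exact h3.symm
          rw [hh]
          exact mul_right_cancel₀ hy0 h4
        rw [h2, inv_one]
        simp only [one_pow, Finset.sum_const, Finset.card_range, nsmul_eq_mul, mul_one]
        rw [hh, AlgEquiv.one_apply]
      · have h2 : ι (c h) ≠ 1 := by
          intro h3
          apply hh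
          refine eq_of_apply_gen hL' ?_
          rw [AlgEquiv.one_apply, hc2]
          show ι (c h) * y = y
          rw [h3, one_mul]
        have h3 : (ι (c h))⁻¹ ≠ 1 := fun h4 => h2 (inv_eq_one.1 h4)
        have h4 : (ι (c h))⁻¹ ^ r = 1 := by
          rw [inv_pow]
          show (algebraMap K L' (algebraMap k K (c h)) ^ r)⁻¹ = 1
          rw [← map_pow, ← map_pow, hc1, map_one, map_one, inv_one]
        have h5 : ∑ i ∈ Finset.range r, (ι (c h))⁻¹ ^ i = 0 := by
          have h6 := geom_sum_mul (ι (c h))⁻¹ r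
          rw [h4, sub_self] at h6
          exact (mul_eq_zero.1 h6).resolve_right (sub_ne_zero.2 h3)
        rw [h5, zero_mul]
    rw [Finset.sum_congr rfl fun h _ => h1 h, Finset.sum_ite_eq' Finset.univ (1 : L' ≃ₐ[L] L')]
    simp
  haveI : CharZero K := charZero_of_injective_algebraMap (algebraMap k K).injective
  haveI : CharZero L' := charZero_of_injective_algebraMap (algebraMap K L').injective
  have hr0 : (r : L') ≠ 0 := Nat.cast_ne_zero.2 hr.ne'
  have hzz : z = (r : L')⁻¹ * ∑ i ∈ Finset.range r, R i := by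
    rw [hsum, ← mul_assoc, inv_mul_cancel₀ hr0, one_mul]
  rw [hzz]
  refine mul_mem (inv_mem (natCast_mem _ r)) (sum_mem fun i _ => hRmem i)

/-- correcting an automorphism over `K` by one over `L` such that it fixes `y` -/
theorem kummer_lift (k : Type*) [Field k] [CharZero k] [IsAlgClosed k] [Algebra k K] {r : ℕ}
    (hr : 0 < r) {ϖ : K} (hϖ : ϖ ≠ 0) {y : L'} (hy : y ^ r = algebraMap K L' ϖ)
    (hL' : ∀ z : L', z ∈ IntermediateField.adjoin L {y})
    (hcl : ∀ z : L, IsAlgebraic K z → ∃ a : K, algebraMap K L a = z) (g : L' ≃ₐ[K] L') :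
    ∃ h : L' ≃ₐ[L] L', g (h y) = y := by
  classical
  obtain ⟨hy0, c, hc1, hc2, hc3⟩ := exists_char (L := L) k hr hϖ hy
  set m := Fintype.card (L' ≃ₐ[L] L') with hm
  have hmpos : 0 < m := Fintype.card_pos
  have hcone : c 1 = 1 := by
    have h3 := hc2 1
    rw [AlgEquiv.one_apply] at h3
    have h4 : algebraMap K L' (algebraMap k K (c 1)) * y = algebraMap K L' (algebraMap k K 1) * y := by
      rw [map_one, map_one, one_mul]; exact h3.symm
    exact (algebraMap k K).injective ((algebraMap K L').injective (mul_right_cancel₀ hy0 h4))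
  have hcpow : ∀ (h : L' ≃ₐ[L] L') (n : ℕ), c (h ^ n) = c h ^ n := by
    intro h n
    induction n with
    | zero => rw [pow_zero, pow_zero, hcone]
    | succ n ih => rw [pow_succ, pow_succ, hc3, ih]
  have hcm : ∀ h, c h ^ m = 1 := by
    intro h
    rw [← hcpow, hm, ← Nat.card_eq_fintype_card, pow_card_eq_one', hcone]
  have hcinj : Function.Injective c := by
    intro h h' hh
    refine eq_of_apply_gen hL' ?_
    rw [hc2, hc2, hh]
  have himg : Finset.univ.image c = (Polynomial.nthRoots m (1 : k)).toFinset := by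
    refine Finset.eq_of_subset_of_card_le (fun ζ hζ => ?_) ?_
    · rw [Finset.mem_image] at hζ
      obtain ⟨h, _, rfl⟩ := hζ
      rw [Multiset.mem_toFinset, Polynomial.mem_nthRoots hmpos]
      exact hcm h
    · rw [Finset.card_image_of_injective _ hcinj, Finset.card_univ]
      exact (Multiset.toFinset_card_le _).trans (Polynomial.card_nthRoots m 1)
  -- `y ^ m` lies in `K`
  have h1 : ∀ h' : L' ≃ₐ[L] L', h' (y ^ m) = y ^ m := by
    intro h'
    rw [map_pow, hc2, mul_pow, ← map_pow, ← map_pow, hcm, map_one, map_one, one_mul]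
  obtain ⟨a, ha⟩ := (IsGalois.mem_range_algebraMap_iff_fixed (F := L) (E := L') _).2 h1
  have hyalg : IsAlgebraic K y := by
    refine IsAlgebraic.of_pow hr ?_
    rw [hy]
    exact isAlgebraic_algebraMap _
  have h2 : IsAlgebraic K (algebraMap L L' a) := by rw [ha]; exact hyalg.pow m
  obtain ⟨b, hb⟩ := hcl a ((isAlgebraic_algebraMap_iff (algebraMap L L').injective).1 h2)
  have h3 : y ^ m = algebraMap K L' b := by
    rw [IsScalarTower.algebraMap_apply K L L', hb, ha]
  obtain ⟨ζ, hζ1, hζ2⟩ := exists_root (K := K) k hmpos hy0 (u := g y) (by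
    rw [← map_pow, h3, g.commutes])
  have hζ0 : ζ ≠ 0 := by
    rintro rfl
    rw [zero_pow hmpos.ne'] at hζ1
    exact zero_ne_one hζ1
  have hmem : ζ⁻¹ ∈ Finset.univ.image c := by
    rw [himg, Multiset.mem_toFinset, Polynomial.mem_nthRoots hmpos, inv_pow, hζ1, inv_one]
  rw [Finset.mem_image] at hmem
  obtain ⟨h, _, hh⟩ := hmem
  refine ⟨h, ?_⟩
  rw [hc2, hh, map_mul, g.commutes, hζ2, ← mul_assoc, ← map_mul, ← map_mul, inv_mul_cancel₀ hζ0,
    map_one, map_one, one_mul]

end kummer

end Pf72953.Ug
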